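import Pool.Agent.DW.Defs

/-!
# DW: runs of linear factors, integrality at rational points

`rn a v = ∏_{i<v} (X - (a+i))`. At an integer point this is `ZC/BLK.run_bf_mem`. At `u / b`: write
`bf M v = N1 N2`, `N1 = gcd (bf M v) (b^v)`, `N2` prime to `b` (`v_q (bf M v) ≤ v` for every prime
`q`: Legendre); choose an integer `t1` with `b t1 = u` mod `N2`; `b^v (D_κ R)(u/b) = b^v (D_κ R)(t1)`
mod `N2`; multiply by `b^v / N1`.
-/

namespace Pool.Agent.DW

open Finset Polynomial Pool.Agent.ZC Pool.Agent.SI Pool.Agent.DM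
open scoped Nat

/-- `∏_{i<v} (X - (a+i))` -/
noncomputable def rn (K : Type*) [Field K] (a : ℤ) (v : ℕ) : K[X] :=
  ∏ i ∈ range v, (X - C ((a : K) + i))

theorem rn_succ (K : Type*) [Field K] (a : ℤ) (v : ℕ) :
    rn K a (v + 1) = rn K a v * (X - C ((a : K) + v)) := by
  rw [rn, prod_range_succ, rn]

theorem rn_succ' (K : Type*) [Field K] (a : ℤ) (v : ℕ) :
    rn K a (v + 1) = (X - C (a : K)) * rn K (a + 1) v := by
  rw [rn, prod_range_succ', mul_comm, rn]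
  congr 1
  · simp
  · apply prod_congr rfl
    intro k _
    congr 2
    push_cast
    ring

theorem Cp_comp_tp (K : Type*) [Field K] (p j : ℕ) :
    (Cp K j).comp (tp K p) = C ((4 : K) ^ j) * rn K (1 - (j : ℤ) - p) (2 * j) := by
  induction j with
  | zero => simp [Cp, rn]
  | succ j ih =>
    have h1 : Cp K (j + 1) = Cp K j * (X - C ((2 * (j : K) + 1) ^ 2)) := by
      rw [Cp, prod_range_succ, Cp]
    rw [h1, mul_comp, ih, show 2 * (j + 1) = (2 * j + 1) + 1 by ring, rn_succ', rn_succ]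
    have e1 : (1 - ((j + 1 : ℕ) : ℤ) - p + 1) = 1 - (j : ℤ) - p := by push_cast; ring
    rw [e1, tp]
    simp only [sub_comp, X_comp, C_comp]
    have e2 : ((C 2 * X + C (2 * (p : K) - 1)) ^ 2 - C ((2 * (j : K) + 1) ^ 2) : K[X]) =
        C 4 * ((X - C (((1 - ((j + 1 : ℕ) : ℤ) - p : ℤ) : K))) *
          (X - C (((1 - (j : ℤ) - p : ℤ) : K) + ((2 * j : ℕ) : K)))) := by
      push_cast
      simp only [map_sub, map_add, map_mul, map_pow, map_one, map_ofNat, map_natCast]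
      ring
    rw [e2, pow_succ, map_mul]
    ring

/-- `Cn_j` in the variable `t` is a normalised run of length `2j` -/
theorem Cn_comp_tp (K : Type*) [Field K] [CharZero K] (M p j : ℕ) :
    (Cn K M j).comp (tp K p) = C ((bf M (2 * j) : K)⁻¹) * rn K (1 - (j : ℤ) - p) (2 * j) := by
  rw [Cn, mul_comp, C_comp, Cp_comp_tp, ← mul_assoc, ← map_mul]
  congr 2
  have h1 : (bf M (2 * j) : K) ≠ 0 := by exact_mod_cast (bf_pos M (2 * j)).ne'
  push_cast
  field_simp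

theorem taylor_rn (a t1 : ℤ) (v : ℕ) :
    ((taylor (t1 : ℚ) (rn ℚ a v) : ℚ[X]) : PowerSeries ℚ) =
      PowerSeries.C ((-1 : ℚ) ^ v) * run (a - t1) (-1) v := by
  induction v with
  | zero => simp [rn, run_zero]
  | succ v ih =>
    rw [rn_succ, taylor_mul, Polynomial.coe_mul, ih, run_succ, map_sub, taylor_X, taylor_C]
    rw [pow_succ, map_mul, Polynomial.coe_sub, Polynomial.coe_add, Polynomial.coe_X,
      Polynomial.coe_C, Polynomial.coe_C]
    have e : (PowerSeries.X + PowerSeries.C (t1 : ℚ) - PowerSeries.C ((a : ℚ) + v) : PowerSeries ℚ) =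
        PowerSeries.C (-1) * (PowerSeries.C (((a - t1 : ℤ) : ℚ) + v) + PowerSeries.C (((-1 : ℤ) : ℚ)) * PowerSeries.X) := by
      push_cast
      simp only [map_sub, map_add, map_neg, map_one]
      ring
    rw [e]
    ring

/-- integrality at an integer point -/
theorem int_run {M d : ℕ} (hM : 0 < M) (hd : ∀ q : ℕ, 1 ≤ q → q ≤ M → q ∣ d) (a t1 : ℤ)
    (v κ : ℕ) : ∃ w : ℤ, (d : ℚ) ^ κ *
      ((hasseDeriv κ (rn ℚ a v)).eval (t1 : ℚ) / (bf M v : ℚ)) = w := by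
  have h1 := run_bf_mem (d := d) hM (-1) hd v (a - t1)
  have h2 : (PowerSeries.C ((bf M v : ℚ)⁻¹) * ((taylor (t1 : ℚ) (rn ℚ a v) : ℚ[X]) : PowerSeries ℚ)) ∈ dR d := by
    rw [taylor_rn]
    have h3 := smul_int_mem (c := (-1 : ℚ) ^ v) ⟨(-1) ^ v, by push_cast; rfl⟩ h1
    convert h3 using 1
    ring
  obtain ⟨w, hw⟩ := mem_dR.1 h2 κ
  refine ⟨w, ?_⟩
  rw [← hw, PowerSeries.coeff_C_mul, Polynomial.coeff_coe, taylor_coeff]
  rw [div_eq_inv_mul]

theorem fact_val_le (q n : ℕ) (hq : q.Prime) : (n !).factorization q ≤ n := by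
  have := Fact.mk hq
  have h := sub_one_mul_padicValNat_factorial (p := q) n
  rw [Nat.factorization_def _ hq]
  have h2 : 1 ≤ q - 1 := by have := hq.two_le; omega
  calc padicValNat q n ! = 1 * padicValNat q n ! := (one_mul _).symm
    _ ≤ (q - 1) * padicValNat q n ! := Nat.mul_le_mul_right _ h2
    _ = n - (q.digits n).sum := h
    _ ≤ n := Nat.sub_le _ _

theorem bf_val_le {M : ℕ} (q v : ℕ) (hq : q.Prime) : (bf M v).factorization q ≤ v := by
  unfold bf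
  rw [Nat.factorization_mul (by positivity) (by positivity), Nat.factorization_pow]
  simp only [Finsupp.coe_add, Finsupp.coe_smul, Pi.add_apply, Pi.smul_apply, smul_eq_mul]
  have h1 := fact_val_le q M hq
  have h2 := fact_val_le q (v % M) hq
  calc v / M * (M !).factorization q + ((v % M)!).factorization q ≤ v / M * M + v % M :=
        Nat.add_le_add (Nat.mul_le_mul_left _ h1) h2
    _ = v := by rw [mul_comm]; exact Nat.div_add_mod v M

/-- `bf M v = N1 N2`, `N1 ∣ b^v`, `N2` prime to `b` -/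
theorem bf_dec (M v b : ℕ) (hb : 0 < b) : ∃ N1 N2 : ℕ, bf M v = N1 * N2 ∧ N1 ∣ b ^ v ∧
    Nat.Coprime b N2 := by
  have hN : 0 < bf M v := bf_pos M v
  have hbv : 0 < b ^ v := by positivity
  obtain ⟨N2, hN2⟩ := Nat.gcd_dvd_left (bf M v) (b ^ v)
  refine ⟨(bf M v).gcd (b ^ v), N2, hN2, Nat.gcd_dvd_right _ _, ?_⟩
  set N1 := (bf M v).gcd (b ^ v) with hN1
  have hN1p : 0 < N1 := Nat.gcd_pos_of_pos_left _ hN
  refine Nat.coprime_of_dvd fun q hq h1 h2 => ?_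
  have h3 : q * N1 ∣ bf M v := by
    rw [hN2, mul_comm]
    exact mul_dvd_mul_left _ h2
  have h4 : q * N1 ∣ b ^ v := by
    rw [← Nat.factorization_prime_le_iff_dvd (Nat.mul_ne_zero hq.ne_zero hN1p.ne') hbv.ne']
    intro r hr
    by_cases hrq : r = q
    · subst hrq
      have h5 : (r * N1).factorization r ≤ (bf M v).factorization r :=
        (Nat.factorization_prime_le_iff_dvd (Nat.mul_ne_zero hq.ne_zero hN1p.ne') hN.ne').2 h3 r hr
      have h6 := bf_val_le (M := M) r v hr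
      have h7 : 1 ≤ b.factorization r := (hr.dvd_iff_one_le_factorization hb.ne').1 h1
      rw [Nat.factorization_pow]
      simp only [Finsupp.coe_smul, Pi.smul_apply, smul_eq_mul]
      calc (r * N1).factorization r ≤ v := h5.trans h6
        _ = v * 1 := (mul_one v).symm
        _ ≤ v * b.factorization r := Nat.mul_le_mul_left _ h7
    · rw [Nat.factorization_mul hq.ne_zero hN1p.ne', hq.factorization]
      simp only [Finsupp.coe_add, Pi.add_apply]
      rw [Finsupp.single_apply, if_neg (fun h => hrq h.symm), zero_add]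
      exact (Nat.factorization_prime_le_iff_dvd hN1p.ne' hbv.ne').2 (Nat.gcd_dvd_right _ _) r hr
  have h5 : q * N1 ∣ N1 := Nat.dvd_gcd h3 h4
  have h6 := Nat.le_of_dvd hN1p h5
  have h7 := hq.two_le
  nlinarith

theorem rn_map (a : ℤ) (v : ℕ) : ∃ Q : ℤ[X], Q.natDegree ≤ v ∧ Q.map (Int.castRingHom ℚ) = rn ℚ a v := by
  induction v with
  | zero => exact ⟨1, by simp, by simp [rn]⟩
  | succ v ih =>
    obtain ⟨Q, h1, h2⟩ := ih
    refine ⟨Q * (X - C (a + v)), ?_, ?_⟩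
    · refine natDegree_mul_le.trans ?_
      exact Nat.add_le_add h1 (natDegree_X_sub_C _).le
    · rw [rn_succ, Polynomial.map_mul, h2]
      simp

theorem hasse_map (κ : ℕ) (Q : ℤ[X]) :
    (hasseDeriv κ Q).map (Int.castRingHom ℚ) = hasseDeriv κ (Q.map (Int.castRingHom ℚ)) := by
  ext n
  simp [hasseDeriv_coeff]

/-- homogenised value -/
theorem hom_val (D : ℤ[X]) (v : ℕ) (hD : D.natDegree ≤ v) (u : ℤ) (b : ℕ) (hb : 0 < b) :
    (b : ℚ) ^ v * (D.map (Int.castRingHom ℚ)).eval ((u : ℚ) / b) =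
      ((∑ m ∈ range (v + 1), D.coeff m * u ^ m * b ^ (v - m) : ℤ) : ℚ) := by
  have hb' : (b : ℚ) ≠ 0 := by positivity
  rw [eval_map, eval₂_eq_sum_range' _ (Nat.lt_succ_of_le hD), mul_sum]
  push_cast
  refine sum_congr rfl fun m hm => ?_
  have hm' : m ≤ v := by simpa [Nat.lt_succ_iff] using hm
  obtain ⟨e, rfl⟩ := Nat.exists_eq_add_of_le hm'
  rw [Nat.add_sub_cancel_left, div_pow, pow_add]
  simp only [eq_intCast]
  field_simp

theorem hom_cong (D : ℤ[X]) (v : ℕ) (hD : D.natDegree ≤ v) (u t1 : ℤ) (b : ℕ) (N : ℤ)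
    (h : N ∣ u - b * t1) :
    N ∣ (∑ m ∈ range (v + 1), D.coeff m * u ^ m * b ^ (v - m)) - b ^ v * D.eval t1 := by
  rw [eval_eq_sum_range' (Nat.lt_succ_of_le hD), mul_sum, ← sum_sub_distrib]
  refine dvd_sum fun m hm => ?_
  have hm' : m ≤ v := by simpa [Nat.lt_succ_iff] using hm
  obtain ⟨e, rfl⟩ := Nat.exists_eq_add_of_le hm'
  rw [Nat.add_sub_cancel_left]
  have e1 : D.coeff m * u ^ m * (b : ℤ) ^ e - (b : ℤ) ^ (m + e) * (D.coeff m * t1 ^ m) =
      (D.coeff m * (b : ℤ) ^ e) * (u ^ m - (b * t1) ^ m) := by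
    rw [mul_pow, pow_add]; ring
  rw [e1]
  exact dvd_mul_of_dvd_right (h.trans (sub_dvd_pow_sub_pow _ _ _)) _

/-- integrality at a rational point -/
theorem rat_run {M d : ℕ} (hM : 0 < M) (hd : ∀ q : ℕ, 1 ≤ q → q ≤ M → q ∣ d) (a u : ℤ)
    (b v κ : ℕ) (hb : 0 < b) : ∃ w : ℤ, (b : ℚ) ^ (2 * v) * (d : ℚ) ^ κ *
      ((hasseDeriv κ (rn ℚ a v)).eval ((u : ℚ) / b) / (bf M v : ℚ)) = w := by
  obtain ⟨Q, hQ1, hQ2⟩ := rn_map a v
  set D : ℤ[X] := hasseDeriv κ Q with hDdef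
  have hD : D.natDegree ≤ v := (natDegree_hasseDeriv_le Q κ).trans ((Nat.sub_le _ _).trans hQ1)
  have hDm : D.map (Int.castRingHom ℚ) = hasseDeriv κ (rn ℚ a v) := by
    rw [hDdef, hasse_map, hQ2]
  obtain ⟨N1, N2, hN, hN1, hN2⟩ := bf_dec M v b hb
  have hbf : (bf M v : ℚ) ≠ 0 := by exact_mod_cast (bf_pos M v).ne'
  -- choose `t1`
  obtain ⟨t1, ht1⟩ : ∃ t1 : ℤ, (N2 : ℤ) ∣ u - b * t1 := by
    have hc : IsCoprime (b : ℤ) (N2 : ℤ) := Nat.isCoprime_iff_coprime.2 hN2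
    obtain ⟨x, y, hxy⟩ := hc
    refine ⟨x * u, y * u, ?_⟩
    linear_combination (-u) * hxy
  set A : ℤ := ∑ m ∈ range (v + 1), D.coeff m * u ^ m * b ^ (v - m) with hA
  have hA1 := hom_cong D v hD u t1 b N2 ht1
  rw [← hA] at hA1
  have hA2 := hom_val D v hD u b hb
  rw [← hA, hDm] at hA2
  -- integrality at `t1`
  obtain ⟨w1, hw1⟩ := int_run hM hd a t1 v κ
  have hev : (hasseDeriv κ (rn ℚ a v)).eval (t1 : ℚ) = ((D.eval t1 : ℤ) : ℚ) := by
    rw [← hDm, eval_intCast_map]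
    simp
  have h3 : (d : ℤ) ^ κ * D.eval t1 = w1 * bf M v := by
    have : ((d : ℚ) ^ κ * ((D.eval t1 : ℤ) : ℚ)) = w1 * bf M v := by
      rw [← hw1, ← hev]; field_simp
    exact_mod_cast this
  have h4 : (N2 : ℤ) ∣ (d : ℤ) ^ κ * D.eval t1 := by
    rw [h3, hN]
    push_cast
    exact ⟨w1 * N1, by ring⟩
  have h5 : (N2 : ℤ) ∣ (d : ℤ) ^ κ * A := by
    have h6 : (d : ℤ) ^ κ * A = (d : ℤ) ^ κ * (A - b ^ v * D.eval t1) +
        b ^ v * ((d : ℤ) ^ κ * D.eval t1) := by ring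
    rw [h6]
    exact dvd_add (dvd_mul_of_dvd_right hA1 _) (dvd_mul_of_dvd_right h4 _)
  obtain ⟨c2, hc2⟩ := h5
  obtain ⟨c1, hc1⟩ := hN1
  refine ⟨c1 * c2, ?_⟩
  have h7 : (b : ℚ) ^ (2 * v) * (d : ℚ) ^ κ *
      ((hasseDeriv κ (rn ℚ a v)).eval ((u : ℚ) / b) / (bf M v : ℚ)) =
      (b : ℚ) ^ v * ((d : ℚ) ^ κ * ((b : ℚ) ^ v * (hasseDeriv κ (rn ℚ a v)).eval ((u : ℚ) / b))) /
        (bf M v : ℚ) := by
    rw [two_mul, pow_add]; ring
  rw [h7, hA2, div_eq_iff hbf]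
  have h8 : (b : ℤ) ^ v * ((d : ℤ) ^ κ * A) = (c1 * c2) * bf M v := by
    rw [hc2, hN]
    have : (b : ℤ) ^ v = (N1 : ℤ) * c1 := by exact_mod_cast hc1
    rw [this]; push_cast; ring
  exact_mod_cast h8

theorem beta_dvd {d : ℕ} (k e : ℕ) (hd : ∀ q : ℕ, 1 ≤ q → q ≤ k + e + 1 → q ∣ d) :
    (k + e + 1)! ∣ d * (k ! * e !) := by
  obtain ⟨z, hz⟩ := beta_int (d := d) e k hd
  have h1 : (((k + e + 1)! : ℕ) : ℚ) ≠ 0 := by positivity
  have h2 : ((d * (k ! * e !) : ℕ) : ℚ) = z * ((k + e + 1)! : ℕ) := by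
    rw [← hz]; push_cast; field_simp
  have h3 : ((d * (k ! * e !) : ℕ) : ℤ) = z * ((k + e + 1)! : ℕ) := by exact_mod_cast h2
  have h4 : (((k + e + 1)! : ℕ) : ℤ) ∣ ((d * (k ! * e !) : ℕ) : ℤ) := ⟨z, by rw [h3]; ring⟩
  exact_mod_cast h4

theorem bf_mk {M : ℕ} (i1 : ℕ) {i0 : ℕ} (h : i0 < M) : bf M (M * i1 + i0) = (M !) ^ i1 * i0 ! := by
  unfold bf
  rw [Nat.mul_add_div (by omega), Nat.div_eq_of_lt h, Nat.mul_add_mod, Nat.mod_eq_of_lt h, add_zero]

/-- block factorials: one factor removed costs `d` -/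
theorem bf_split {M d : ℕ} (hM : 0 < M) (hd : ∀ q : ℕ, 1 ≤ q → q ≤ M → q ∣ d) (i k : ℕ) :
    bf M (i + k + 1) ∣ d * (bf M i * bf M k) := by
  obtain ⟨i1, i0, hi0, rfl⟩ : ∃ i1 i0, i0 < M ∧ i = M * i1 + i0 :=
    ⟨i / M, i % M, Nat.mod_lt _ hM, (Nat.div_add_mod i M).symm⟩
  obtain ⟨k1, k0, hk0, rfl⟩ : ∃ i1 i0, i0 < M ∧ k = M * i1 + i0 :=
    ⟨k / M, k % M, Nat.mod_lt _ hM, (Nat.div_add_mod k M).symm⟩
  rw [bf_mk i1 hi0, bf_mk k1 hk0]
  rcases Nat.lt_or_ge (i0 + k0 + 1) M with h | h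
  · have e : M * i1 + i0 + (M * k1 + k0) + 1 = M * (i1 + k1) + (i0 + k0 + 1) := by ring
    rw [e, bf_mk _ h]
    have h1 := beta_dvd (d := d) i0 k0 (fun q a b => hd q a (by omega))
    have h2 : d * ((M !) ^ i1 * i0 ! * ((M !) ^ k1 * k0 !)) = (M !) ^ (i1 + k1) * (d * (i0 ! * k0 !)) := by
      rw [pow_add]; ring
    rw [h2]
    exact mul_dvd_mul_left _ h1
  · obtain ⟨r, hr⟩ := Nat.exists_eq_add_of_le h
    obtain ⟨x, hx⟩ : ∃ x, i0 = r + x := ⟨i0 - r, by omega⟩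
    have hk : k0 + x + 1 = M := by omega
    have e : M * i1 + i0 + (M * k1 + k0) + 1 = M * (i1 + k1 + 1) + r := by
      have : M * i1 + i0 + (M * k1 + k0) + 1 = M * i1 + M * k1 + (i0 + k0 + 1) := by ring
      rw [this, hr]; ring
    rw [e, bf_mk _ (by omega)]
    have h1 := beta_dvd (d := d) k0 x (fun q a b => hd q a (by omega))
    rw [hk] at h1
    have h3 : r ! * x ! * (r + x).choose r = (r + x)! := by
      have := Nat.choose_mul_factorial_mul_factorial (Nat.le_add_right r x)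
      rw [Nat.add_sub_cancel_left] at this
      rw [← this]; ring
    have h4 : M ! * r ! ∣ d * (i0 ! * k0 !) := by
      obtain ⟨c, hc⟩ := h1
      refine ⟨c * (r + x).choose r, ?_⟩
      have hx0 : 0 < x ! := Nat.factorial_pos x
      apply Nat.eq_of_mul_eq_mul_right hx0
      rw [hx, ← h3]
      calc d * (r ! * x ! * (r + x).choose r * k0 !) * x ! =
          r ! * x ! * (r + x).choose r * (d * (k0 ! * x !)) := by ring
        _ = M ! * r ! * (c * (r + x).choose r) * x ! := by rw [hc]; ring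
    have h2 : d * ((M !) ^ i1 * i0 ! * ((M !) ^ k1 * k0 !)) = (M !) ^ (i1 + k1) * (d * (i0 ! * k0 !)) := by
      rw [pow_add]; ring
    rw [h2, pow_succ, mul_assoc]
    exact mul_dvd_mul_left _ h4

end Pool.Agent.DW
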