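import Pool.Agent.DW.TAY
import Pool.Agent.DW.RAT
import Pool.Agent.DM.BDY
import Pool.Agent.DM.BDT

/-!
# DW: bounds of the `Y` rows and of the coordinates

`b^(4n) ≤ (2H)^(4n)`, the normalised runs are bounded as in `ZC/BDC.bd_Cn`, `le_bf`
(`l1` norms: every factor has `l1` norm at most `20 H p`); the spare powers absorb binomials and
powers of `2` for `M` large. At a position `|t0 + ..| ≤ 8 p`.
-/

namespace Pool.Agent.DW

open Finset Polynomial Pool.Agent.ZC Pool.Agent.SI Pool.Agent.DM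

/-- domination of `Cn_j((w0 + 2X)^2)` -/
private theorem bda_dom (A M n j : ℕ) (w0 : ℝ) (hA : 1 ≤ A) (hM : 0 < M) (hMA : n ≤ A * M)
    (hn : 4 ≤ n) (hj : j ≤ n) (h0 : 0 ≤ w0) (h1 : w0 ≤ n) :
    ∃ g : ℝ[X], BDom (((Cn ℝ M j).comp ((C w0 + C 2 * X) ^ 2) : ℝ[X]) : PowerSeries ℝ) g ∧
      g.eval 1 ≤ (20 * (A : ℝ) ^ 2) ^ n * Real.exp M := by
  have hnR : (4 : ℝ) ≤ n := by exact_mod_cast hn
  have hcomp : (((Cp ℝ j).comp ((C w0 + C 2 * X) ^ 2) : ℝ[X]) : PowerSeries ℝ) =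
      ∏ k ∈ range j, ((PowerSeries.C (w0 - (2 * (k : ℝ) + 1)) + PowerSeries.C 2 * PowerSeries.X) *
        (PowerSeries.C (w0 + (2 * (k : ℝ) + 1)) + PowerSeries.C 2 * PowerSeries.X)) := by
    induction j with
    | zero => simp [Cp]
    | succ j ih =>
      have h2 : Cp ℝ (j + 1) = Cp ℝ j * (X - C ((2 * (j : ℝ) + 1) ^ 2)) := by
        rw [Cp, prod_range_succ, Cp]
      rw [h2, mul_comp, Polynomial.coe_mul, ih (by omega), prod_range_succ]
      congr 1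
      simp only [sub_comp, X_comp, C_comp, Polynomial.coe_sub, Polynomial.coe_pow,
        Polynomial.coe_add, Polynomial.coe_mul, Polynomial.coe_C, Polynomial.coe_X]
      simp only [map_sub, map_add, map_mul, map_pow, map_one, map_ofNat, map_natCast]
      ring
  refine ⟨C |(((4 ^ j * bf M (2 * j) : ℕ) : ℝ)⁻¹)| * ∏ k ∈ range j,
    ((C |w0 - (2 * (k : ℝ) + 1)| + C (2 : ℝ) * X) * (C |w0 + (2 * (k : ℝ) + 1)| + C (2 : ℝ) * X)),
    ?_, ?_⟩
  · rw [Cn, mul_comp, C_comp, Polynomial.coe_mul, Polynomial.coe_C, hcomp]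
    exact VBD_dom_C _ (BDom.prod _ fun k _ => (BDom.lin _).mul (BDom.lin _))
  · rw [eval_mul, eval_C, abs_inv, abs_of_nonneg (Nat.cast_nonneg _), eval_prod]
    have hprod : ∏ k ∈ range j, eval 1 ((C |w0 - (2 * (k : ℝ) + 1)| + C (2 : ℝ) * X) *
        (C |w0 + (2 * (k : ℝ) + 1)| + C (2 : ℝ) * X)) ≤ ((3 * (n : ℝ) + 1) ^ 2) ^ j := by
      have h3 : ∏ k ∈ range j, ((3 * (n : ℝ) + 1) ^ 2) = ((3 * (n : ℝ) + 1) ^ 2) ^ j := by simp
      rw [← h3]
      apply prod_le_prod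
      · intro k _
        simp only [eval_mul, eval_add, eval_C, eval_X, mul_one]
        positivity
      · intro k hk
        have hk1 : (k : ℝ) + 1 ≤ n := by
          have : k + 1 ≤ n := by have := mem_range.1 hk; omega
          exact_mod_cast this
        have hk0 : (0 : ℝ) ≤ k := Nat.cast_nonneg _
        simp only [eval_mul, eval_add, eval_C, eval_X, mul_one]
        rw [abs_of_nonneg (a := w0 + (2 * (k : ℝ) + 1)) (by linarith)]
        have e1 : |w0 - (2 * (k : ℝ) + 1)| + 2 ≤ 3 * n + 1 := by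
          have : |w0 - (2 * (k : ℝ) + 1)| ≤ 2 * n := by
            rw [abs_le]; constructor <;> linarith
          linarith
        have e2 : w0 + (2 * (k : ℝ) + 1) + 2 ≤ 3 * n + 1 := by linarith
        rw [sq]
        exact mul_le_mul e1 e2 (by positivity) (by positivity)
    refine (mul_le_mul_of_nonneg_left hprod (by positivity)).trans ?_
    refine (div_bf_le hM j _).trans ?_
    apply mul_le_mul_of_nonneg_right _ (Real.exp_pos _).le
    have haR : (1 : ℝ) ≤ A := by exact_mod_cast hA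
    have h4 := VBD_const (a := A) (C := 20) hM hMA (w := 3 * (n : ℝ) + 1)
      (k := 13 / 4) (by positivity) (by linarith) (by norm_num) (by norm_num)
    calc _ ≤ (20 * (A : ℝ) ^ 2) ^ j := pow_le_pow_left₀ (by positivity) h4 j
      _ ≤ _ := pow_le_pow_right₀ (by nlinarith) hj

private theorem bda_exp {M n : ℕ} (h : M ≤ n) : Real.exp M ≤ 3 ^ n := by
  have h1 : Real.exp M ≤ Real.exp n := Real.exp_le_exp.2 (by exact_mod_cast h)
  have h2 : Real.exp (n : ℝ) = Real.exp 1 ^ n := by rw [← Real.exp_nat_mul, mul_one]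
  rw [h2] at h1
  exact h1.trans (pow_le_pow_left₀ (Real.exp_pos _).le Real.exp_one_lt_three.le n)

private theorem bda_b {B H β : ℕ} (n : ℕ) (hβ : β < B) (hBH : B ≤ H) :
    |(2 * (β : ℝ) + 1) ^ (4 * n)| ≤ (16 * (H : ℝ) ^ 4) ^ n := by
  rw [abs_of_nonneg (by positivity), pow_mul]
  apply pow_le_pow_left₀ (by positivity)
  have h1 : (β : ℝ) + 1 ≤ H := by exact_mod_cast hβ.trans_le hBH
  have h2 : (2 * (β : ℝ) + 1) ≤ 2 * H := by linarith
  calc (2 * (β : ℝ) + 1) ^ 4 ≤ (2 * (H : ℝ)) ^ 4 := pow_le_pow_left₀ (by positivity) h2 4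
    _ = _ := by ring

/-- final numerical inequality -/
private theorem bda_num {H a S n : ℕ} (hH : 1 ≤ H) (ha : 1 ≤ a) {c : ℝ} (hc0 : 0 ≤ c)
    (hc : c ≤ 4) :
    (16 * (H : ℝ) ^ 4) ^ n * (c ^ n * ((20 * ((4 * H * (a + S + 1) : ℕ) : ℝ) ^ 2) ^ n * 3 ^ n)) ≤
      (1000 * (H : ℝ) * (a + S + 1)) ^ (20 * n) := by
  have hHR : (1 : ℝ) ≤ H := by exact_mod_cast hH
  have haR : (1 : ℝ) ≤ a := by exact_mod_cast ha
  have hSR : (0 : ℝ) ≤ S := Nat.cast_nonneg _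
  set x : ℝ := (H : ℝ) * (a + S + 1) with hx
  have hx1 : 1 ≤ x := by rw [hx]; nlinarith
  have hHx : (H : ℝ) ≤ x := by rw [hx]; nlinarith
  rw [← mul_pow, ← mul_pow, ← mul_pow, pow_mul]
  apply pow_le_pow_left₀ (by positivity)
  have e0 : ((4 * H * (a + S + 1) : ℕ) : ℝ) = 4 * x := by rw [hx]; push_cast; ring
  have e1 : (1000 * (H : ℝ) * (a + S + 1)) ^ 20 = 1000 ^ 20 * (x ^ 14 * x ^ 6) := by
    rw [hx]; ring
  rw [e0, e1]
  calc 16 * (H : ℝ) ^ 4 * (c * (20 * (4 * x) ^ 2 * 3))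
      ≤ 16 * x ^ 4 * (4 * (20 * (4 * x) ^ 2 * 3)) := by gcongr
    _ = 61440 * (1 * x ^ 6) := by ring
    _ ≤ 1000 ^ 20 * (x ^ 14 * x ^ 6) := by
        have h2 : 1 ≤ x ^ 14 := one_le_pow₀ hx1
        gcongr
        norm_num

theorem dw_bd_y (B H a S T : ℕ) (hB : 1 ≤ B) (hBH : B ≤ H) (ha : 1 ≤ a) (c : ℕ → ℝ) :
    ∃ M0 : ℕ, ∀ M ≥ M0, ∀ β < B, ∀ κ ≤ S, ∀ j < 4 * H * ((a + S + 1) * M),
      ∀ l < (a + S + 1) * M, ∀ m < a,
      |PowerSeries.coeff m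
        (yW ℝ M ((a + S + 1) * M) (4 * H * ((a + S + 1) * M)) T c β κ j l)| ≤
        (1000 * (H : ℝ) * (a + S + 1)) ^ (20 * (4 * H * ((a + S + 1) * M))) := by
  set G : ℕ → ℕ → ℝ := fun β κ => ∑ i ∈ oddS T,
    ((i - 1).choose κ : ℝ) * |2 * (((2 * β + 1 : ℕ)) : ℝ) ^ i * c i| with hG
  have hG0 : ∀ β κ, 0 ≤ G β κ := fun β κ => sum_nonneg fun _ _ => by positivity
  obtain ⟨M1, hM1⟩ := pow_unbounded_of_one_lt (∑ β ∈ range B, ∑ κ ∈ range (S + 1), G β κ)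
    (show (1 : ℝ) < 2 by norm_num)
  refine ⟨max 1 M1, fun M hM β hβ κ hκ j hj l hlp m hm => ?_⟩
  have hH : 1 ≤ H := hB.trans hBH
  have hMpos : 1 ≤ M := (le_max_left _ _).trans hM
  have hMM1 : M1 ≤ M := (le_max_right _ _).trans hM
  set p := (a + S + 1) * M with hp
  set n := 4 * H * p with hn
  set A := 4 * H * (a + S + 1) with hA
  have hMp : M ≤ p := by rw [hp]; nlinarith
  have hn4 : 4 * p ≤ n := by rw [hn]; nlinarith
  have hp1 : 1 ≤ p := hMpos.trans hMp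
  have hA1 : 1 ≤ A := by rw [hA]; nlinarith
  have hnA : 4 * H * p ≤ A * M := by rw [hA, hp]; exact le_of_eq (by ring)
  obtain ⟨g2, hg2, hb2⟩ := VBD_dom_Cn A M H p hA1 hH hp1 (by omega) hnA l hlp j hj.le
  rw [← hn] at hb2
  have h4 := (BDom.lin (2 * (p : ℝ) - 1 - 2 * (l : ℝ))).pow (κ % 2)
  set g4 := (Polynomial.C |2 * (p : ℝ) - 1 - 2 * (l : ℝ)| +
    Polynomial.C (2 : ℝ) * Polynomial.X) ^ (κ % 2) with hg4
  have hpR : (1 : ℝ) ≤ p := by exact_mod_cast hp1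
  have hlR : (l : ℝ) + 1 ≤ p := by exact_mod_cast hlp
  have hl0 : (0 : ℝ) ≤ l := Nat.cast_nonneg _
  -- the factor `w`
  have hb4 : g4.eval 1 ≤ 2 ^ n := by
    rw [hg4]
    simp only [Polynomial.eval_pow, Polynomial.eval_add, Polynomial.eval_C, Polynomial.eval_mul,
      Polynomial.eval_X, mul_one]
    rw [abs_of_nonneg (by linarith)]
    have h5 : (2 * (p : ℝ) - 1 - 2 * (l : ℝ) + 2) ≤ 2 ^ n := by
      have h6 : (2 * (p : ℝ) - 1 - 2 * (l : ℝ) + 2) ≤ n := by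
        have : (4 * (p : ℝ)) ≤ n := by exact_mod_cast hn4
        linarith
      have h7 : (n : ℝ) ≤ 2 ^ n := by exact_mod_cast (Nat.lt_two_pow_self (n := n)).le
      exact h6.trans h7
    have h8 : 1 ≤ 2 * (p : ℝ) - 1 - 2 * (l : ℝ) + 2 := by linarith
    calc (2 * (p : ℝ) - 1 - 2 * (l : ℝ) + 2) ^ (κ % 2)
        ≤ (2 * (p : ℝ) - 1 - 2 * (l : ℝ) + 2) ^ 1 := pow_le_pow_right₀ h8 (by omega)
      _ ≤ 2 ^ n := by rw [pow_one]; exact h5
  -- the factor `hs κ zs`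
  have h3 : BDom (hs ℝ κ (zs ℝ (2 * β + 1) (oddS T) c)) (∑ i ∈ oddS T,
      C (((i - 1).choose κ : ℝ) * |2 * (((2 * β + 1 : ℕ)) : ℝ) ^ i * c i|) * X ^ (i - 1 - κ)) := by
    intro r
    rw [coeff_hs, zs, map_sum, Finset.mul_sum, Polynomial.finsetSum_coeff]
    refine (abs_sum_le_sum_abs _ _).trans (sum_le_sum fun i _ => ?_)
    rw [PowerSeries.coeff_C_mul, PowerSeries.coeff_X_pow, Polynomial.coeff_C_mul,
      Polynomial.coeff_X_pow]
    by_cases hi : r + κ = i - 1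
    · have h5 : r = i - 1 - κ := by omega
      rw [if_pos hi, if_pos h5, mul_one, mul_one, abs_mul, abs_of_nonneg (Nat.cast_nonneg _), hi]
    · rw [if_neg hi, mul_zero, mul_zero, abs_zero]
      split_ifs <;> positivity
  have hb3 : (∑ i ∈ oddS T, C (((i - 1).choose κ : ℝ) *
      |2 * (((2 * β + 1 : ℕ)) : ℝ) ^ i * c i|) * X ^ (i - 1 - κ) : ℝ[X]).eval 1 ≤ 2 ^ n := by
    have e1 : (∑ i ∈ oddS T, C (((i - 1).choose κ : ℝ) *
      |2 * (((2 * β + 1 : ℕ)) : ℝ) ^ i * c i|) * X ^ (i - 1 - κ) : ℝ[X]).eval 1 = G β κ := by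
      rw [eval_finsetSum, hG]
      refine sum_congr rfl fun i _ => ?_
      simp only [eval_mul, eval_C, eval_pow, eval_X, one_pow, mul_one]
    rw [e1]
    have h5 : G β κ ≤ ∑ β ∈ range B, ∑ κ ∈ range (S + 1), G β κ := by
      refine le_trans ?_ (single_le_sum (f := fun β => ∑ κ ∈ range (S + 1), G β κ)
        (fun k _ => sum_nonneg fun _ _ => hG0 _ _) (mem_range.2 hβ))
      exact single_le_sum (f := G β) (fun k _ => hG0 _ _) (mem_range.2 (by omega))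
    have h6 : (2 : ℝ) ^ M1 ≤ 2 ^ n := pow_le_pow_right₀ (by norm_num) (by omega)
    linarith
  have hloc : loc ℝ l (wP ℝ M p n β κ j) = PowerSeries.C ((2 * (β : ℝ) + 1) ^ (4 * n)) *
      (hl ℝ p l ^ (κ % 2) * ev ℝ p l (Cn ℝ M j)) := by
    have e3 : loc ℝ l (C ((2 * (β : ℝ) + 1) ^ (4 * n))) =
        PowerSeries.C ((2 * (β : ℝ) + 1) ^ (4 * n)) := by
      rw [loc_apply, C_comp, Polynomial.coe_C]
    rw [wP, pw, map_mul, map_mul, e3, map_pow (loc ℝ l) (wpol ℝ p), loc_wpol, ← ev_eq_loc]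
    rfl
  have hdom := (VBD_dom_C ((2 * (β : ℝ) + 1) ^ (4 * n)) (h4.mul hg2)).mul h3
  have hcoef := hdom.coeff_le m
  have e2 : yW ℝ M p n T c β κ j l = PowerSeries.C ((2 * (β : ℝ) + 1) ^ (4 * n)) *
      ((PowerSeries.C (2 * (p : ℝ) - 1 - 2 * (l : ℝ)) + PowerSeries.C (2 : ℝ) * PowerSeries.X) ^
        (κ % 2) * ev ℝ p l (Cn ℝ M j)) * hs ℝ κ (zs ℝ (2 * β + 1) (oddS T) c) := by
    rw [yW, hloc, hl]
  rw [e2]
  refine hcoef.trans ?_
  have hg2' : 0 ≤ g2.eval 1 := (abs_nonneg _).trans (hg2.coeff_le 0)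
  have hg4' : 0 ≤ g4.eval 1 := (abs_nonneg _).trans (h4.coeff_le 0)
  rw [eval_mul, eval_mul, eval_C, eval_mul]
  have hfin := bda_num (n := n) (S := S) hH ha (c := 4) (by norm_num) le_rfl
  refine le_trans ?_ hfin
  have hexp := bda_exp (M := M) (n := n) (by omega)
  have hAR : (1 : ℝ) ≤ A := by exact_mod_cast hA1
  calc |(2 * (β : ℝ) + 1) ^ (4 * n)| * (g4.eval 1 * g2.eval 1) *
        (∑ i ∈ oddS T, C (((i - 1).choose κ : ℝ) *
          |2 * (((2 * β + 1 : ℕ)) : ℝ) ^ i * c i|) * X ^ (i - 1 - κ) : ℝ[X]).eval 1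
      ≤ (16 * (H : ℝ) ^ 4) ^ n * (2 ^ n * ((10 * (A : ℝ) ^ 2) ^ n * Real.exp M)) * 2 ^ n := by
        have hb1 := bda_b (B := B) (H := H) (β := β) n hβ hBH
        refine mul_le_mul ?_ hb3 ((abs_nonneg _).trans (h3.coeff_le 0)) (by positivity)
        exact mul_le_mul hb1 (mul_le_mul hb4 hb2 hg2' (by positivity)) (by positivity)
          (by positivity)
    _ ≤ (16 * (H : ℝ) ^ 4) ^ n * (2 ^ n * ((20 * (A : ℝ) ^ 2) ^ n * 3 ^ n)) * 2 ^ n := by
        gcongr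
        norm_num
    _ = (16 * (H : ℝ) ^ 4) ^ n * ((2 ^ n * 2 ^ n) * ((20 * (A : ℝ) ^ 2) ^ n * 3 ^ n)) := by ring
    _ = (16 * (H : ℝ) ^ 4) ^ n * (4 ^ n * ((20 * (A : ℝ) ^ 2) ^ n * 3 ^ n)) := by
        rw [← mul_pow (2 : ℝ) 2 n]; norm_num

theorem dw_bd_a (B H a S : ℕ) (hB : 1 ≤ B) (hBH : B ≤ H) (ha : 1 ≤ a) :
    ∃ M0 : ℕ, ∀ M ≥ M0, ∀ β < B, ∀ κ ≤ S, ∀ j < 4 * H * ((a + S + 1) * M),
      ∀ k < 2 * (2 * β + 1) * ((a + S + 1) * M), ∀ r,
      |aco κ r (tpt ℝ ((a + S + 1) * M) β k)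
        (wP ℝ M ((a + S + 1) * M) (4 * H * ((a + S + 1) * M)) β κ j)| ≤
        (1000 * (H : ℝ) * (a + S + 1)) ^ (20 * (4 * H * ((a + S + 1) * M))) := by
  refine ⟨1, fun M hM β hβ κ hκ j hj k hk r => ?_⟩
  have hH : 1 ≤ H := hB.trans hBH
  set p := (a + S + 1) * M with hp
  set n := 4 * H * p with hn
  set A := 4 * H * (a + S + 1) with hA
  have hMp : M ≤ p := by rw [hp]; nlinarith
  have hn4 : 4 * p ≤ n := by rw [hn]; nlinarith
  have hp1 : 1 ≤ p := hM.trans hMp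
  have hA1 : 1 ≤ A := by rw [hA]; nlinarith
  have hnA : n ≤ A * M := by rw [hn, hA, hp]; exact le_of_eq (by ring)
  have hpos : (0 : ℝ) ≤ (1000 * (H : ℝ) * (a + S + 1)) ^ (20 * n) := by positivity
  by_cases hr : r ≤ κ
  swap
  · rw [aco, if_neg hr, abs_zero]
    exact hpos
  rw [aco, if_pos hr, abs_mul, abs_pow, abs_neg, abs_one, one_pow, one_mul, ← taylor_coeff]
  set w0 : ℝ := (2 * (k : ℝ) + 1) / (2 * (β : ℝ) + 1) with hw0
  have hb0 : (0 : ℝ) < 2 * (β : ℝ) + 1 := by positivity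
  have h0 : 0 ≤ w0 := by rw [hw0]; positivity
  have h1 : w0 ≤ 4 * p := by
    rw [hw0, div_le_iff₀ hb0]
    have h2 : k + 1 ≤ 2 * (2 * β + 1) * p := hk
    have h3 : (k : ℝ) + 1 ≤ 2 * (2 * β + 1) * p := by exact_mod_cast h2
    nlinarith
  have hnR : (4 * (p : ℝ)) ≤ n := by exact_mod_cast hn4
  obtain ⟨g, hg, hgb⟩ := bda_dom A M n j w0 hA1 (by omega) hnA (by omega) hj.le h0 (h1.trans hnR)
  have hlin : (C 2 * (X + C (tpt ℝ p β k)) + C (2 * (p : ℝ) - 1) : ℝ[X]) = C w0 + C 2 * X := by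
    have h2 : (2 : ℝ) * tpt ℝ p β k + (2 * (p : ℝ) - 1) = w0 := by
      rw [tpt, hw0]; ring
    rw [← h2]
    simp only [map_add, map_mul, map_sub]
    ring
  have htay : ((taylor (tpt ℝ p β k) (wP ℝ M p n β κ j) : ℝ[X]) : PowerSeries ℝ) =
      PowerSeries.C ((2 * (β : ℝ) + 1) ^ (4 * n)) *
        ((PowerSeries.C w0 + PowerSeries.C (2 : ℝ) * PowerSeries.X) ^ (κ % 2) *
          (((Cn ℝ M j).comp ((C w0 + C 2 * X) ^ 2) : ℝ[X]) : PowerSeries ℝ)) := by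
    have h2 : taylor (tpt ℝ p β k) (wP ℝ M p n β κ j) =
        C ((2 * (β : ℝ) + 1) ^ (4 * n)) * ((C w0 + C 2 * X) ^ (κ % 2) *
          (Cn ℝ M j).comp ((C w0 + C 2 * X) ^ 2)) := by
      rw [taylor_apply, wP, pw, mul_comp, mul_comp, C_comp, pow_comp, comp_assoc, wpol, tp,
        pow_comp]
      simp only [add_comp, mul_comp, C_comp, X_comp]
      rw [hlin]
    rw [h2]
    simp only [Polynomial.coe_mul, Polynomial.coe_pow, Polynomial.coe_add, Polynomial.coe_C,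
      Polynomial.coe_X]
  have hdom := VBD_dom_C ((2 * (β : ℝ) + 1) ^ (4 * n)) (((BDom.lin w0).pow (κ % 2)).mul hg)
  rw [← htay] at hdom
  have hcoef := hdom.coeff_le (κ - r)
  rw [Polynomial.coeff_coe] at hcoef
  refine hcoef.trans ?_
  have hfin := bda_num (n := n) (S := S) hH ha (c := 2) (by norm_num) (by norm_num)
  refine le_trans ?_ hfin
  have hexp := bda_exp (M := M) (n := n) (by omega)
  have hg' : 0 ≤ g.eval 1 := (abs_nonneg _).trans (hg.coeff_le 0)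
  rw [eval_mul, eval_C, eval_mul]
  have hw2 : ((C |w0| + C (2 : ℝ) * X) ^ (κ % 2) : ℝ[X]).eval 1 ≤ 2 ^ n := by
    simp only [eval_pow, eval_add, eval_C, eval_mul, eval_X, mul_one]
    rw [abs_of_nonneg h0]
    have h5 : w0 + 2 ≤ 2 ^ n := by
      have h7 : n + 2 ≤ 2 ^ n := by
        have h8 : 4 ≤ n := by omega
        clear_value n
        clear * - h8
        induction n, h8 using Nat.le_induction with
        | base => norm_num
        | succ n _ ih => rw [pow_succ]; omega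
      have h8 : (n : ℝ) + 2 ≤ 2 ^ n := by exact_mod_cast h7
      linarith
    calc (w0 + 2) ^ (κ % 2) ≤ (w0 + 2) ^ 1 := pow_le_pow_right₀ (by linarith) (by omega)
      _ ≤ 2 ^ n := by rw [pow_one]; exact h5
  have hw2' : 0 ≤ ((C |w0| + C (2 : ℝ) * X) ^ (κ % 2) : ℝ[X]).eval 1 := by
    simp only [eval_pow, eval_add, eval_C, eval_mul, eval_X, mul_one]
    positivity
  have hb1 := bda_b (B := B) (H := H) (β := β) n hβ hBH
  refine mul_le_mul hb1 ?_ (mul_nonneg hw2' hg') (by positivity)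
  refine mul_le_mul hw2 (hgb.trans ?_) hg' (by positivity)
  exact mul_le_mul_of_nonneg_left hexp (by positivity)

end Pool.Agent.DW
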