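import Pool.Agent.DW.Defs
import Pool.Agent.DM.BDY
import Pool.Agent.DM.BDT

/-!
# DW: bound of the regularised `g` rows

`coeff m (loc (ddq κ t0 F))` is at most `∑_i |D_i F (t0)| (|l + t0| + 1)^i`, a product over the
linear factors; all factors are at most `10 H p`, there are at most `8 H p` kernels.
-/

namespace Pool.Agent.DW

open Finset Polynomial Pool.Agent.ZC Pool.Agent.SI Pool.Agent.DM

private theorem bdg_locC (l : ℕ) (c : ℝ) : loc ℝ l (C c) = PowerSeries.C c := by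
  rw [loc_apply, C_comp, Polynomial.coe_C]

private theorem bdg_loclin (l : ℕ) (t0 : ℝ) : loc ℝ l (X - C t0) =
    PowerSeries.C (-((l : ℝ) + t0)) + PowerSeries.C (1 : ℝ) * PowerSeries.X := by
  rw [loc_apply]
  simp only [sub_comp, X_comp, C_comp, Polynomial.coe_sub, Polynomial.coe_X, Polynomial.coe_C,
    map_neg, map_add, map_one, one_mul]
  ring

private theorem bdg_ddq (κ l : ℕ) (t0 : ℝ) (F g : ℝ[X]) (y : ℝ) (hy : |(l : ℝ) + t0| + 1 ≤ y)
    (hF : ∀ i, |(hasseDeriv i F).eval t0| ≤ g.coeff i) (m : ℕ) :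
    |PowerSeries.coeff m (loc ℝ l (ddq κ t0 F))| ≤ g.eval y := by
  have hab := abs_nonneg ((l : ℝ) + t0)
  have hy1 : 1 ≤ y := by linarith
  rw [ddq, map_sum, map_sum]
  set N := max F.natDegree g.natDegree + 1 with hN
  rw [eval_eq_sum_range' (show g.natDegree < N by omega)]
  refine (abs_sum_le_sum_abs _ _).trans ?_
  have h1 : ∀ i ∈ Icc (κ + 1) F.natDegree,
      |PowerSeries.coeff m (loc ℝ l (C ((hasseDeriv i F).eval t0) * (X - C t0) ^ (i - κ - 1)))| ≤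
        g.coeff i * y ^ i := by
    intro i hi
    rw [map_mul, map_pow, bdg_locC, bdg_loclin, PowerSeries.coeff_C_mul, abs_mul]
    have h2 := ((VBD_lin (-((l : ℝ) + t0)) 1).pow (i - κ - 1)).coeff_le m
    simp only [eval_pow, eval_add, eval_C, eval_mul, eval_X, mul_one, abs_neg, abs_one] at h2
    have h3 : (|(l : ℝ) + t0| + 1) ^ (i - κ - 1) ≤ y ^ i :=
      (pow_le_pow_left₀ (by linarith) hy _).trans (pow_le_pow_right₀ hy1 (by omega))
    exact mul_le_mul (hF i) (h2.trans h3) (abs_nonneg _) ((abs_nonneg _).trans (hF i))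
  refine (sum_le_sum h1).trans ?_
  refine sum_le_sum_of_subset_of_nonneg ?_ ?_
  · intro i hi
    rw [mem_Icc] at hi
    rw [mem_range]
    omega
  · intro i _ _
    exact mul_nonneg ((abs_nonneg _).trans (hF i)) (by positivity)

private theorem bdg_taylor (M p n β κ j : ℕ) (t0 : ℝ) :
    ((taylor t0 (wP ℝ M p n β κ j) : ℝ[X]) : PowerSeries ℝ) =
      PowerSeries.C ((2 * (β : ℝ) + 1) ^ (4 * n)) *
        ((PowerSeries.C (2 * t0 + (2 * (p : ℝ) - 1)) +
            PowerSeries.C (2 : ℝ) * PowerSeries.X) ^ (κ % 2) *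
          (PowerSeries.C ((((4 ^ j * bf M (2 * j) : ℕ) : ℝ))⁻¹) *
            ∏ k ∈ range j,
              ((PowerSeries.C ((2 * t0 + (2 * (p : ℝ) - 1)) - (2 * (k : ℝ) + 1)) +
                PowerSeries.C (2 : ℝ) * PowerSeries.X) *
              (PowerSeries.C ((2 * t0 + (2 * (p : ℝ) - 1)) + (2 * (k : ℝ) + 1)) +
                PowerSeries.C (2 : ℝ) * PowerSeries.X)))) := by
  have hw : (wpol ℝ p).comp (X + C t0) = C (2 * t0 + (2 * (p : ℝ) - 1)) + C (2 : ℝ) * X := by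
    rw [wpol]
    simp only [add_comp, mul_comp, C_comp, X_comp, map_add, map_mul]
    ring
  have ht : (tp ℝ p).comp (X + C t0) = (C (2 * t0 + (2 * (p : ℝ) - 1)) + C (2 : ℝ) * X) ^ 2 := by
    rw [tp]
    simp only [pow_comp, add_comp, mul_comp, C_comp, X_comp, map_add, map_mul]
    ring
  have hc : ∀ c : ℝ, Polynomial.coeToPowerSeries.ringHom (C c) = PowerSeries.C c :=
    fun c => Polynomial.coe_C c
  have hX : (Polynomial.coeToPowerSeries.ringHom (X : ℝ[X])) = PowerSeries.X := Polynomial.coe_X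
  change Polynomial.coeToPowerSeries.ringHom (taylor t0 (wP ℝ M p n β κ j)) = _
  rw [taylor_apply, wP, pw, Cn, Cp]
  rw [mul_comp, mul_comp, pow_comp, hw, C_comp, comp_assoc, ht, mul_comp, C_comp,
    Polynomial.prod_comp]
  rw [map_mul, map_mul, map_mul, map_prod, hc, hc]
  simp only [sub_comp, X_comp, C_comp]
  simp only [map_sub, map_pow, map_add, map_mul, hc, hX]
  congr 3
  refine prod_congr rfl fun k _ => ?_
  ring

private theorem bdg_row (M p n A β κ j l : ℕ) (t0 : ℝ) (hM : 0 < M) (hp : 1 ≤ p)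
    (hn : 4 * p ≤ n) (hnA : n ≤ A * M) (hA : 1 ≤ A) (hj : j ≤ n)
    (hw : |2 * t0 + (2 * (p : ℝ) - 1)| ≤ 2 * p - 1) (hl : |(l : ℝ) + t0| + 1 ≤ 2 * p) (m : ℕ) :
    |PowerSeries.coeff m (loc ℝ l (ddq κ t0 (wP ℝ M p n β κ j)))| ≤
      (2 * (β : ℝ) + 1) ^ (4 * n) * ((6 * p) * ((23 * (A : ℝ) ^ 2) ^ n * Real.exp M)) := by
  set w0 : ℝ := 2 * t0 + (2 * (p : ℝ) - 1) with hw0
  set g : ℝ[X] := C |(2 * (β : ℝ) + 1) ^ (4 * n)| *
    ((C |w0| + C (2 : ℝ) * X) ^ (κ % 2) *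
      (C |(((4 ^ j * bf M (2 * j) : ℕ) : ℝ))⁻¹| *
        ∏ k ∈ range j,
          ((C |w0 - (2 * (k : ℝ) + 1)| + C (2 : ℝ) * X) *
            (C |w0 + (2 * (k : ℝ) + 1)| + C (2 : ℝ) * X)))) with hg
  have hdom : BDom ((taylor t0 (wP ℝ M p n β κ j) : ℝ[X]) : PowerSeries ℝ) g := by
    rw [bdg_taylor, ← hw0, hg]
    exact VBD_dom_C _ (((BDom.lin _).pow _).mul
      (VBD_dom_C _ (BDom.prod _ fun k _ => (BDom.lin _).mul (BDom.lin _))))
  have hF : ∀ i, |(hasseDeriv i (wP ℝ M p n β κ j)).eval t0| ≤ g.coeff i := by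
    intro i
    have h := hdom i
    rwa [Polynomial.coeff_coe, taylor_coeff] at h
  refine (bdg_ddq κ l t0 _ g (2 * p) hl hF m).trans ?_
  have hpR : (1 : ℝ) ≤ p := by exact_mod_cast hp
  have hnR : 4 * (p : ℝ) ≤ n := by exact_mod_cast hn
  have hAR : (1 : ℝ) ≤ A := by exact_mod_cast hA
  have hb0 : (0 : ℝ) ≤ (2 * (β : ℝ) + 1) ^ (4 * n) := by positivity
  rw [hg]
  simp only [eval_mul, eval_pow, eval_add, eval_C, eval_X, eval_prod]
  rw [abs_of_nonneg hb0]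
  refine mul_le_mul_of_nonneg_left ?_ hb0
  have hprod0 : 0 ≤ ∏ k ∈ range j, ((|w0 - (2 * (k : ℝ) + 1)| + 2 * (2 * (p : ℝ))) *
      (|w0 + (2 * (k : ℝ) + 1)| + 2 * (2 * (p : ℝ)))) :=
    prod_nonneg fun k _ => by positivity
  refine mul_le_mul ?_ ?_ (mul_nonneg (abs_nonneg _) hprod0) (by positivity)
  · have h1 : (1 : ℝ) ≤ |w0| + 2 * (2 * p) := by linarith [abs_nonneg w0]
    calc (|w0| + 2 * (2 * (p : ℝ))) ^ (κ % 2) ≤ (|w0| + 2 * (2 * (p : ℝ))) ^ 1 :=
          pow_le_pow_right₀ h1 (by omega)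
      _ ≤ 6 * p := by rw [pow_one]; linarith
  · rw [abs_inv, abs_of_nonneg (Nat.cast_nonneg _)]
    have h2 : ∏ k ∈ range j, ((|w0 - (2 * (k : ℝ) + 1)| + 2 * (2 * (p : ℝ))) *
        (|w0 + (2 * (k : ℝ) + 1)| + 2 * (2 * (p : ℝ)))) ≤ ((7 / 2 * (n : ℝ)) ^ 2) ^ j := by
      have h3 : ∏ k ∈ range j, ((7 / 2 * (n : ℝ)) ^ 2) = ((7 / 2 * (n : ℝ)) ^ 2) ^ j := by simp
      rw [← h3]
      refine prod_le_prod (fun k _ => by positivity) ?_
      intro k hk
      have hk1 : (k : ℝ) + 1 ≤ n := by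
        have : k + 1 ≤ n := by have := mem_range.1 hk; omega
        exact_mod_cast this
      have hk0 : (0 : ℝ) ≤ k := Nat.cast_nonneg _
      have hwa := abs_le.1 hw
      rw [sq]
      refine mul_le_mul ?_ ?_ (by positivity) (by positivity)
      · have : |w0 - (2 * (k : ℝ) + 1)| ≤ (2 * p - 1) + (2 * k + 1) := by
          rw [abs_le]; constructor <;> linarith [hwa.1, hwa.2]
        linarith
      · have : |w0 + (2 * (k : ℝ) + 1)| ≤ (2 * p - 1) + (2 * k + 1) := by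
          rw [abs_le]; constructor <;> linarith [hwa.1, hwa.2]
        linarith
    refine (mul_le_mul_of_nonneg_left h2 (by positivity)).trans ?_
    refine (div_bf_le hM j _).trans ?_
    refine mul_le_mul_of_nonneg_right ?_ (Real.exp_pos _).le
    have h4 := VBD_const (a := A) (C := 23) hM hnA (w := 7 / 2 * (n : ℝ)) (k := 7 / 2)
      (by positivity) le_rfl (by norm_num) (by norm_num)
    calc _ ≤ (23 * (A : ℝ) ^ 2) ^ j := pow_le_pow_left₀ (by positivity) h4 j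
      _ ≤ _ := pow_le_pow_right₀ (by nlinarith) hj

theorem dw_bd_g (B H a S : ℕ) (hB : 1 ≤ B) (hBH : B ≤ H) (ha : 1 ≤ a) :
    ∃ M0 : ℕ, ∀ M ≥ M0, ∀ β < B, ∀ κ ≤ S, ∀ j < 4 * H * ((a + S + 1) * M),
      ∀ l < (a + S + 1) * M, ∀ m < a,
      |PowerSeries.coeff m
        (gW ℝ M ((a + S + 1) * M) (4 * H * ((a + S + 1) * M)) β κ j l)| ≤
        (1000 * (H : ℝ) * (a + S + 1)) ^ (20 * (4 * H * ((a + S + 1) * M))) := by
  refine ⟨1, fun M hMpos β hβ κ _ j hj l hlp m _ => ?_⟩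
  have hH : 1 ≤ H := hB.trans hBH
  set p := (a + S + 1) * M with hp
  set n := 4 * H * p with hn
  set A := 4 * H * (a + S + 1) with hA
  have hp1 : a + S + 1 ≤ p := by rw [hp]; nlinarith
  have hMp : M ≤ p := by rw [hp]; nlinarith
  have hn4 : 4 * p ≤ n := by rw [hn]; nlinarith
  have hA1 : 1 ≤ A := by rw [hA]; nlinarith
  have hnA : n ≤ A * M := by rw [hn, hA, hp]; exact le_of_eq (by ring)
  have hpR : (1 : ℝ) ≤ p := by exact_mod_cast (by omega : 1 ≤ p)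
  have hlR : (l : ℝ) + 1 ≤ p := by exact_mod_cast hlp
  have hl0 : (0 : ℝ) ≤ l := Nat.cast_nonneg _
  have hbpos : (0 : ℝ) < 2 * (β : ℝ) + 1 := by positivity
  set W : ℝ := (2 * (β : ℝ) + 1) ^ (4 * n) * ((6 * p) * ((23 * (A : ℝ) ^ 2) ^ n * Real.exp M))
    with hW
  have hW0 : 0 ≤ W := by positivity
  -- the kernels to the left
  have h1 : ∀ k ∈ Icc 1 ((2 * β + 1) * l),
      |PowerSeries.coeff m (loc ℝ l (ddq κ ((k : ℝ) / (2 * (β : ℝ) + 1) - l)
        (wP ℝ M p n β κ j)))| ≤ W := by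
    intro k hk
    rw [mem_Icc] at hk
    have hk1 : (k : ℝ) ≤ (2 * (β : ℝ) + 1) * l := by exact_mod_cast hk.2
    have hk2 : (k : ℝ) / (2 * (β : ℝ) + 1) ≤ l := by
      rw [div_le_iff₀ hbpos]; linarith
    have hk3 : 0 ≤ (k : ℝ) / (2 * (β : ℝ) + 1) := by positivity
    refine bdg_row M p n A β κ j l _ hMpos (by omega) hn4 hnA hA1 hj.le ?_ ?_ m
    · rw [abs_le]; constructor <;> linarith
    · rw [abs_of_nonneg (by linarith)]; linarith
  have h2 : ∀ k ∈ Icc 1 ((2 * β + 1) * (2 * p - 1 - l)),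
      |PowerSeries.coeff m (loc ℝ l (ddq κ (-(k : ℝ) / (2 * (β : ℝ) + 1) - l)
        (wP ℝ M p n β κ j)))| ≤ W := by
    intro k hk
    rw [mem_Icc] at hk
    have hcast : ((2 * p - 1 - l : ℕ) : ℝ) = 2 * p - 1 - l := by
      rw [Nat.cast_sub (by omega), Nat.cast_sub (by omega)]
      push_cast
      ring
    have hk1 : (k : ℝ) ≤ (2 * (β : ℝ) + 1) * (2 * p - 1 - l) := by
      rw [← hcast]; exact_mod_cast hk.2
    have hk2 : (k : ℝ) / (2 * (β : ℝ) + 1) ≤ 2 * p - 1 - l := by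
      rw [div_le_iff₀ hbpos]; linarith
    have hk3 : 0 ≤ (k : ℝ) / (2 * (β : ℝ) + 1) := by positivity
    have hneg : -(k : ℝ) / (2 * (β : ℝ) + 1) = -((k : ℝ) / (2 * (β : ℝ) + 1)) := neg_div _ _
    rw [hneg]
    refine bdg_row M p n A β κ j l _ hMpos (by omega) hn4 hnA hA1 hj.le ?_ ?_ m
    · rw [abs_le]; constructor <;> linarith
    · rw [abs_of_nonpos (by linarith)]; linarith
  have hsum : |PowerSeries.coeff m (gW ℝ M p n β κ j l)| ≤ n * W := by
    rw [gW, PowerSeries.coeff_C_mul, abs_mul, abs_pow, abs_neg, abs_one, one_pow, one_mul,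
      map_sub, map_sum, map_sum]
    refine (abs_sub _ _).trans ?_
    have e1 := (abs_sum_le_sum_abs _ _).trans (sum_le_sum h1)
    have e2 := (abs_sum_le_sum_abs _ _).trans (sum_le_sum h2)
    rw [sum_const, Nat.card_Icc, nsmul_eq_mul] at e1 e2
    refine (add_le_add e1 e2).trans ?_
    rw [← add_mul]
    refine mul_le_mul_of_nonneg_right ?_ hW0
    have e3 : (2 * β + 1) * l + 1 - 1 + ((2 * β + 1) * (2 * p - 1 - l) + 1 - 1) ≤ n := by
      rw [Nat.add_sub_cancel, Nat.add_sub_cancel, ← Nat.mul_add]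
      have e4 : l + (2 * p - 1 - l) ≤ 2 * p := by omega
      have e5 : 2 * β + 1 ≤ 2 * H := by omega
      calc (2 * β + 1) * (l + (2 * p - 1 - l)) ≤ (2 * H) * (2 * p) := Nat.mul_le_mul e5 e4
        _ = n := by rw [hn]; ring
    exact_mod_cast e3
  refine hsum.trans ?_
  have hAx : (A : ℝ) = 4 * ((H : ℝ) * (a + S + 1)) := by rw [hA]; push_cast; ring
  have hHR : (1 : ℝ) ≤ H := by exact_mod_cast hH
  have haR : (1 : ℝ) ≤ a := by exact_mod_cast ha
  have hSR : (0 : ℝ) ≤ S := Nat.cast_nonneg _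
  set x : ℝ := (H : ℝ) * (a + S + 1) with hx
  have hx1 : 1 ≤ x := by rw [hx]; nlinarith
  have hHx : (H : ℝ) ≤ x := by rw [hx]; nlinarith
  have hb : (2 * (β : ℝ) + 1) ≤ 2 * x := by
    have : 2 * β + 1 ≤ 2 * H := by omega
    have h3 : (2 * (β : ℝ) + 1) ≤ 2 * H := by exact_mod_cast this
    linarith
  have hb4 : (2 * (β : ℝ) + 1) ^ (4 * n) ≤ (16 * x ^ 4) ^ n := by
    rw [pow_mul]
    refine pow_le_pow_left₀ (by positivity) ?_ n
    calc (2 * (β : ℝ) + 1) ^ 4 ≤ (2 * x) ^ 4 := pow_le_pow_left₀ hbpos.le hb 4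
      _ = 16 * x ^ 4 := by ring
  have hn2 : (n : ℝ) ≤ 2 ^ n := by exact_mod_cast (Nat.lt_two_pow_self (n := n)).le
  have hn0 : (0 : ℝ) ≤ n := Nat.cast_nonneg _
  have hp6 : 6 * (p : ℝ) ≤ 4 ^ n := by
    have e1 : 4 * (p : ℝ) ≤ n := by exact_mod_cast hn4
    have e2 : (4 : ℝ) ^ n = 2 ^ n * 2 ^ n := by rw [← mul_pow]; norm_num
    have e3 : (2 : ℝ) ≤ 2 ^ n := by
      calc (2 : ℝ) = 2 ^ 1 := by norm_num
        _ ≤ 2 ^ n := pow_le_pow_right₀ (by norm_num) (by omega)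
    rw [e2]
    nlinarith
  have hexp : Real.exp M ≤ (3 : ℝ) ^ n := by
    have e1 : Real.exp (M : ℝ) ≤ Real.exp (n : ℝ) := by
      apply Real.exp_le_exp.2
      exact_mod_cast (by omega : M ≤ n)
    have e2 : Real.exp (n : ℝ) = Real.exp 1 ^ n := by
      rw [← Real.exp_nat_mul]; congr 1; ring
    rw [e2] at e1
    refine e1.trans (pow_le_pow_left₀ (Real.exp_pos _).le ?_ n)
    have := Real.exp_one_lt_d9
    linarith
  calc (n : ℝ) * W ≤ 2 ^ n * ((16 * x ^ 4) ^ n * (4 ^ n * ((23 * (A : ℝ) ^ 2) ^ n * 3 ^ n))) := by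
        rw [hW]
        gcongr
    _ = (2 * (16 * x ^ 4 * (4 * (23 * (A : ℝ) ^ 2 * 3)))) ^ n := by
        simp only [mul_pow]
    _ ≤ ((1000 * x) ^ 20) ^ n := by
        refine pow_le_pow_left₀ (by positivity) ?_ n
        rw [hAx]
        have e6 : x ^ 6 ≤ x ^ 20 := pow_le_pow_right₀ hx1 (by norm_num)
        have e7 : 2 * (16 * x ^ 4 * (4 * (23 * (4 * x) ^ 2 * 3))) = 141312 * x ^ 6 := by ring
        rw [e7, mul_pow 1000 x 20]
        calc 141312 * x ^ 6 ≤ 1000 ^ 20 * x ^ 6 := by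
              apply mul_le_mul_of_nonneg_right (by norm_num) (by positivity)
          _ ≤ 1000 ^ 20 * x ^ 20 := by
              apply mul_le_mul_of_nonneg_left e6 (by positivity)
    _ = (1000 * (H : ℝ) * (a + S + 1)) ^ (20 * n) := by
        rw [← pow_mul, hx]
        congr 1
        ring

end Pool.Agent.DW
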