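import Pool.Agent.DW.FAR
import Pool.Agent.DM.BDS

/-!
# DW: bound of the series coefficients

`farS p β q ≤ 2 (2β+1) (4p)^(2-q)`-type bound (`q ≥ 2`, `w0 ≥ 4p`); `∑_i |(Cn_j)_i| (4p)^(2i) ≤
∏_{k<j} ((4p)^2 + (2k+1)^2) / (4^j bf M (2j))`; `|coeff m (yl^ν)| ≤ C(2ν, m) 2^m (2p)^(2ν)`;
the ratio per step is `1/4` times polynomial factors `((n+κ')/n)^(S+a)`.
-/

namespace Pool.Agent.DW

open Finset Polynomial Pool.Agent.ZC Pool.Agent.SI Pool.Agent.DM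

theorem farS_nonneg (p β q : ℕ) : 0 ≤ farS p β q :=
  tsum_nonneg fun k => by positivity

/-- power sums over the far positions -/
theorem farS_le (p β q : ℕ) (hp : 1 ≤ p) :
    farS p β (q + 2) * (4 * (p : ℝ)) ^ q ≤ (2 * (β : ℝ) + 1) ^ 2 := by
  have hpR : (1 : ℝ) ≤ p := by exact_mod_cast hp
  unfold farS
  set b : ℝ := 2 * (β : ℝ) + 1 with hb
  have hb1 : 1 ≤ b := by
    have : (0 : ℝ) ≤ β := by positivity
    rw [hb]; linarith
  have hb0 : 0 < b := by linarith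
  have hbp : 1 ≤ b * p := by nlinarith
  have hterm : ∀ k : ℕ, ‖1 / (((2 * ((k : ℝ) + 2 * b * p) + 1) / b) ^ (q + 2))‖ ≤
      (b ^ 2 / (4 * (4 * (p : ℝ)) ^ q)) * (1 / ((k : ℝ) + 1) ^ 2) := by
    intro k
    set w := (2 * ((k : ℝ) + 2 * b * p) + 1) / b with hw
    have hk : (0 : ℝ) ≤ k := by positivity
    have hw1 : 4 * (p : ℝ) ≤ w := by
      rw [hw, le_div_iff₀ hb0]; nlinarith
    have hw2 : 2 * ((k : ℝ) + 1) / b ≤ w := by
      rw [hw]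
      apply div_le_div_of_nonneg_right _ hb0.le
      nlinarith
    have hw0 : 0 < w := by linarith
    rw [Real.norm_eq_abs, abs_of_pos (by positivity)]
    have h1 : (4 * (p : ℝ)) ^ q ≤ w ^ q := pow_le_pow_left₀ (by positivity) hw1 q
    have h2 : (2 * ((k : ℝ) + 1) / b) ^ 2 ≤ w ^ 2 := pow_le_pow_left₀ (by positivity) hw2 2
    have h3 : (4 * (p : ℝ)) ^ q * (2 * ((k : ℝ) + 1) / b) ^ 2 ≤ w ^ (q + 2) := by
      rw [pow_add]
      exact mul_le_mul h1 h2 (by positivity) (by positivity)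
    calc 1 / w ^ (q + 2) ≤ 1 / ((4 * (p : ℝ)) ^ q * (2 * ((k : ℝ) + 1) / b) ^ 2) :=
          one_div_le_one_div_of_le (by positivity) h3
      _ = (b ^ 2 / (4 * (4 * (p : ℝ)) ^ q)) * (1 / ((k : ℝ) + 1) ^ 2) := by
          field_simp
          ring
  have hsum := hasSum_inv_sq.mul_left (b ^ 2 / (4 * (4 * (p : ℝ)) ^ q))
  have h4 := tsum_of_norm_bounded hsum hterm
  rw [Real.norm_eq_abs] at h4
  have h5 := (le_abs_self _).trans h4
  have hpi : Real.pi ^ 2 / 6 ≤ 2 := by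
    have h1 := Real.pi_lt_d2
    have h2 := Real.pi_pos
    nlinarith
  have hT : 0 < (4 * (p : ℝ)) ^ q := by positivity
  calc (∑' k : ℕ, 1 / (((2 * ((k : ℝ) + 2 * b * p) + 1) / b) ^ (q + 2))) * (4 * (p : ℝ)) ^ q
      ≤ ((b ^ 2 / (4 * (4 * (p : ℝ)) ^ q)) * (Real.pi ^ 2 / 6)) * (4 * (p : ℝ)) ^ q :=
        mul_le_mul_of_nonneg_right h5 hT.le
    _ = b ^ 2 * (Real.pi ^ 2 / 6) / 4 := by
        field_simp
    _ ≤ b ^ 2 := by
        have : 0 < b ^ 2 := by positivity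
        nlinarith

theorem cp_abs_sum (j : ℕ) (t : ℝ) (ht : 0 ≤ t) :
    ∑ i ∈ range (j + 1), |(Cp ℝ j).coeff i| * t ^ i ≤
      ∏ k ∈ range j, (t + (2 * (k : ℝ) + 1) ^ 2) := by
  induction j with
  | zero => simp [Cp]
  | succ j ih =>
    have hC : Cp ℝ (j + 1) = Cp ℝ j * (X - C ((2 * (j : ℝ) + 1) ^ 2)) := by
      rw [Cp, Cp, prod_range_succ]
    rw [prod_range_succ, hC]
    set c : ℝ := (2 * (j : ℝ) + 1) ^ 2 with hc
    have hc0 : 0 ≤ c := by positivity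
    have hdeg : (Cp ℝ j).coeff (j + 1) = 0 :=
      coeff_eq_zero_of_natDegree_lt (by rw [Cp_natDegree]; omega)
    rw [sum_range_succ']
    have e0 : (Cp ℝ j * (X - C c)).coeff 0 = -(c * (Cp ℝ j).coeff 0) := by
      rw [mul_coeff_zero, coeff_sub, coeff_X_zero, coeff_C_zero]
      ring
    have e1 : ∀ i, (Cp ℝ j * (X - C c)).coeff (i + 1) =
        (Cp ℝ j).coeff i - (Cp ℝ j).coeff (i + 1) * c := fun i => coeff_mul_X_sub_C
    have h1 : ∑ i ∈ range (j + 1), |(Cp ℝ j * (X - C c)).coeff (i + 1)| * t ^ (i + 1) ≤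
        t * ∑ i ∈ range (j + 1), |(Cp ℝ j).coeff i| * t ^ i +
        c * ∑ i ∈ range (j + 1), |(Cp ℝ j).coeff (i + 1)| * t ^ (i + 1) := by
      rw [mul_sum, mul_sum, ← sum_add_distrib]
      refine sum_le_sum fun i _ => ?_
      rw [e1]
      have h2 : |(Cp ℝ j).coeff i - (Cp ℝ j).coeff (i + 1) * c| ≤
          |(Cp ℝ j).coeff i| + |(Cp ℝ j).coeff (i + 1)| * c := by
        refine (abs_sub _ _).trans ?_
        rw [abs_mul, abs_of_nonneg hc0]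
      have h3 : 0 ≤ t ^ (i + 1) := by positivity
      calc |(Cp ℝ j).coeff i - (Cp ℝ j).coeff (i + 1) * c| * t ^ (i + 1)
          ≤ (|(Cp ℝ j).coeff i| + |(Cp ℝ j).coeff (i + 1)| * c) * t ^ (i + 1) :=
            mul_le_mul_of_nonneg_right h2 h3
        _ = t * (|(Cp ℝ j).coeff i| * t ^ i) +
            c * (|(Cp ℝ j).coeff (i + 1)| * t ^ (i + 1)) := by ring
    have h4 : ∑ i ∈ range (j + 1), |(Cp ℝ j).coeff i| * t ^ i =
        ∑ i ∈ range (j + 1), |(Cp ℝ j).coeff (i + 1)| * t ^ (i + 1) +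
          |(Cp ℝ j).coeff 0| * t ^ 0 := by
      rw [← sum_range_succ' (fun i => |(Cp ℝ j).coeff i| * t ^ i) (j + 1),
        sum_range_succ _ (j + 1), hdeg]
      simp
    have h5 : |(Cp ℝ j * (X - C c)).coeff 0| * t ^ 0 = c * (|(Cp ℝ j).coeff 0| * t ^ 0) := by
      rw [e0, abs_neg, abs_mul, abs_of_nonneg hc0]
      ring
    rw [h5]
    calc ∑ i ∈ range (j + 1), |(Cp ℝ j * (X - C c)).coeff (i + 1)| * t ^ (i + 1) +
          c * (|(Cp ℝ j).coeff 0| * t ^ 0)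
        ≤ (t * ∑ i ∈ range (j + 1), |(Cp ℝ j).coeff i| * t ^ i +
          c * ∑ i ∈ range (j + 1), |(Cp ℝ j).coeff (i + 1)| * t ^ (i + 1)) +
          c * (|(Cp ℝ j).coeff 0| * t ^ 0) := by linarith
      _ = (∑ i ∈ range (j + 1), |(Cp ℝ j).coeff i| * t ^ i) * (t + c) := by
          have : c * ∑ i ∈ range (j + 1), |(Cp ℝ j).coeff i| * t ^ i =
              c * ∑ i ∈ range (j + 1), |(Cp ℝ j).coeff (i + 1)| * t ^ (i + 1) +
              c * (|(Cp ℝ j).coeff 0| * t ^ 0) := by rw [h4]; ring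
          linarith
      _ ≤ (∏ k ∈ range j, (t + (2 * (k : ℝ) + 1) ^ 2)) * (t + c) :=
          mul_le_mul_of_nonneg_right ih (by positivity)

theorem cn_abs_sum (M j : ℕ) (t : ℝ) (ht : 0 ≤ t) :
    ∑ i ∈ range (j + 1), |(Cn ℝ M j).coeff i| * t ^ i ≤
      (((4 ^ j * bf M (2 * j) : ℕ) : ℝ))⁻¹ * ∏ k ∈ range j, (t + (2 * (k : ℝ) + 1) ^ 2) := by
  have h0 : (0 : ℝ) ≤ (((4 ^ j * bf M (2 * j) : ℕ) : ℝ))⁻¹ := by positivity
  have h1 : ∀ i, |(Cn ℝ M j).coeff i| * t ^ i =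
      (((4 ^ j * bf M (2 * j) : ℕ) : ℝ))⁻¹ * (|(Cp ℝ j).coeff i| * t ^ i) := by
    intro i
    rw [Cn, coeff_C_mul, abs_mul, abs_of_nonneg h0]
    ring
  simp only [h1]
  rw [← mul_sum]
  exact mul_le_mul_of_nonneg_left (cp_abs_sum j t ht) h0

theorem bdl_choose (m r : ℕ) (x : ℝ) (hx : 0 < x) :
    (m.choose r : ℝ) ≤ (1 + x) ^ m * (1 / x) ^ r := by
  rcases Nat.lt_or_ge m r with h | h
  · rw [Nat.choose_eq_zero_of_lt h]
    push_cast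
    positivity
  · have h1 : x ^ r * 1 ^ (m - r) * (m.choose r : ℝ) ≤ (x + 1) ^ m := by
      rw [add_pow]
      exact single_le_sum (f := fun i => x ^ i * 1 ^ (m - i) * (m.choose i : ℝ))
        (fun i _ => by positivity) (mem_range.2 (by omega))
    rw [one_pow, mul_one] at h1
    rw [one_div, inv_pow, ← div_eq_mul_inv, le_div_iff₀ (by positivity)]
    calc (m.choose r : ℝ) * x ^ r = x ^ r * (m.choose r : ℝ) := by ring
      _ ≤ (x + 1) ^ m := h1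
      _ = (1 + x) ^ m := by rw [add_comm]

/-- sum of the absolute coefficients of `Cn` at `T^2`, `T = 4p ≤ n` -/
theorem bdl_cn (M H q j : ℕ) (hM : 1 ≤ M) (hH : 1 ≤ H) (hq : 1 ≤ q)
    (hj : j < 4 * H * (q * M)) :
    ∑ i ∈ range (j + 1), |(Cn ℝ M j).coeff i| * ((4 * ((q * M : ℕ) : ℝ)) ^ 2) ^ i ≤
      (801 * (H : ℝ) ^ 2 * (q : ℝ) ^ 2) ^ (4 * H * (q * M)) := by
  set n := 4 * H * (q * M) with hn
  have hMR : (1 : ℝ) ≤ M := by exact_mod_cast hM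
  have hHR : (1 : ℝ) ≤ H := by exact_mod_cast hH
  have hqR : (1 : ℝ) ≤ q := by exact_mod_cast hq
  have hM0 : (0 : ℝ) < M := by linarith
  set T : ℝ := 4 * ((q * M : ℕ) : ℝ) with hT
  have hnR : (n : ℝ) = 4 * H * (q * M) := by rw [hn]; push_cast; ring
  have hTn : T ≤ n := by
    rw [hT, hnR]; push_cast
    have : 0 ≤ (q : ℝ) * M := by positivity
    nlinarith
  have hT0 : 0 ≤ T := by positivity
  refine (cn_abs_sum M j (T ^ 2) (by positivity)).trans ?_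
  have h1 : ∏ k ∈ range j, (T ^ 2 + (2 * (k : ℝ) + 1) ^ 2) ≤ ((3 * (n : ℝ)) ^ 2) ^ j := by
    have h2 : ((3 * (n : ℝ)) ^ 2) ^ j = ∏ _k ∈ range j, (3 * (n : ℝ)) ^ 2 := by
      rw [prod_const, card_range]
    rw [h2]
    apply prod_le_prod
    · intro k _; positivity
    · intro k hk
      rw [mem_range] at hk
      have h3 : 2 * (k : ℝ) + 1 ≤ 2 * n := by
        have : 2 * k + 1 ≤ 2 * n := by omega
        exact_mod_cast this
      have h4 : (2 * (k : ℝ) + 1) ^ 2 ≤ (2 * (n : ℝ)) ^ 2 :=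
        pow_le_pow_left₀ (by positivity) h3 2
      have h5 : T ^ 2 ≤ (n : ℝ) ^ 2 := pow_le_pow_left₀ hT0 hTn 2
      nlinarith [sq_nonneg (n : ℝ)]
  have h6 := div_bf_le (show 0 < M by omega) j (3 * (n : ℝ))
  have h7 : (3 * (n : ℝ) * Real.exp 1 / (2 * M)) ^ 2 ≤ 267 * (H : ℝ) ^ 2 * (q : ℝ) ^ 2 := by
    have e : 3 * (n : ℝ) * Real.exp 1 / (2 * M) = 6 * H * q * Real.exp 1 := by
      rw [hnR]; field_simp; ring
    rw [e]
    have h8 : Real.exp 1 ^ 2 ≤ 267 / 36 := by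
      have := Real.exp_one_lt_d9
      have h4 := Real.exp_pos 1
      nlinarith
    have e2 : (6 * (H : ℝ) * q * Real.exp 1) ^ 2 =
        36 * ((H : ℝ) ^ 2 * (q : ℝ) ^ 2) * Real.exp 1 ^ 2 := by ring
    rw [e2]
    have h9 : 0 ≤ 36 * ((H : ℝ) ^ 2 * (q : ℝ) ^ 2) := by positivity
    calc 36 * ((H : ℝ) ^ 2 * (q : ℝ) ^ 2) * Real.exp 1 ^ 2
        ≤ 36 * ((H : ℝ) ^ 2 * (q : ℝ) ^ 2) * (267 / 36) := mul_le_mul_of_nonneg_left h8 h9
      _ = 267 * (H : ℝ) ^ 2 * (q : ℝ) ^ 2 := by ring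
  have hD1 : 1 ≤ 267 * (H : ℝ) ^ 2 * (q : ℝ) ^ 2 := by
    have h1 : 1 ≤ (H : ℝ) ^ 2 := one_le_pow₀ hHR
    have h2 : 1 ≤ (q : ℝ) ^ 2 := one_le_pow₀ hqR
    nlinarith
  have hexp : Real.exp M ≤ (3 : ℝ) ^ n := by
    have h1 : Real.exp (M : ℝ) = Real.exp 1 ^ M := by
      rw [← Real.exp_nat_mul]; simp
    have h2 : Real.exp 1 ≤ 3 := by
      have := Real.exp_one_lt_d9
      linarith
    rw [h1]
    calc Real.exp 1 ^ M ≤ (3 : ℝ) ^ M := pow_le_pow_left₀ (Real.exp_pos 1).le h2 M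
      _ ≤ (3 : ℝ) ^ n := by
        apply pow_le_pow_right₀ (by norm_num)
        rw [hn]
        calc M = 1 * (1 * M) := by ring
          _ ≤ 4 * H * (q * M) :=
            Nat.mul_le_mul (by omega) (Nat.mul_le_mul_right _ hq)
  have h0 : (0 : ℝ) ≤ (((4 ^ j * bf M (2 * j) : ℕ) : ℝ))⁻¹ := by positivity
  calc (((4 ^ j * bf M (2 * j) : ℕ) : ℝ))⁻¹ * ∏ k ∈ range j, (T ^ 2 + (2 * (k : ℝ) + 1) ^ 2)
      ≤ (((4 ^ j * bf M (2 * j) : ℕ) : ℝ))⁻¹ * ((3 * (n : ℝ)) ^ 2) ^ j :=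
        mul_le_mul_of_nonneg_left h1 h0
    _ ≤ ((3 * (n : ℝ) * Real.exp 1 / (2 * M)) ^ 2) ^ j * Real.exp M := h6
    _ ≤ (267 * (H : ℝ) ^ 2 * (q : ℝ) ^ 2) ^ n * (3 : ℝ) ^ n := by
        apply mul_le_mul _ hexp (Real.exp_pos _).le (by positivity)
        calc ((3 * (n : ℝ) * Real.exp 1 / (2 * M)) ^ 2) ^ j
            ≤ (267 * (H : ℝ) ^ 2 * (q : ℝ) ^ 2) ^ j :=
              pow_le_pow_left₀ (by positivity) h7 j
          _ ≤ (267 * (H : ℝ) ^ 2 * (q : ℝ) ^ 2) ^ n := pow_le_pow_right₀ hD1 hj.le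
    _ = (801 * (H : ℝ) ^ 2 * (q : ℝ) ^ 2) ^ n := by
        rw [← mul_pow]; congr 1; ring

/-- the inner sum of `lamW` -/
theorem bdl_inner (M H q S : ℕ) (hM : 1 ≤ M) (hH : 1 ≤ H) (hq : 1 ≤ q) (hS : S ≤ q)
    (β : ℕ) (hβ : β < H) (κ : ℕ) (hκS : κ ≤ S) (hκ : 1 ≤ κ) (j : ℕ)
    (hj : j < 4 * H * (q * M)) (κ' : ℕ) :
    |∑ i ∈ range (j + 1), (Cn ℝ M j).coeff i *
      (2 ^ (κ + 2) * ((κ + κ % 2 +
        2 * (4 * H * (q * M) + κ' - κ % 2 - i)).choose κ : ℝ) *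
      farS (q * M) β (κ + 1 + κ % 2 + 2 * (4 * H * (q * M) + κ' - κ % 2 - i)))| *
      (4 * ((q * M : ℕ) : ℝ)) ^ (2 * (4 * H * (q * M) + κ')) ≤
      (801 * (H : ℝ) ^ 2 * (q : ℝ) ^ 2) ^ (4 * H * (q * M)) *
        ((37 : ℝ) ^ (4 * H * (q * M)) * (16 / 15 : ℝ) ^ (2 * κ')) *
        (64 * (H : ℝ) ^ 2 * ((q * M : ℕ) : ℝ)) := by
  set n := 4 * H * (q * M) with hn
  have hpn : 4 * (q * M) ≤ n := by rw [hn]; nlinarith [Nat.zero_le (q * M)]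
  have hqM : q ≤ q * M := Nat.le_mul_of_pos_right q (by omega)
  have hp1 : 1 ≤ q * M := by omega
  have hκn : κ ≤ n := by omega
  set p := q * M with hp
  have hpR : (1 : ℝ) ≤ p := by exact_mod_cast hp1
  set T : ℝ := 4 * (p : ℝ) with hT
  have hT1 : 1 ≤ T := by rw [hT]; linarith
  have hT0 : 0 < T := by linarith
  set E : ℝ := 4 * ((37 : ℝ) ^ n * (16 / 15 : ℝ) ^ (2 * κ')) * ((2 * (β : ℝ) + 1) ^ 2 * T)
    with hE
  have hE0 : 0 ≤ E := by positivity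
  have hterm : ∀ i ∈ range (j + 1), |(Cn ℝ M j).coeff i *
      (2 ^ (κ + 2) * ((κ + κ % 2 + 2 * (n + κ' - κ % 2 - i)).choose κ : ℝ) *
      farS p β (κ + 1 + κ % 2 + 2 * (n + κ' - κ % 2 - i)))| * T ^ (2 * (n + κ')) ≤
      (|(Cn ℝ M j).coeff i| * (T ^ 2) ^ i) * E := by
    intro i hi
    rw [mem_range] at hi
    have hmod : κ % 2 < 2 := Nat.mod_lt _ (by norm_num)
    obtain ⟨e, he⟩ : ∃ e, e = n + κ' - κ % 2 - i := ⟨_, rfl⟩
    have he2 : e + κ % 2 + i = n + κ' := by omega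
    rw [← he]
    -- far power sum
    obtain ⟨Q, hQ⟩ : ∃ Q, κ + 1 + κ % 2 + 2 * e = Q + 2 := ⟨κ + 1 + κ % 2 + 2 * e - 2, by omega⟩
    rw [hQ]
    have hf := farS_le p β Q hp1
    rw [← hT] at hf
    have hfn := farS_nonneg p β (Q + 2)
    have hexp : 2 * (n + κ') ≤ Q + 2 * i + 1 := by omega
    have hTT : T ^ (2 * (n + κ')) ≤ T ^ Q * (T ^ 2) ^ i * T := by
      calc T ^ (2 * (n + κ')) ≤ T ^ (Q + 2 * i + 1) := pow_le_pow_right₀ hT1 hexp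
        _ = T ^ Q * (T ^ 2) ^ i * T := by rw [pow_add, pow_add, pow_mul, pow_one]
    -- binomial
    have hch := bdl_choose (κ + κ % 2 + 2 * e) κ (1 / 15) (by norm_num)
    have hbin : 2 ^ (κ + 2) * ((κ + κ % 2 + 2 * e).choose κ : ℝ) ≤
        4 * ((37 : ℝ) ^ n * (16 / 15 : ℝ) ^ (2 * κ')) := by
      have e1 : (1 + (1 : ℝ) / 15) ^ (κ + κ % 2 + 2 * e) ≤
          (16 / 15 : ℝ) ^ (3 * n) * (16 / 15 : ℝ) ^ (2 * κ') := by
        rw [← pow_add, show (1 : ℝ) + 1 / 15 = 16 / 15 by norm_num]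
        exact pow_le_pow_right₀ (by norm_num) (by omega)
      have e2 : ((1 : ℝ) / (1 / 15)) ^ κ * 2 ^ κ ≤ (30 : ℝ) ^ n := by
        rw [← mul_pow, show (1 : ℝ) / (1 / 15) * 2 = 30 by norm_num]
        exact pow_le_pow_right₀ (by norm_num) hκn
      calc 2 ^ (κ + 2) * ((κ + κ % 2 + 2 * e).choose κ : ℝ)
          ≤ 2 ^ (κ + 2) * ((1 + (1 : ℝ) / 15) ^ (κ + κ % 2 + 2 * e) * (1 / (1 / 15)) ^ κ) :=
            mul_le_mul_of_nonneg_left hch (by positivity)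
        _ = 4 * ((1 + (1 : ℝ) / 15) ^ (κ + κ % 2 + 2 * e) * ((1 / (1 / 15)) ^ κ * 2 ^ κ)) := by
            ring
        _ ≤ 4 * (((16 / 15 : ℝ) ^ (3 * n) * (16 / 15 : ℝ) ^ (2 * κ')) * (30 : ℝ) ^ n) := by
            apply mul_le_mul_of_nonneg_left _ (by norm_num)
            exact mul_le_mul e1 e2 (by positivity) (by positivity)
        _ = 4 * ((((16 / 15 : ℝ) ^ 3) ^ n * (30 : ℝ) ^ n) * (16 / 15 : ℝ) ^ (2 * κ')) := by
            rw [← pow_mul]; ring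
        _ ≤ 4 * ((37 : ℝ) ^ n * (16 / 15 : ℝ) ^ (2 * κ')) := by
            apply mul_le_mul_of_nonneg_left _ (by norm_num)
            apply mul_le_mul_of_nonneg_right _ (by positivity)
            rw [← mul_pow]
            exact pow_le_pow_left₀ (by positivity) (by norm_num) n
    have hb0 : (0 : ℝ) ≤ 2 ^ (κ + 2) * ((κ + κ % 2 + 2 * e).choose κ : ℝ) := by positivity
    rw [abs_mul, abs_mul _ (farS p β (Q + 2)), abs_of_nonneg hb0, abs_of_nonneg hfn]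
    calc |(Cn ℝ M j).coeff i| * (2 ^ (κ + 2) * ((κ + κ % 2 + 2 * e).choose κ : ℝ) *
          farS p β (Q + 2)) * T ^ (2 * (n + κ'))
        ≤ |(Cn ℝ M j).coeff i| * (2 ^ (κ + 2) * ((κ + κ % 2 + 2 * e).choose κ : ℝ) *
          farS p β (Q + 2)) * (T ^ Q * (T ^ 2) ^ i * T) := by
          apply mul_le_mul_of_nonneg_left hTT (by positivity)
      _ = (|(Cn ℝ M j).coeff i| * (T ^ 2) ^ i) *
          ((2 ^ (κ + 2) * ((κ + κ % 2 + 2 * e).choose κ : ℝ)) *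
          ((farS p β (Q + 2) * T ^ Q) * T)) := by ring
      _ ≤ (|(Cn ℝ M j).coeff i| * (T ^ 2) ^ i) *
          ((4 * ((37 : ℝ) ^ n * (16 / 15 : ℝ) ^ (2 * κ'))) *
          ((2 * (β : ℝ) + 1) ^ 2 * T)) := by
          apply mul_le_mul_of_nonneg_left _ (by positivity)
          apply mul_le_mul hbin _ (by positivity) (by positivity)
          exact mul_le_mul_of_nonneg_right hf hT0.le
      _ = (|(Cn ℝ M j).coeff i| * (T ^ 2) ^ i) * E := by rw [hE]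
  have hcn := bdl_cn M H q j hM hH hq hj
  rw [← hn, ← hp, ← hT] at hcn
  have hEle : E ≤ ((37 : ℝ) ^ n * (16 / 15 : ℝ) ^ (2 * κ')) *
      (64 * (H : ℝ) ^ 2 * (p : ℝ)) := by
    have hbH : 2 * (β : ℝ) + 1 ≤ 2 * H := by
      have : 2 * β + 1 ≤ 2 * H := by omega
      exact_mod_cast this
    have h1 : (2 * (β : ℝ) + 1) ^ 2 ≤ (2 * (H : ℝ)) ^ 2 :=
      pow_le_pow_left₀ (by positivity) hbH 2
    have h2 : (0 : ℝ) ≤ (37 : ℝ) ^ n * (16 / 15 : ℝ) ^ (2 * κ') := by positivity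
    calc E = ((37 : ℝ) ^ n * (16 / 15 : ℝ) ^ (2 * κ')) *
          (16 * (p : ℝ) * (2 * (β : ℝ) + 1) ^ 2) := by rw [hE, hT]; ring
      _ ≤ ((37 : ℝ) ^ n * (16 / 15 : ℝ) ^ (2 * κ')) *
          (16 * (p : ℝ) * (2 * (H : ℝ)) ^ 2) := by
          apply mul_le_mul_of_nonneg_left _ h2
          exact mul_le_mul_of_nonneg_left h1 (by positivity)
      _ = _ := by ring
  calc |∑ i ∈ range (j + 1), (Cn ℝ M j).coeff i *
      (2 ^ (κ + 2) * ((κ + κ % 2 + 2 * (n + κ' - κ % 2 - i)).choose κ : ℝ) *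
      farS p β (κ + 1 + κ % 2 + 2 * (n + κ' - κ % 2 - i)))| * T ^ (2 * (n + κ'))
      ≤ (∑ i ∈ range (j + 1), |(Cn ℝ M j).coeff i *
      (2 ^ (κ + 2) * ((κ + κ % 2 + 2 * (n + κ' - κ % 2 - i)).choose κ : ℝ) *
      farS p β (κ + 1 + κ % 2 + 2 * (n + κ' - κ % 2 - i)))|) * T ^ (2 * (n + κ')) :=
        mul_le_mul_of_nonneg_right (abs_sum_le_sum_abs _ _) (by positivity)
    _ = ∑ i ∈ range (j + 1), |(Cn ℝ M j).coeff i *
      (2 ^ (κ + 2) * ((κ + κ % 2 + 2 * (n + κ' - κ % 2 - i)).choose κ : ℝ) *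
      farS p β (κ + 1 + κ % 2 + 2 * (n + κ' - κ % 2 - i)))| * T ^ (2 * (n + κ')) :=
        sum_mul _ _ _
    _ ≤ ∑ i ∈ range (j + 1), (|(Cn ℝ M j).coeff i| * (T ^ 2) ^ i) * E := sum_le_sum hterm
    _ = (∑ i ∈ range (j + 1), |(Cn ℝ M j).coeff i| * (T ^ 2) ^ i) * E := (sum_mul _ _ _).symm
    _ ≤ (801 * (H : ℝ) ^ 2 * (q : ℝ) ^ 2) ^ n *
        (((37 : ℝ) ^ n * (16 / 15 : ℝ) ^ (2 * κ')) * (64 * (H : ℝ) ^ 2 * (p : ℝ))) :=
        mul_le_mul hcn hEle hE0 (by positivity)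
    _ = _ := by ring

theorem dw_bd_l (B H a S : ℕ) (hB : 1 ≤ B) (hBH : B ≤ H) (ha : 1 ≤ a) :
    ∃ M0 : ℕ, ∀ M ≥ M0, ∀ β < B, ∀ κ ≤ S, 1 ≤ κ → ∀ j < 4 * H * ((a + S + 1) * M),
      ∀ l < (a + S + 1) * M, ∀ m < a, ∀ κ' : ℕ,
      |lamW M ((a + S + 1) * M) (4 * H * ((a + S + 1) * M)) β κ j κ' *
        PowerSeries.coeff m (yl ℝ ((a + S + 1) * M) l ^ (4 * H * ((a + S + 1) * M) + κ'))| ≤
        (1000 * (H : ℝ) * (a + S + 1)) ^ (20 * (4 * H * ((a + S + 1) * M))) *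
          (4 / 5 : ℝ) ^ (2 * κ') := by
  refine ⟨1, fun M hM β hβ κ hκS hκ j hj l hl m _ κ' => ?_⟩
  have hM' : 1 ≤ M := hM
  have hH : 1 ≤ H := by omega
  obtain ⟨q, hq⟩ : ∃ q, q = a + S + 1 := ⟨_, rfl⟩
  have hqR : (a : ℝ) + S + 1 = q := by rw [hq]; push_cast; ring
  rw [hqR]
  rw [← hq] at hj hl ⊢
  have hin := bdl_inner M H q S hM' hH (by omega) (by omega) β (by omega) κ hκS hκ j hj κ'
  have hY := yl_pow_le (q * M) l hl (4 * H * (q * M) + κ') m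
  have hp1 : 1 ≤ q * M := by
    have : q ≤ q * M := Nat.le_mul_of_pos_right q (by omega)
    omega
  have hpn' : q * M ≤ 4 * H * (q * M) := by nlinarith [Nat.zero_le (q * M)]
  set p := q * M with hp
  set n := 4 * H * p with hn
  have hn1 : 1 ≤ n := by omega
  have hpR : (1 : ℝ) ≤ p := by exact_mod_cast hp1
  have hHR : (1 : ℝ) ≤ H := by exact_mod_cast hH
  have hq1 : (1 : ℝ) ≤ q := by
    have : 1 ≤ q := by omega
    exact_mod_cast this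
  set Y := PowerSeries.coeff m (yl ℝ p l ^ (n + κ')) with hYd
  set I := ∑ i ∈ range (j + 1), (Cn ℝ M j).coeff i *
      (2 ^ (κ + 2) * ((κ + κ % 2 + 2 * (n + κ' - κ % 2 - i)).choose κ : ℝ) *
      farS p β (κ + 1 + κ % 2 + 2 * (n + κ' - κ % 2 - i))) with hI
  have hlam : lamW M p n β κ j κ' = (2 * (β : ℝ) + 1) ^ (4 * n) * I := rfl
  rw [hlam, abs_mul, abs_mul, abs_of_nonneg (show (0 : ℝ) ≤ (2 * (β : ℝ) + 1) ^ (4 * n) by
    positivity)]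
  set T : ℝ := 4 * (p : ℝ) with hT
  have hT0 : 0 < T := by positivity
  -- ratio
  have hPT : (2 * (p : ℝ) + 1) ^ (2 * (n + κ')) ≤
      T ^ (2 * (n + κ')) * (3 / 4 : ℝ) ^ (2 * κ') := by
    have h1 : 2 * (p : ℝ) + 1 ≤ T * (3 / 4) := by rw [hT]; linarith
    calc (2 * (p : ℝ) + 1) ^ (2 * (n + κ')) ≤ (T * (3 / 4)) ^ (2 * (n + κ')) :=
          pow_le_pow_left₀ (by positivity) h1 _
      _ = T ^ (2 * (n + κ')) * (3 / 4 : ℝ) ^ (2 * (n + κ')) := mul_pow _ _ _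
      _ ≤ T ^ (2 * (n + κ')) * (3 / 4 : ℝ) ^ (2 * κ') := by
          apply mul_le_mul_of_nonneg_left _ (by positivity)
          exact pow_le_pow_of_le_one (by norm_num) (by norm_num) (by omega)
  have hbH : (2 * (β : ℝ) + 1) ^ (4 * n) ≤ (16 * (H : ℝ) ^ 4) ^ n := by
    have h0 : 2 * (β : ℝ) + 1 ≤ 2 * H := by
      have : 2 * β + 1 ≤ 2 * H := by omega
      exact_mod_cast this
    calc (2 * (β : ℝ) + 1) ^ (4 * n) ≤ (2 * (H : ℝ)) ^ (4 * n) :=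
          pow_le_pow_left₀ (by positivity) h0 _
      _ = (16 * (H : ℝ) ^ 4) ^ n := by
          rw [pow_mul]; congr 1; ring
  have h64 : 64 * (H : ℝ) ^ 2 * (p : ℝ) ≤ (128 * (H : ℝ) ^ 2) ^ n := by
    have h1 : (p : ℝ) ≤ 2 ^ n := by
      have h3 : p ≤ 2 ^ n := hpn'.trans (Nat.lt_two_pow_self (n := n)).le
      exact_mod_cast h3
    have h2 : 64 * (H : ℝ) ^ 2 ≤ (64 * (H : ℝ) ^ 2) ^ n := by
      have h3 : 1 ≤ 64 * (H : ℝ) ^ 2 := by nlinarith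
      calc 64 * (H : ℝ) ^ 2 = (64 * (H : ℝ) ^ 2) ^ 1 := by rw [pow_one]
        _ ≤ (64 * (H : ℝ) ^ 2) ^ n := pow_le_pow_right₀ h3 hn1
    calc 64 * (H : ℝ) ^ 2 * (p : ℝ) ≤ (64 * (H : ℝ) ^ 2) ^ n * 2 ^ n :=
          mul_le_mul h2 h1 (by positivity) (by positivity)
      _ = (128 * (H : ℝ) ^ 2) ^ n := by rw [← mul_pow]; congr 1; ring
  calc (2 * (β : ℝ) + 1) ^ (4 * n) * |I| * |Y|
      ≤ (2 * (β : ℝ) + 1) ^ (4 * n) * |I| * (T ^ (2 * (n + κ')) * (3 / 4 : ℝ) ^ (2 * κ')) :=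
        mul_le_mul_of_nonneg_left (hY.trans hPT) (by positivity)
    _ = (2 * (β : ℝ) + 1) ^ (4 * n) * ((|I| * T ^ (2 * (n + κ'))) * (3 / 4 : ℝ) ^ (2 * κ')) := by
        ring
    _ ≤ (16 * (H : ℝ) ^ 4) ^ n * (((801 * (H : ℝ) ^ 2 * (q : ℝ) ^ 2) ^ n *
        ((37 : ℝ) ^ n * (16 / 15 : ℝ) ^ (2 * κ')) *
        (128 * (H : ℝ) ^ 2) ^ n) * (3 / 4 : ℝ) ^ (2 * κ')) := by
        apply mul_le_mul hbH _ (by positivity) (by positivity)
        apply mul_le_mul_of_nonneg_right _ (by positivity)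
        exact hin.trans (mul_le_mul_of_nonneg_left h64 (by positivity))
    _ = (16 * (H : ℝ) ^ 4 * (801 * (H : ℝ) ^ 2 * (q : ℝ) ^ 2) * 37 * (128 * (H : ℝ) ^ 2)) ^ n *
        ((3 / 4 : ℝ) * (16 / 15)) ^ (2 * κ') := by
        simp only [mul_pow]; ring
    _ ≤ (1000 * (H : ℝ) * q) ^ (20 * n) * (4 / 5 : ℝ) ^ (2 * κ') := by
        rw [show (3 / 4 : ℝ) * (16 / 15) = 4 / 5 by norm_num, pow_mul (1000 * (H : ℝ) * q) 20 n]
        apply mul_le_mul_of_nonneg_right _ (by positivity)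
        apply pow_le_pow_left₀ (by positivity)
        have e1 : 16 * (H : ℝ) ^ 4 * (801 * (H : ℝ) ^ 2 * (q : ℝ) ^ 2) * 37 *
            (128 * (H : ℝ) ^ 2) = 60696576 * ((H : ℝ) ^ 8 * (q : ℝ) ^ 2) := by ring
        have e2 : (1000 * (H : ℝ) * q) ^ 20 =
            1000 ^ 20 * ((H : ℝ) ^ 20 * (q : ℝ) ^ 20) := by ring
        rw [e1, e2]
        apply mul_le_mul (by norm_num) _ (by positivity) (by positivity)
        apply mul_le_mul _ _ (by positivity) (by positivity)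
        · exact pow_le_pow_right₀ hHR (by norm_num)
        · exact pow_le_pow_right₀ hq1 (by norm_num)

end Pool.Agent.DW
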