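import Pool.Agent.DW.TAY
import Pool.Agent.DW.RAT
import Pool.Agent.ZC.ENT

/-!
# DW: integrality of the regular parts at the poles

`ddq_mul_lin` unrolled: `ddq κ t0 (rn a v) = ∑_{i<v} C ((D_κ (rn a i))(t0)) * rn (a+i+1) (v-1-i)`;
then `rat_run`, `int_run` and `bf_split`. For the factor `w = 2 X + (2p-1)` use `ddq_mul_lin` once
more.
-/

namespace Pool.Agent.DW

open Finset Polynomial Pool.Agent.ZC Pool.Agent.SI Pool.Agent.DM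

private theorem dqi_rn_zero (K : Type*) [Field K] (a : ℤ) : rn K a 0 = 1 := by simp [rn]

private theorem dqi_rn_succ (K : Type*) [Field K] (a : ℤ) (v : ℕ) :
    rn K a (v + 1) = rn K a v * (X - C ((a : K) + v)) := by
  simp [rn, prod_range_succ]

theorem ddq_rn {K : Type*} [Field K] (κ : ℕ) (t0 : K) (a : ℤ) (v : ℕ) :
    ddq κ t0 (rn K a v) = ∑ i ∈ range v,
      C ((hasseDeriv κ (rn K a i)).eval t0) * rn K (a + i + 1) (v - 1 - i) := by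
  induction v with
  | zero =>
    rw [dqi_rn_zero, range_zero, sum_empty]
    unfold ddq
    rw [natDegree_one, Icc_eq_empty (by omega), sum_empty]
  | succ v ih =>
    rw [dqi_rn_succ, ddq_mul_lin, ih, sum_range_succ, sum_mul]
    congr 1
    · refine sum_congr rfl fun i hi => ?_
      have hi' : i < v := mem_range.1 hi
      obtain ⟨k, rfl⟩ := Nat.exists_eq_add_of_lt hi'
      have e1 : i + k + 1 - 1 - i = k := by omega
      have e2 : i + k + 1 + 1 - 1 - i = k + 1 := by omega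
      rw [e1, e2, dqi_rn_succ, mul_assoc]
      congr 3
      push_cast
      ring_nf
    · have e : v + 1 - 1 - v = 0 := by omega
      rw [e, dqi_rn_zero, mul_one]

/-- the integers in `ℚ` -/
private noncomputable def dqiZ : Subring ℚ := (Int.castRingHom ℚ).range

private theorem dqi_mem_ZZ {x : ℚ} : x ∈ dqiZ ↔ ∃ w : ℤ, x = w := by
  unfold dqiZ
  rw [RingHom.mem_range]
  constructor
  · rintro ⟨w, hw⟩
    exact ⟨w, by rw [← hw]; rfl⟩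
  · rintro ⟨w, hw⟩
    exact ⟨w, by rw [hw]; rfl⟩

private theorem dqi_nat_ZZ (k : ℕ) : (k : ℚ) ∈ dqiZ := natCast_mem _ _

private theorem dqi_coeff_loc (l m : ℕ) (G : ℚ[X]) :
    PowerSeries.coeff m (loc ℚ l G) = (hasseDeriv m G).eval (((-(l : ℤ) : ℤ)) : ℚ) := by
  rw [loc_apply, Polynomial.coeff_coe, ← Polynomial.taylor_coeff, Polynomial.taylor_apply]
  congr 2
  push_cast
  rw [C_neg, sub_eq_add_neg]

private theorem dqi_loc_C (l : ℕ) (c : ℚ) : loc ℚ l (C c) = PowerSeries.C c := by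
  rw [loc_apply, C_comp, Polynomial.coe_C]

private theorem dqi_rn_mem {M d : ℕ} (hM : 0 < M) (hd : ∀ q : ℕ, 1 ≤ q → q ≤ M → q ∣ d)
    (a : ℤ) (k l : ℕ) : PowerSeries.C ((bf M k : ℚ)⁻¹) * loc ℚ l (rn ℚ a k) ∈ dR d := by
  rw [mem_dR]
  intro r
  obtain ⟨w, hw⟩ := int_run hM hd a (-(l : ℤ)) k r
  refine ⟨w, ?_⟩
  rw [PowerSeries.coeff_C_mul, dqi_coeff_loc, ← hw]
  ring

/-- values of the Hasse derivatives at a rational point -/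
private theorem dqi_val_mem {M d : ℕ} (hM : 0 < M) (hd : ∀ q : ℕ, 1 ≤ q → q ≤ M → q ∣ d)
    (a u : ℤ) (b v κ e : ℕ) (hb : 0 < b) (he : 2 * v ≤ e) :
    (b : ℚ) ^ e * (d : ℚ) ^ κ * ((bf M v : ℚ)⁻¹ * (hasseDeriv κ (rn ℚ a v)).eval ((u : ℚ) / b)) ∈
      dqiZ := by
  have h1 := dqi_mem_ZZ.2 (rat_run hM hd a u b v κ hb)
  obtain ⟨f, rfl⟩ := Nat.exists_eq_add_of_le he
  have h2 := mul_mem (pow_mem (dqi_nat_ZZ b) f) h1
  have e1 : (b : ℚ) ^ (2 * v + f) * (d : ℚ) ^ κ *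
      ((bf M v : ℚ)⁻¹ * (hasseDeriv κ (rn ℚ a v)).eval ((u : ℚ) / b)) =
      (b : ℚ) ^ f * ((b : ℚ) ^ (2 * v) * (d : ℚ) ^ κ *
        ((hasseDeriv κ (rn ℚ a v)).eval ((u : ℚ) / b) / (bf M v : ℚ))) := by
    rw [pow_add]
    ring
  rw [e1]
  exact h2

private theorem dqi_C_mem {d : ℕ} {c : ℚ} (h : c ∈ dqiZ) : PowerSeries.C c ∈ dR d := by
  obtain ⟨w, rfl⟩ := dqi_mem_ZZ.1 h
  exact C_int_mem d w

/-- regular parts of a normalised run -/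
private theorem dqi_ddq_mem {M d : ℕ} (hM : 0 < M) (hd : ∀ q : ℕ, 1 ≤ q → q ≤ M → q ∣ d)
    (a u : ℤ) (b v κ e l : ℕ) (hb : 0 < b) (he : 2 * v ≤ e) :
    PowerSeries.C ((d : ℚ) ^ (κ + 1)) *
      loc ℚ l (ddq κ ((u : ℚ) / b) (C ((b : ℚ) ^ e) * (C ((bf M v : ℚ)⁻¹) * rn ℚ a v))) ∈ dR d := by
  rw [ddq_C_mul, ddq_C_mul, ddq_rn, map_mul, map_mul, map_sum, mul_sum, mul_sum, mul_sum]
  refine sum_mem fun i hi => ?_
  have hi' : i < v := mem_range.1 hi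
  obtain ⟨k, hk⟩ := Nat.exists_eq_add_of_lt hi'
  have e1 : v - 1 - i = k := by omega
  obtain ⟨c', hc'⟩ := bf_split hM hd i k
  rw [← hk] at hc'
  have h1 := dqi_val_mem hM hd a u b i κ e hb (by omega)
  have h2 := dqi_rn_mem hM hd (a + i + 1) k l
  have h3 := mul_mem (dqi_C_mem (d := d) (mul_mem (dqi_nat_ZZ c') h1)) h2
  have hv : (bf M v : ℚ) ≠ 0 := bf_ne_zero' M v
  have hi0 : (bf M i : ℚ) ≠ 0 := bf_ne_zero' M i
  have hk0 : (bf M k : ℚ) ≠ 0 := bf_ne_zero' M k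
  have hc2 : (d : ℚ) * ((bf M i : ℚ) * (bf M k : ℚ)) = (bf M v : ℚ) * (c' : ℚ) := by
    exact_mod_cast hc'
  have e2 : (d : ℚ) * (bf M v : ℚ)⁻¹ = (c' : ℚ) * ((bf M i : ℚ)⁻¹ * (bf M k : ℚ)⁻¹) := by
    field_simp
    linear_combination hc2
  rw [e1, map_mul, dqi_loc_C, dqi_loc_C, dqi_loc_C]
  have e3 : PowerSeries.C ((d : ℚ) ^ (κ + 1)) *
      (PowerSeries.C ((b : ℚ) ^ e) * (PowerSeries.C ((bf M v : ℚ)⁻¹) *
        (PowerSeries.C ((hasseDeriv κ (rn ℚ a i)).eval ((u : ℚ) / b)) *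
          loc ℚ l (rn ℚ (a + i + 1) k)))) =
      PowerSeries.C ((c' : ℚ) * ((b : ℚ) ^ e * (d : ℚ) ^ κ *
        ((bf M i : ℚ)⁻¹ * (hasseDeriv κ (rn ℚ a i)).eval ((u : ℚ) / b)))) *
        (PowerSeries.C ((bf M k : ℚ)⁻¹) * loc ℚ l (rn ℚ (a + i + 1) k)) := by
    simp only [← mul_assoc, ← map_mul]
    congr 2
    linear_combination ((b : ℚ) ^ e * (d : ℚ) ^ κ *
      (hasseDeriv κ (rn ℚ a i)).eval ((u : ℚ) / b)) * e2
  rw [e3]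
  exact h3

private theorem dqi_wl_mem (d p l : ℕ) : wl ℚ p l ∈ dR d := by
  unfold wl
  have e : (2 * (p : ℚ) - 1 - 2 * (l : ℚ)) = ((2 * (p : ℤ) - 1 - 2 * (l : ℤ) : ℤ) : ℚ) := by
    push_cast; ring
  rw [e]
  refine add_mem (C_int_mem _ _) (mul_mem ?_ (X_mem _))
  have := C_nat_mem d 2
  simpa using this

private theorem dqi_wpol_eq (p : ℕ) : wpol ℚ p = C 2 * (X - C (-((2 * (p : ℚ) - 1) / 2))) := by
  unfold wpol
  have e : (C (2 * (p : ℚ) - 1) : ℚ[X]) = C 2 * C ((2 * (p : ℚ) - 1) / 2) := by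
    rw [← C_mul]
    congr 1
    ring
  rw [e, C_neg]
  ring

private theorem dqi_ddq_wpol (κ p : ℕ) (t0 : ℚ) (F : ℚ[X]) :
    ddq κ t0 (wpol ℚ p * F) = ddq κ t0 F * wpol ℚ p + C (2 * (hasseDeriv κ F).eval t0) := by
  have e1 : wpol ℚ p * F = C 2 * (F * (X - C (-((2 * (p : ℚ) - 1) / 2)))) := by
    rw [dqi_wpol_eq]; ring
  rw [e1, ddq_C_mul, ddq_mul_lin, dqi_wpol_eq, C_mul]
  ring

private theorem dqi_wP_even {M p n β κ j : ℕ} (h : κ % 2 = 0) :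
    wP ℚ M p n β κ j = C (((2 * β + 1 : ℕ) : ℚ) ^ (4 * n)) *
      (C ((bf M (2 * j) : ℚ)⁻¹) * rn ℚ (1 - (j : ℤ) - p) (2 * j)) := by
  unfold wP pw
  rw [h, pow_zero, one_mul, Cn_comp_tp]
  push_cast
  rfl

private theorem dqi_wP_odd {M p n β κ j : ℕ} (h : κ % 2 = 1) :
    wP ℚ M p n β κ j = wpol ℚ p * (C (((2 * β + 1 : ℕ) : ℚ) ^ (4 * n)) *
      (C ((bf M (2 * j) : ℚ)⁻¹) * rn ℚ (1 - (j : ℤ) - p) (2 * j))) := by
  unfold wP pw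
  rw [h, pow_one, Cn_comp_tp]
  push_cast
  ring

/-- regular parts of the row polynomials -/
theorem dq_wP {M d : ℕ} (hM : 0 < M) (hd : ∀ q : ℕ, 1 ≤ q → q ≤ M → q ∣ d)
    (p n β κ j l m : ℕ) (u : ℤ) (hj : j < n) :
    ∃ w : ℤ, (d : ℚ) ^ (κ + m + 1) *
      PowerSeries.coeff m (loc ℚ l (ddq κ ((u : ℚ) / (2 * (β : ℚ) + 1)) (wP ℚ M p n β κ j))) =
        w := by
  have hb : 0 < 2 * β + 1 := by omega
  have ecast : (2 * (β : ℚ) + 1) = ((2 * β + 1 : ℕ) : ℚ) := by push_cast; ring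
  have key : PowerSeries.C ((d : ℚ) ^ (κ + 1)) *
      loc ℚ l (ddq κ ((u : ℚ) / (2 * (β : ℚ) + 1)) (wP ℚ M p n β κ j)) ∈ dR d := by
    rw [ecast]
    have h1 := dqi_ddq_mem hM hd (1 - (j : ℤ) - p) u (2 * β + 1) (2 * j) κ (4 * n) l hb (by omega)
    rcases Nat.mod_two_eq_zero_or_one κ with h | h
    · rw [dqi_wP_even h]
      exact h1
    · rw [dqi_wP_odd h, dqi_ddq_wpol, map_add, map_mul, loc_wpol, dqi_loc_C, mul_add, ← mul_assoc]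
      refine add_mem (mul_mem h1 (dqi_wl_mem _ _ _)) ?_
      have h2 := dqi_val_mem hM hd (1 - (j : ℤ) - p) u (2 * β + 1) (2 * j) κ (4 * n) hb (by omega)
      have h3 := dqi_C_mem (d := d) (mul_mem (mul_mem (dqi_nat_ZZ 2) (dqi_nat_ZZ d)) h2)
      rw [← map_mul]
      have e2 : (d : ℚ) ^ (κ + 1) * (2 * (hasseDeriv κ (C (((2 * β + 1 : ℕ) : ℚ) ^ (4 * n)) *
          (C ((bf M (2 * j) : ℚ)⁻¹) * rn ℚ (1 - (j : ℤ) - p) (2 * j)))).eval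
            ((u : ℚ) / ((2 * β + 1 : ℕ) : ℚ))) =
          ((2 : ℕ) : ℚ) * (d : ℚ) * (((2 * β + 1 : ℕ) : ℚ) ^ (4 * n) * (d : ℚ) ^ κ *
            ((bf M (2 * j) : ℚ)⁻¹ * (hasseDeriv κ (rn ℚ (1 - (j : ℤ) - p) (2 * j))).eval
              ((u : ℚ) / ((2 * β + 1 : ℕ) : ℚ)))) := by
        rw [← smul_eq_C_mul, ← smul_eq_C_mul, map_smul, map_smul, eval_smul, eval_smul,
          smul_eq_mul, smul_eq_mul, pow_succ]
        push_cast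
        ring
      rw [e2]
      exact h3
  obtain ⟨w, hw⟩ := mem_dR.1 key m
  refine ⟨w, ?_⟩
  rw [← hw, PowerSeries.coeff_C_mul, ← mul_assoc, ← pow_add]
  congr 2
  omega

private theorem dqi_hasse_wpol (k p : ℕ) (t0 : ℚ) (F : ℚ[X]) :
    (hasseDeriv k (wpol ℚ p * F)).eval t0 = (2 * t0 + (2 * (p : ℚ) - 1)) *
      (hasseDeriv k F).eval t0 + (if 1 ≤ k then 2 * (hasseDeriv (k - 1) F).eval t0 else 0) := by
  rw [← taylor_coeff, ← taylor_coeff, ← taylor_coeff, taylor_mul]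
  have e1 : taylor t0 (wpol ℚ p) = C (2 * t0 + (2 * (p : ℚ) - 1)) + C 2 * X := by
    rw [taylor_apply]
    unfold wpol
    simp only [add_comp, mul_comp, C_comp, X_comp]
    rw [C_add (a := 2 * t0), C_mul (a := (2 : ℚ)) (b := t0)]
    ring
  rw [e1, add_mul, coeff_add, coeff_C_mul, mul_assoc, coeff_C_mul]
  congr 1
  rcases k with _ | k
  · simp
  · rw [if_pos (by omega), coeff_X_mul, Nat.add_sub_cancel]

/-- coordinates -/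
theorem ac_wP {M d : ℕ} (hM : 0 < M) (hd : ∀ q : ℕ, 1 ≤ q → q ≤ M → q ∣ d)
    (p n β κ j r : ℕ) (u : ℤ) (hj : j < n) :
    ∃ w : ℤ, (d : ℚ) ^ κ * aco κ r ((u : ℚ) / (2 * (β : ℚ) + 1)) (wP ℚ M p n β κ j) = w := by
  rw [← dqi_mem_ZZ]
  unfold aco
  split_ifs with hr
  swap
  · rw [mul_zero]; exact zero_mem _
  have hb : 0 < 2 * β + 1 := by omega
  have ecast : (2 * (β : ℚ) + 1) = ((2 * β + 1 : ℕ) : ℚ) := by push_cast; ring
  rw [ecast]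
  -- values with `b ^ e`
  have hval : ∀ k e : ℕ, 4 * j ≤ e →
      (d : ℚ) ^ k * (((2 * β + 1 : ℕ) : ℚ) ^ e * ((bf M (2 * j) : ℚ)⁻¹ *
        (hasseDeriv k (rn ℚ (1 - (j : ℤ) - p) (2 * j))).eval
          ((u : ℚ) / ((2 * β + 1 : ℕ) : ℚ)))) ∈ dqiZ := by
    intro k e he
    have h2 := dqi_val_mem hM hd (1 - (j : ℤ) - p) u (2 * β + 1) (2 * j) k e hb (by omega)
    have e2 : (d : ℚ) ^ k * (((2 * β + 1 : ℕ) : ℚ) ^ e * ((bf M (2 * j) : ℚ)⁻¹ *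
        (hasseDeriv k (rn ℚ (1 - (j : ℤ) - p) (2 * j))).eval
          ((u : ℚ) / ((2 * β + 1 : ℕ) : ℚ)))) =
        (((2 * β + 1 : ℕ) : ℚ) ^ e * (d : ℚ) ^ k *
            ((bf M (2 * j) : ℚ)⁻¹ * (hasseDeriv k (rn ℚ (1 - (j : ℤ) - p) (2 * j))).eval
              ((u : ℚ) / ((2 * β + 1 : ℕ) : ℚ)))) := by ring
    rw [e2]
    exact h2
  have hCC : ∀ k : ℕ, (hasseDeriv k (C (((2 * β + 1 : ℕ) : ℚ) ^ (4 * n)) *
      (C ((bf M (2 * j) : ℚ)⁻¹) * rn ℚ (1 - (j : ℤ) - p) (2 * j)))).eval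
        ((u : ℚ) / ((2 * β + 1 : ℕ) : ℚ)) =
      ((2 * β + 1 : ℕ) : ℚ) ^ (4 * n) * ((bf M (2 * j) : ℚ)⁻¹ *
        (hasseDeriv k (rn ℚ (1 - (j : ℤ) - p) (2 * j))).eval
          ((u : ℚ) / ((2 * β + 1 : ℕ) : ℚ))) := by
    intro k
    rw [← smul_eq_C_mul, ← smul_eq_C_mul, map_smul, map_smul, eval_smul, eval_smul,
      smul_eq_mul, smul_eq_mul]
  obtain ⟨k, rfl⟩ := Nat.exists_eq_add_of_le hr
  have ek : r + k - r = k := by omega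
  rw [ek, pow_add]
  have hsgn : ((-1 : ℚ)) ^ k ∈ dqiZ := pow_mem (neg_mem (one_mem _)) _
  have hdr : ((d : ℚ)) ^ r ∈ dqiZ := pow_mem (dqi_nat_ZZ d) _
  rcases Nat.mod_two_eq_zero_or_one (r + k) with h | h
  · rw [dqi_wP_even h, hCC]
    have h4 := mul_mem (mul_mem hdr hsgn) (hval k (4 * n) (by omega))
    have e3 : (d : ℚ) ^ r * (d : ℚ) ^ k * ((-1) ^ k * (((2 * β + 1 : ℕ) : ℚ) ^ (4 * n) *
        ((bf M (2 * j) : ℚ)⁻¹ * (hasseDeriv k (rn ℚ (1 - (j : ℤ) - p) (2 * j))).eval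
          ((u : ℚ) / ((2 * β + 1 : ℕ) : ℚ))))) =
        ((d : ℚ) ^ r * (-1) ^ k) * ((d : ℚ) ^ k * (((2 * β + 1 : ℕ) : ℚ) ^ (4 * n) *
        ((bf M (2 * j) : ℚ)⁻¹ * (hasseDeriv k (rn ℚ (1 - (j : ℤ) - p) (2 * j))).eval
          ((u : ℚ) / ((2 * β + 1 : ℕ) : ℚ))))) := by ring
    rw [e3]
    exact h4
  · rw [dqi_wP_odd h, dqi_hasse_wpol]
    -- first part
    have hw0 : (2 * (u : ℚ) + (2 * (p : ℚ) - 1) * ((2 * β + 1 : ℕ) : ℚ)) ∈ dqiZ := by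
      rw [dqi_mem_ZZ]
      refine ⟨2 * u + (2 * (p : ℤ) - 1) * ((2 * β + 1 : ℕ) : ℤ), ?_⟩
      push_cast
      ring
    have hb0 : ((2 * β + 1 : ℕ) : ℚ) ≠ 0 := by positivity
    have p1 : (d : ℚ) ^ r * (d : ℚ) ^ k * ((-1) ^ k *
        ((2 * ((u : ℚ) / ((2 * β + 1 : ℕ) : ℚ)) + (2 * (p : ℚ) - 1)) *
          (hasseDeriv k (C (((2 * β + 1 : ℕ) : ℚ) ^ (4 * n)) *
            (C ((bf M (2 * j) : ℚ)⁻¹) * rn ℚ (1 - (j : ℤ) - p) (2 * j)))).eval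
              ((u : ℚ) / ((2 * β + 1 : ℕ) : ℚ)))) ∈ dqiZ := by
      rw [hCC]
      have h4 := mul_mem (mul_mem (mul_mem hdr hsgn) hw0) (hval k (4 * n - 1) (by omega))
      have e4 : ((2 * β + 1 : ℕ) : ℚ) ^ (4 * n) =
          ((2 * β + 1 : ℕ) : ℚ) ^ (4 * n - 1) * ((2 * β + 1 : ℕ) : ℚ) := by
        rw [← pow_succ]
        congr 1
        omega
      have e3 : (d : ℚ) ^ r * (d : ℚ) ^ k * ((-1) ^ k *
        ((2 * ((u : ℚ) / ((2 * β + 1 : ℕ) : ℚ)) + (2 * (p : ℚ) - 1)) *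
          (((2 * β + 1 : ℕ) : ℚ) ^ (4 * n) * ((bf M (2 * j) : ℚ)⁻¹ *
        (hasseDeriv k (rn ℚ (1 - (j : ℤ) - p) (2 * j))).eval
          ((u : ℚ) / ((2 * β + 1 : ℕ) : ℚ)))))) =
          ((d : ℚ) ^ r * (-1) ^ k) * (2 * (u : ℚ) + (2 * (p : ℚ) - 1) * ((2 * β + 1 : ℕ) : ℚ)) *
          ((d : ℚ) ^ k * (((2 * β + 1 : ℕ) : ℚ) ^ (4 * n - 1) * ((bf M (2 * j) : ℚ)⁻¹ *
        (hasseDeriv k (rn ℚ (1 - (j : ℤ) - p) (2 * j))).eval
          ((u : ℚ) / ((2 * β + 1 : ℕ) : ℚ))))) := by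
        rw [e4]
        have e5 : (2 * ((u : ℚ) / ((2 * β + 1 : ℕ) : ℚ)) + (2 * (p : ℚ) - 1)) *
            ((2 * β + 1 : ℕ) : ℚ) = 2 * (u : ℚ) + (2 * (p : ℚ) - 1) * ((2 * β + 1 : ℕ) : ℚ) := by
          field_simp
        rw [← e5]
        ring
      rw [e3]
      exact h4
    rw [mul_add, mul_add]
    refine add_mem p1 ?_
    split_ifs with h1
    swap
    · rw [mul_zero, mul_zero]; exact zero_mem _
    · rw [hCC]
      have h4 := mul_mem (mul_mem (mul_mem (mul_mem hdr hsgn) (dqi_nat_ZZ 2)) (dqi_nat_ZZ d))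
        (hval (k - 1) (4 * n) (by omega))
      have e6 : (d : ℚ) ^ k = (d : ℚ) * (d : ℚ) ^ (k - 1) := by
        rw [← pow_succ']
        congr 1
        omega
      have e3 : (d : ℚ) ^ r * (d : ℚ) ^ k * ((-1) ^ k * (2 * (((2 * β + 1 : ℕ) : ℚ) ^ (4 * n) *
          ((bf M (2 * j) : ℚ)⁻¹ * (hasseDeriv (k - 1) (rn ℚ (1 - (j : ℤ) - p) (2 * j))).eval
            ((u : ℚ) / ((2 * β + 1 : ℕ) : ℚ)))))) =
          ((d : ℚ) ^ r * (-1) ^ k) * ((2 : ℕ) : ℚ) * (d : ℚ) * ((d : ℚ) ^ (k - 1) *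
            (((2 * β + 1 : ℕ) : ℚ) ^ (4 * n) *
          ((bf M (2 * j) : ℚ)⁻¹ * (hasseDeriv (k - 1) (rn ℚ (1 - (j : ℤ) - p) (2 * j))).eval
            ((u : ℚ) / ((2 * β + 1 : ℕ) : ℚ))))) := by
        rw [e6]
        push_cast
        ring
      rw [e3]
      exact h4

/-- the row polynomials themselves at the poles -/
theorem loc_wP_mem {M d : ℕ} (hM : 0 < M) (hd : ∀ q : ℕ, 1 ≤ q → q ≤ M → q ∣ d)
    (p n β κ j l : ℕ) : loc ℚ l (wP ℚ M p n β κ j) ∈ dR d := by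
  unfold wP pw
  rw [map_mul, map_mul, dqi_loc_C, map_pow (loc ℚ l) (wpol ℚ p), loc_wpol, ← ev_eq_loc]
  have e : ((2 * (β : ℚ) + 1) ^ (4 * n)) = (((2 * β + 1) ^ (4 * n) : ℕ) : ℚ) := by push_cast; ring
  rw [e]
  exact mul_mem (C_nat_mem _ _) (mul_mem (pow_mem (dqi_wl_mem _ _ _) _) (ev_Cn_mem hM hd _ _ _))

end Pool.Agent.DW
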