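import Pool.Agent.DP.ZET
import Pool.Agent.DM.NSM

/-!
# DW (short windows): definitions

Rows `(β, κ, j)`, `s0 ≤ κ ≤ S`, `j < n = 4 H p`: polynomial `wP = b^(4n) w^(κ%2) Cn_j(w^2)`,
`b = 2β+1`, coefficient of `hs κ` of the functional `β`. The regularity conditions at the positions
are extra coordinates (`aco`), the row of `g` is regularised (`gW`).
-/

namespace Pool.Agent.DW

open Finset Polynomial Pool.Agent.ZC Pool.Agent.SI Pool.Agent.DM

noncomputable section

variable (K : Type*) [Field K]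

/-- polynomial (in `t`) of the row `(β, κ, j)` -/
def wP (M p n β κ j : ℕ) : K[X] :=
  C ((2 * (β : K) + 1) ^ (4 * n)) * pw p (κ % 2) (Cn K M j)

variable {K}

/-- regular part of `F / (t - t0)^(κ+1)` at `t0` (a polynomial) -/
def ddq (κ : ℕ) (t0 : K) (F : K[X]) : K[X] :=
  ∑ m ∈ Icc (κ + 1) F.natDegree, C ((hasseDeriv m F).eval t0) * (X - C t0) ^ (m - κ - 1)

/-- coordinate at `t0`, order `r`, of the polynomial `F` in the slot `κ` -/
def aco (κ r : ℕ) (t0 : K) (F : K[X]) : K :=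
  if r ≤ κ then (-1) ^ (κ - r) * (hasseDeriv (κ - r) F).eval t0 else 0

variable (K)

/-- regularised `g` part of the row `(β, κ, j)` at the pole `l` -/
def gW (M p n β κ j l : ℕ) : PowerSeries K :=
  PowerSeries.C ((-1) ^ (κ + 1)) *
    (∑ k ∈ Icc 1 ((2 * β + 1) * l),
        loc K l (ddq κ ((k : K) / (2 * (β : K) + 1) - l) (wP K M p n β κ j)) -
      ∑ k ∈ Icc 1 ((2 * β + 1) * (2 * p - 1 - l)),
        loc K l (ddq κ (-(k : K) / (2 * (β : K) + 1) - l) (wP K M p n β κ j)))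

/-- `zs` part of the row `(β, κ, j)` at the pole `l`, coefficients `c` -/
def yW (M p n T : ℕ) (c : ℕ → K) (β κ j l : ℕ) : PowerSeries K :=
  loc K l (wP K M p n β κ j) * hs K κ (zs K (2 * β + 1) (oddS T) c)

/-- the point `t` of the position `w = (2k+1)/(2β+1)` -/
def tpt (p β k : ℕ) : K := ((2 * (k : K) + 1) / (2 * (β : K) + 1) - (2 * (p : K) - 1)) / 2

end

/-- index of the `F` rows: `(β, κ - s0, j)` -/
abbrev FW (B R n : ℕ) : Type := Fin B × Fin R × Fin n

/-- index of the coordinates: position `(β, k)` and order `r` -/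
abbrev AW (B S p : ℕ) : Type := (Σ β : Fin B, Fin (2 * (2 * (β : ℕ) + 1) * p)) × Fin (S + 1)

/-- signed coefficient of `(t - t')^(-r-1)`-kernels at the pole `l` (real shear) -/
noncomputable def kcW (l m r : ℕ) (t : ℝ) : ℝ :=
  if t + l = 0 then 0 else (if 0 < t + l then 1 else -1) * ((m + r).choose r : ℝ) *
    ((t + l) ^ (m + r + 1))⁻¹

/-- real shear coefficient of the coordinate `(β, k, r)` at the column `(l, m)` -/
noncomputable def sgW (p β k r l m : ℕ) : ℝ :=
  -(kcW l m r (tpt ℝ p β k) + (-1) ^ r * kcW l m r (-(2 * (p : ℝ) - 1) - tpt ℝ p β k))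

/-- power sums over the far positions -/
noncomputable def farS (p β q : ℕ) : ℝ :=
  ∑' k : ℕ, 1 / (((2 * ((k : ℝ) + 2 * (2 * β + 1) * p) + 1) / (2 * β + 1)) ^ q)

/-- coefficient of `y^(n + κ')` in the real row `(β, κ, j)` -/
noncomputable def lamW (M p n β κ j κ' : ℕ) : ℝ :=
  (2 * (β : ℝ) + 1) ^ (4 * n) * ∑ i ∈ range (j + 1), (Cn ℝ M j).coeff i *
    (2 ^ (κ + 2) * ((κ + κ % 2 + 2 * (n + κ' - κ % 2 - i)).choose κ : ℝ) *
      farS p β (κ + 1 + κ % 2 + 2 * (n + κ' - κ % 2 - i)))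

end Pool.Agent.DW
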