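import Pool.Agent.DW.DQI
import Pool.Agent.DM.ENT

/-!
# DW: integrality of the rows
-/

namespace Pool.Agent.DW

open Finset Polynomial Pool.Agent.ZC Pool.Agent.SI Pool.Agent.DM

private theorem ent_pow_up {d e f : ℕ} (hef : e ≤ f) {x : ℚ}
    (h : ∃ w : ℤ, (d : ℚ) ^ e * x = w) : ∃ w : ℤ, ((d ^ f : ℕ) : ℚ) * x = w := by
  obtain ⟨w, hw⟩ := h
  obtain ⟨g, rfl⟩ := Nat.exists_eq_add_of_le hef
  refine ⟨(d : ℤ) ^ g * w, ?_⟩
  push_cast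
  rw [← hw, pow_add]
  ring

private theorem ent_sum_int {ι : Type*} (s : Finset ι) (D : ℚ) (f : ι → ℚ)
    (h : ∀ i ∈ s, ∃ w : ℤ, D * f i = w) : ∃ w : ℤ, D * ∑ i ∈ s, f i = w := by
  classical
  choose! w hw using h
  refine ⟨∑ i ∈ s, w i, ?_⟩
  rw [mul_sum]
  push_cast
  exact sum_congr rfl fun i hi => hw i hi

theorem dw_int_g {a S d M : ℕ} (hM : 0 < M) (hd : ∀ q : ℕ, 1 ≤ q → q ≤ M → q ∣ d)
    (p n β κ j l m : ℕ) (hj : j < n) (hκ : κ ≤ S) (hm : m < a) :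
    ∃ w : ℤ, ((d ^ (a + S + 1) : ℕ) : ℚ) * PowerSeries.coeff m (gW ℚ M p n β κ j l) = w := by
  have hb : (2 * (β : ℚ) + 1) ≠ 0 := by positivity
  have key : ∀ u : ℤ, ∃ w : ℤ, ((d ^ (a + S + 1) : ℕ) : ℚ) *
      PowerSeries.coeff m (loc ℚ l (ddq κ ((u : ℚ) / (2 * (β : ℚ) + 1)) (wP ℚ M p n β κ j))) =
        w := fun u => ent_pow_up (by omega) (dq_wP hM hd p n β κ j l m u hj)
  have h1 : ∃ w : ℤ, ((d ^ (a + S + 1) : ℕ) : ℚ) * ∑ k ∈ Icc 1 ((2 * β + 1) * l),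
      PowerSeries.coeff m
        (loc ℚ l (ddq κ ((k : ℚ) / (2 * (β : ℚ) + 1) - l) (wP ℚ M p n β κ j))) = w := by
    refine ent_sum_int _ _ _ fun k _ => ?_
    have e : (k : ℚ) / (2 * (β : ℚ) + 1) - l =
        ((k - l * (2 * β + 1) : ℤ) : ℚ) / (2 * (β : ℚ) + 1) := by
      push_cast
      field_simp
    rw [e]
    exact key _
  have h2 : ∃ w : ℤ, ((d ^ (a + S + 1) : ℕ) : ℚ) *
      ∑ k ∈ Icc 1 ((2 * β + 1) * (2 * p - 1 - l)),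
      PowerSeries.coeff m
        (loc ℚ l (ddq κ (-(k : ℚ) / (2 * (β : ℚ) + 1) - l) (wP ℚ M p n β κ j))) = w := by
    refine ent_sum_int _ _ _ fun k _ => ?_
    have e : -(k : ℚ) / (2 * (β : ℚ) + 1) - l =
        ((-k - l * (2 * β + 1) : ℤ) : ℚ) / (2 * (β : ℚ) + 1) := by
      push_cast
      field_simp
    rw [e]
    exact key _
  obtain ⟨w1, hw1⟩ := h1
  obtain ⟨w2, hw2⟩ := h2
  refine ⟨(-1) ^ (κ + 1) * (w1 - w2), ?_⟩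
  rw [gW, PowerSeries.coeff_C_mul, map_sub, map_sum, map_sum]
  push_cast at hw1 hw2 ⊢
  rw [← hw1, ← hw2]
  ring

theorem dw_int_y {a S d M : ℕ} (hM : 0 < M) (hd : ∀ q : ℕ, 1 ≤ q → q ≤ M → q ∣ d) (T : ℕ)
    (c : ℕ → ℚ) (Q : ℕ) (hQ : ∀ i ∈ oddS T, ∃ w : ℤ, (Q : ℚ) * c i = w)
    (p n β κ j l m : ℕ) (hκ : κ ≤ S) (hm : m < a) :
    ∃ w : ℤ, ((Q * d ^ (a + S + 1) : ℕ) : ℚ) * PowerSeries.coeff m (yW ℚ M p n T c β κ j l) =
      w := by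
  have hL : loc ℚ l (wP ℚ M p n β κ j) ∈ dR d := loc_wP_mem hM hd p n β κ j l
  have hZ : PowerSeries.C (Q : ℚ) * zs ℚ (2 * β + 1) (oddS T) c ∈ dR d := by
    rw [zs, mul_sum]
    refine sum_mem fun i hi => ?_
    obtain ⟨w, hw⟩ := hQ i hi
    have e : PowerSeries.C (Q : ℚ) * (PowerSeries.C (2 * ((2 * β + 1 : ℕ) : ℚ) ^ i * c i) *
        PowerSeries.X ^ (i - 1)) =
        PowerSeries.C ((2 * ((2 * β + 1 : ℕ) : ℤ) ^ i * w : ℤ) : ℚ) *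
          PowerSeries.X ^ (i - 1) := by
      rw [← mul_assoc, ← map_mul]
      congr 2
      push_cast
      rw [← hw]
      ring
    rw [e]
    exact mul_mem (C_int_mem _ _) (pow_mem (X_mem _) _)
  have hH : PowerSeries.C ((Q * d ^ κ : ℕ) : ℚ) *
      hs ℚ κ (zs ℚ (2 * β + 1) (oddS T) c) ∈ dR d := by
    rw [mem_dR] at hZ ⊢
    intro m'
    obtain ⟨w, hw⟩ := hZ (m' + κ)
    refine ⟨((m' + κ).choose κ : ℤ) * w, ?_⟩
    rw [PowerSeries.coeff_C_mul] at hw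
    rw [PowerSeries.coeff_C_mul, hs, PowerSeries.coeff_mk]
    push_cast
    rw [← hw, pow_add]
    ring
  have h3 : PowerSeries.C ((Q * d ^ κ : ℕ) : ℚ) * yW ℚ M p n T c β κ j l ∈ dR d := by
    have e : PowerSeries.C ((Q * d ^ κ : ℕ) : ℚ) * yW ℚ M p n T c β κ j l =
        loc ℚ l (wP ℚ M p n β κ j) *
          (PowerSeries.C ((Q * d ^ κ : ℕ) : ℚ) * hs ℚ κ (zs ℚ (2 * β + 1) (oddS T) c)) := by
      rw [yW]
      ring
    rw [e]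
    exact mul_mem hL hH
  obtain ⟨w, hw⟩ := coeff_int_of_mem (a := a) h3 hm.le
  rw [PowerSeries.coeff_C_mul] at hw
  obtain ⟨g, hg⟩ := Nat.exists_eq_add_of_le (show κ + a ≤ a + S + 1 by omega)
  refine ⟨(d : ℤ) ^ g * w, ?_⟩
  rw [hg]
  push_cast
  rw [← hw, pow_add, pow_add]
  push_cast
  ring

theorem dw_int_a {a S d M : ℕ} (hM : 0 < M) (hd : ∀ q : ℕ, 1 ≤ q → q ≤ M → q ∣ d)
    (p n β κ j k r : ℕ) (hj : j < n) (hκ : κ ≤ S) :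
    ∃ w : ℤ, ((d ^ (a + S + 1) : ℕ) : ℚ) * aco κ r (tpt ℚ p β k) (wP ℚ M p n β κ j) = w := by
  have hb : (2 * (β : ℚ) + 1) ≠ 0 := by positivity
  have e : tpt ℚ p β k =
      ((k - p * (2 * β + 1) + β + 1 : ℤ) : ℚ) / (2 * (β : ℚ) + 1) := by
    rw [tpt]
    push_cast
    field_simp
    ring
  rw [e]
  exact ent_pow_up (by omega) (ac_wP hM hd p n β κ j r _ hj)

end Pool.Agent.DW
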