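import Pool.Agent.DW.Defs

/-!
# DW: the far kernels

`w0 = (2 (k + 2bp) + 1)/b ≥ 4p`, `w = wl + 2X` at the pole `l`, `wl = 2p-1-2l`; coefficient `m` of
`2^(κ+1) ∑_{w0} ((w0 - w)^(-κ-1) + (-1)^κ (w0 + w)^(-κ-1))`.
-/

namespace Pool.Agent.DW

open Finset Polynomial Pool.Agent.ZC Pool.Agent.SI Pool.Agent.DM

/-- far position number `k` -/
noncomputable def w0F (p β k : ℕ) : ℝ := (2 * ((k : ℝ) + 2 * (2 * β + 1) * p) + 1) / (2 * β + 1)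

/-- coefficient of the far kernels -/
noncomputable def fkc (p β κ l m : ℕ) : ℝ :=
  ∑' k : ℕ, 2 ^ (κ + 1) * ((m + κ).choose κ : ℝ) * 2 ^ m *
    (((w0F p β k - (2 * (p : ℝ) - 1 - 2 * l)) ^ (m + κ + 1))⁻¹ +
      (-1) ^ (κ + m) * ((w0F p β k + (2 * (p : ℝ) - 1 - 2 * l)) ^ (m + κ + 1))⁻¹)

/-- far part of the real row -/
noncomputable def farW (M p n β κ j l : ℕ) : PowerSeries ℝ :=
  loc ℝ l (wP ℝ M p n β κ j) * PowerSeries.mk (fkc p β κ l)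

end Pool.Agent.DW
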