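import Mathlib

/-!
# DW: choice of the parameters

`d = dim P`, `y = dim (V P)`, `L = log x`. `a = ⌊W/2⌋`, `S = x + W - a` (so `S + 1 - x ≥ W/2`,
`S ≤ 2x`), `f0 = ⌊a/2⌋`, `B = ⌊c1 W / (x^(2/3) (d L)^(1/3))⌋`, `H = ⌈6 B x / W + y / (d B)⌉`.
-/

namespace Pool.Agent.DW

/-- the main computation, in terms of `r = x^(1/3)`, `t = (d L)^(1/3)` -/
theorem dw_num_aux (C1 c1 C r t L : ℝ) (x W d y : ℕ) (hC1 : 0 < C1) (hc1 : 0 < c1)
    (hC1c : C1 * c1 ^ 3 * 40000 ≤ 1) (hc40 : 40 * c1 ≤ 1) (hCc : C * c1 = 2)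
    (hr : 0 < r) (ht : 1 ≤ t) (hL : 1 ≤ L) (hLx : L = Real.log x)
    (hr3 : r ^ 3 = x) (ht3 : t ^ 3 = d * L) (hx3 : 3 ≤ x) (hd : 1 ≤ d)
    (hW : C * r ^ 2 * t ≤ W) (hWx : W ≤ x) (hy : (y : ℝ) * r * t ^ 2 < c1 ^ 2 * d * W) :
    ∃ B H a S f0 : ℕ, 1 ≤ B ∧ B ≤ H ∧ 1 ≤ x ∧ x ≤ S ∧ a + S = x + W ∧
      4 * B ^ 2 * d * (S + 1) + 2 * y * a + 8 * H ≤ 8 * H * B * d * (S + 1 - x) + a ∧
      8 * H * d + 16 * H + 1 ≤ a ∧ 2 * f0 ≤ a ∧
      C1 * ((B : ℝ) * d * ((S + 1 - x : ℕ) : ℝ) + 1) * (H : ℝ) ^ 2 *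
        (1 + Real.log (a + S + 1)) < (f0 : ℝ) ^ 2 := by
  have hC : 80 ≤ C := by
    have h1 : C * (40 * c1) = 80 := by nlinarith
    have hCpos : 0 < C := by
      by_contra h
      rw [not_lt] at h
      nlinarith
    nlinarith
  have hCpos : 0 < C := by linarith
  have htpos : 0 < t := by linarith
  have hWxr : (W : ℝ) ≤ r ^ 3 := by rw [hr3]; exact_mod_cast hWx
  have hr2 : 0 < r ^ 2 := by positivity
  -- r ≥ C t
  have hrt : C * t ≤ r := by
    have h1 : (C * t) * r ^ 2 ≤ r * r ^ 2 := by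
      have e1 : (C * t) * r ^ 2 = C * r ^ 2 * t := by ring
      have e2 : r * r ^ 2 = r ^ 3 := by ring
      rw [e1, e2]
      linarith
    exact le_of_mul_le_mul_right h1 hr2
  have hr80 : 80 ≤ r := by
    have : (80 : ℝ) * 1 ≤ C * t := mul_le_mul hC ht (by norm_num) hCpos.le
    linarith
  have hW0 : 6400 ≤ (W : ℝ) := by
    have h1 : 80 * 80 ≤ C * r ^ 2 * t := by
      have h2 : (80 : ℝ) ≤ r ^ 2 := by nlinarith
      have h3 : (80 : ℝ) * 80 ≤ C * r ^ 2 := mul_le_mul hC h2 (by norm_num) hCpos.le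
      have h4 : (80 : ℝ) * 80 * 1 ≤ C * r ^ 2 * t := mul_le_mul h3 ht (by norm_num) (by positivity)
      linarith
    linarith
  have hWpos : 0 < (W : ℝ) := by linarith
  have hW8 : 6400 ≤ W := by exact_mod_cast hW0
  have hdR : (1 : ℝ) ≤ d := by exact_mod_cast hd
  have hdpos : (0 : ℝ) < d := by linarith
  have hy0 : (0 : ℝ) ≤ y := Nat.cast_nonneg y
  set u : ℝ := c1 * W / (r ^ 2 * t) with hu
  have hrt2 : 0 < r ^ 2 * t := by positivity
  have hu2 : 2 ≤ u := by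
    rw [hu, le_div_iff₀ hrt2]
    have h1 : c1 * (C * r ^ 2 * t) ≤ c1 * W := mul_le_mul_of_nonneg_left hW hc1.le
    have h2 : c1 * (C * r ^ 2 * t) = (C * c1) * (r ^ 2 * t) := by ring
    rw [h2, hCc] at h1
    exact h1
  have hupos : 0 < u := by linarith
  set B : ℕ := ⌊u⌋₊ with hB
  have hBle : (B : ℝ) ≤ u := Nat.floor_le hupos.le
  have hBge : u / 2 ≤ (B : ℝ) := by
    have h1 : u < (B : ℝ) + 1 := Nat.lt_floor_add_one u
    linarith
  have hBpos : (0 : ℝ) < B := by linarith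
  have hB1 : 1 ≤ B := by
    have : 0 < B := by exact_mod_cast hBpos
    omega
  have hB1R : (1 : ℝ) ≤ B := by exact_mod_cast hB1
  set w : ℝ := 6 * B * x / W + y / (B * d) with hw
  have hxpos : (0 : ℝ) < x := by
    have : (3 : ℝ) ≤ x := by exact_mod_cast hx3
    linarith
  have hBd : (0 : ℝ) < B * d := by positivity
  have hw1 : 0 ≤ 6 * (B : ℝ) * x / W := by positivity
  have hw2 : 0 ≤ (y : ℝ) / (B * d) := by positivity
  have hw0 : 0 ≤ w := by rw [hw]; linarith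
  set H : ℕ := ⌈w⌉₊ with hH
  have hHge : w ≤ (H : ℝ) := Nat.le_ceil w
  have hHlt : (H : ℝ) < w + 1 := Nat.ceil_lt_add_one hw0
  -- H W ≥ 6 B x
  have hHW : 6 * (B : ℝ) * x ≤ H * W := by
    have h1 : 6 * (B : ℝ) * x / W ≤ H := by
      have : 6 * (B : ℝ) * x / W ≤ w := by rw [hw]; linarith
      linarith
    rwa [div_le_iff₀ hWpos] at h1
  have hHy : (y : ℝ) ≤ H * (B * d) := by
    have h1 : (y : ℝ) / (B * d) ≤ H := by
      have : (y : ℝ) / (B * d) ≤ w := by rw [hw]; linarith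
      linarith
    rwa [div_le_iff₀ hBd] at h1
  have hWxR : (W : ℝ) ≤ x := by exact_mod_cast hWx
  have hHB : (B : ℝ) ≤ H := by
    have h1 : 6 * (B : ℝ) * W ≤ H * W := by
      have : 6 * (B : ℝ) * W ≤ 6 * (B : ℝ) * x := mul_le_mul_of_nonneg_left hWxR (by positivity)
      linarith
    have h2 : 6 * (B : ℝ) ≤ H := le_of_mul_le_mul_right h1 hWpos
    linarith
  have hHBn : B ≤ H := by exact_mod_cast hHB
  have hH1R : (1 : ℝ) ≤ H := by linarith
  -- H ≤ 9 c1 r / t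
  have hHup : (H : ℝ) ≤ 9 * c1 * r / t := by
    have e1 : 6 * (B : ℝ) * x / W ≤ 6 * c1 * r / t := by
      rw [div_le_div_iff₀ hWpos htpos]
      have h1 : (B : ℝ) * (r ^ 2 * t) ≤ c1 * W := by
        have := hBle
        rw [hu, le_div_iff₀ hrt2] at this
        exact this
      have h2 : 6 * (B : ℝ) * x * t = 6 * r * ((B : ℝ) * (r ^ 2 * t)) := by rw [← hr3]; ring
      rw [h2]
      have h3 : 6 * r * ((B : ℝ) * (r ^ 2 * t)) ≤ 6 * r * (c1 * W) :=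
        mul_le_mul_of_nonneg_left h1 (by positivity)
      linarith
    have e2 : (y : ℝ) / (B * d) ≤ 2 * c1 * r / t := by
      rw [div_le_div_iff₀ hBd htpos]
      -- y t ≤ 2 c1 r B d
      have h1 : c1 * W ≤ 2 * (B : ℝ) * (r ^ 2 * t) := by
        have h2 : u ≤ 2 * (B : ℝ) := by linarith
        rw [hu, div_le_iff₀ hrt2] at h2
        exact h2
      have h3 : (y : ℝ) * r * t ^ 2 ≤ c1 * d * (2 * (B : ℝ) * (r ^ 2 * t)) := by
        have h4 : c1 * d * (c1 * W) ≤ c1 * d * (2 * (B : ℝ) * (r ^ 2 * t)) :=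
          mul_le_mul_of_nonneg_left h1 (by positivity)
        have h4' : c1 * d * (c1 * W) = c1 ^ 2 * d * W := by ring
        linarith
      have h5 : ((y : ℝ) * t) * (r * t) ≤ (2 * c1 * r * (B * d)) * (r * t) := by
        have h6 : ((y : ℝ) * t) * (r * t) = (y : ℝ) * r * t ^ 2 := by ring
        have h7 : (2 * c1 * r * (B * d)) * (r * t) = c1 * d * (2 * (B : ℝ) * (r ^ 2 * t)) := by ring
        rw [h6, h7]
        exact h3
      exact le_of_mul_le_mul_right h5 (by positivity)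
    have e3 : (1 : ℝ) ≤ c1 * r / t := by
      rw [le_div_iff₀ htpos]
      have h8 : c1 * (C * t) ≤ c1 * r := mul_le_mul_of_nonneg_left hrt hc1.le
      have h9 : c1 * (C * t) = (C * c1) * t := by ring
      rw [h9, hCc] at h8
      linarith
    have e4 : 9 * c1 * r / t = 6 * c1 * r / t + 2 * c1 * r / t + c1 * r / t := by ring
    rw [e4]
    have : w ≤ 6 * c1 * r / t + 2 * c1 * r / t := by rw [hw]; linarith
    linarith
  have hHt : (H : ℝ) * t ≤ 9 * c1 * r := by rwa [le_div_iff₀ htpos] at hHup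
  -- naturals
  obtain ⟨a, haW⟩ : ∃ a : ℕ, a = W / 2 := ⟨_, rfl⟩
  obtain ⟨f0, hf0⟩ : ∃ f : ℕ, f = a / 2 := ⟨_, rfl⟩
  have ha1 : 2 * a ≤ W := by omega
  have ha2 : W ≤ 2 * a + 1 := by omega
  have ha1R : 2 * (a : ℝ) ≤ W := by exact_mod_cast ha1
  have ha2R : (W : ℝ) ≤ 2 * a + 1 := by exact_mod_cast ha2
  have hf1 : a ≤ 2 * f0 + 1 := by omega
  have hf1R : (a : ℝ) ≤ 2 * f0 + 1 := by exact_mod_cast hf1
  have hS : (x + (W - a)) + 1 - x = W - a + 1 := by omega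
  have hScast : ((W - a + 1 : ℕ) : ℝ) = W - a + 1 := by
    have : a ≤ W := by omega
    push_cast [Nat.cast_sub this]
    ring
  have hScast2 : ((x + (W - a) : ℕ) : ℝ) = x + (W - a) := by
    have : a ≤ W := by omega
    push_cast [Nat.cast_sub this]
    ring
  refine ⟨B, H, a, x + (W - a), f0, hB1, hHBn, by omega, by omega, by omega, ?_, ?_, by omega, ?_⟩
  · -- (i)
    rw [hS]
    have key : (4 : ℝ) * B ^ 2 * d * ((x + (W - a)) + 1) + 2 * y * a + 8 * H ≤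
        8 * H * B * d * (W - a + 1) + a := by
      have k1 : (x : ℝ) + (W - a) + 1 ≤ 3 * x := by
        have : (0 : ℝ) ≤ a := Nat.cast_nonneg a
        have : (3 : ℝ) ≤ x := by exact_mod_cast hx3
        linarith
      have k2 : (4 : ℝ) * B ^ 2 * d * ((x + (W - a)) + 1) ≤ 4 * B ^ 2 * d * (3 * x) :=
        mul_le_mul_of_nonneg_left k1 (by positivity)
      have k3 : (4 : ℝ) * B ^ 2 * d * (3 * x) ≤ 2 * (H * (B * d)) * W := by
        have m0 : (2 : ℝ) * B * d * (6 * B * x) ≤ 2 * B * d * (H * W) :=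
          mul_le_mul_of_nonneg_left hHW (by positivity)
        have m1 : (2 : ℝ) * B * d * (6 * B * x) = (4 : ℝ) * B ^ 2 * d * (3 * x) := by ring
        have m2 : (2 : ℝ) * B * d * (H * W) = 2 * (H * (B * d)) * W := by ring
        rw [m1, m2] at m0
        exact m0
      have k4 : (2 : ℝ) * y * a ≤ (H * (B * d)) * W := by
        have m1 : (2 : ℝ) * y * a ≤ y * W := by
          have m0 : (y : ℝ) * (2 * a) ≤ y * W := mul_le_mul_of_nonneg_left ha1R hy0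
          linarith
        have m2 : (y : ℝ) * W ≤ (H * (B * d)) * W := mul_le_mul_of_nonneg_right hHy hWpos.le
        linarith
      have k5 : (8 : ℝ) * H ≤ (H * (B * d)) * W := by
        have m1 : (1 : ℝ) ≤ B * d := one_le_mul_of_one_le_of_one_le hB1R hdR
        have m2 : (H : ℝ) * 1 ≤ H * (B * d) := mul_le_mul_of_nonneg_left m1 (by positivity)
        have m3 : (H : ℝ) * 8 ≤ (H * (B * d)) * W := by
          apply mul_le_mul (by linarith) (by linarith) (by norm_num) (by positivity)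
        linarith
      have k6 : 4 * ((H : ℝ) * (B * d)) * W ≤ 8 * H * B * d * (W - a + 1) := by
        have m1 : (W : ℝ) ≤ 2 * (W - a + 1) := by linarith
        have m2 : 4 * ((H : ℝ) * (B * d)) * W ≤ 4 * ((H : ℝ) * (B * d)) * (2 * (W - a + 1)) :=
          mul_le_mul_of_nonneg_left m1 (by positivity)
        linarith
      have k7 : (0 : ℝ) ≤ a := Nat.cast_nonneg a
      linarith
    have key2 : ((4 * B ^ 2 * d * ((x + (W - a)) + 1) + 2 * y * a + 8 * H : ℕ) : ℝ) ≤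
        ((8 * H * B * d * (W - a + 1) + a : ℕ) : ℝ) := by
      have e1 : ((4 * B ^ 2 * d * ((x + (W - a)) + 1) + 2 * y * a + 8 * H : ℕ) : ℝ) =
          (4 : ℝ) * B ^ 2 * d * (((x + (W - a) : ℕ) : ℝ) + 1) + 2 * y * a + 8 * H := by push_cast; ring
      have e2 : ((8 * H * B * d * (W - a + 1) + a : ℕ) : ℝ) =
          8 * H * B * d * ((W - a + 1 : ℕ) : ℝ) + a := by push_cast; ring
      rw [e1, e2, hScast, hScast2]
      exact key
    exact_mod_cast key2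
  · -- (ii)
    have key : (8 : ℝ) * H * d + 16 * H + 1 ≤ a := by
      have k1 : (8 : ℝ) * H * d + 16 * H ≤ 24 * (H * d) := by
        have : (H : ℝ) * 1 ≤ H * d := mul_le_mul_of_nonneg_left hdR (by positivity)
        linarith
      -- H d ≤ 9 c1 r d / t, d ≤ t^3
      have k2 : (d : ℝ) ≤ t ^ 3 := by
        rw [ht3]
        exact le_mul_of_one_le_right hdpos.le hL
      have k3 : (H : ℝ) * d ≤ H * t ^ 3 := mul_le_mul_of_nonneg_left k2 (by positivity)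
      have k4 : (H : ℝ) * t ^ 3 ≤ 9 * c1 * r * t ^ 2 := by
        have m0 : (H : ℝ) * t * t ^ 2 ≤ 9 * c1 * r * t ^ 2 :=
          mul_le_mul_of_nonneg_right hHt (by positivity)
        have m1 : (H : ℝ) * t * t ^ 2 = (H : ℝ) * t ^ 3 := by ring
        rw [m1] at m0
        exact m0
      -- C r t^2 ≤ r^2 t
      have k5 : C * (r * t ^ 2) ≤ r ^ 2 * t := by
        have m0 : (r * t) * (C * t) ≤ (r * t) * r := mul_le_mul_of_nonneg_left hrt (by positivity)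
        have m1 : (r * t) * (C * t) = C * (r * t ^ 2) := by ring
        have m2 : (r * t) * r = r ^ 2 * t := by ring
        rw [m1, m2] at m0
        exact m0
      have k6 : C * (C * (r * t ^ 2)) ≤ W := by
        have m0 : C * (C * (r * t ^ 2)) ≤ C * (r ^ 2 * t) := mul_le_mul_of_nonneg_left k5 hCpos.le
        have m1 : C * (r ^ 2 * t) = C * r ^ 2 * t := by ring
        linarith
      have k7 : (r * t ^ 2) * 6400 ≤ W := by
        have m0 : 0 ≤ r * t ^ 2 := by positivity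
        have m1 : 80 * (r * t ^ 2) ≤ C * (r * t ^ 2) := mul_le_mul_of_nonneg_right hC m0
        have m2 : 80 * (C * (r * t ^ 2)) ≤ C * (C * (r * t ^ 2)) :=
          mul_le_mul_of_nonneg_right hC (by positivity)
        linarith
      have k8 : 9 * c1 * r * t ^ 2 ≤ 9 / 40 * (r * t ^ 2) := by
        have h0 : 0 ≤ r * t ^ 2 := by positivity
        have m0 : (40 * c1) * (r * t ^ 2) ≤ 1 * (r * t ^ 2) := mul_le_mul_of_nonneg_right hc40 h0
        linarith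
      linarith
    exact_mod_cast key
  · -- (iii)
    have e0 : ((x + (W - a) + 1 - x : ℕ) : ℝ) = W - a + 1 := by
      rw [← hScast]
      congr 1
    rw [e0, hScast2]
    have hlog : 1 + Real.log ((a : ℝ) + (x + (W - a)) + 1) ≤ 3 * L := by
      have h1 : (a : ℝ) + (x + (W - a)) + 1 = x + W + 1 := by ring
      have h3 : (3 : ℝ) ≤ x := by exact_mod_cast hx3
      have h2 : (x : ℝ) + W + 1 ≤ (x : ℝ) ^ 2 := by nlinarith
      rw [h1]
      have h4 : Real.log ((x : ℝ) + W + 1) ≤ Real.log ((x : ℝ) ^ 2) :=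
        Real.log_le_log (by positivity) h2
      rw [Real.log_pow] at h4
      rw [hLx] at hL ⊢
      push_cast at h4
      linarith
    have hlog0 : 0 ≤ 1 + Real.log ((a : ℝ) + (x + (W - a)) + 1) := by
      have h1 : (a : ℝ) + (x + (W - a)) + 1 = x + W + 1 := by ring
      rw [h1]
      have : 0 ≤ Real.log ((x : ℝ) + W + 1) := Real.log_nonneg (by linarith)
      linarith
    -- B r^2 t ≤ c1 W
    have hBu : (B : ℝ) * (r ^ 2 * t) ≤ c1 * W := by
      have := hBle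
      rw [hu, le_div_iff₀ hrt2] at this
      exact this
    have g1 : (W : ℝ) - a + 1 ≤ 2 / 3 * W := by linarith
    have g2 : (B : ℝ) * d * (W - a + 1) + 1 ≤ B * d * W := by
      have m1 : (B : ℝ) * d * (W - a + 1) ≤ B * d * (2 / 3 * W) :=
        mul_le_mul_of_nonneg_left g1 (by positivity)
      have m2 : (1 : ℝ) ≤ B * d := one_le_mul_of_one_le_of_one_le hB1R hdR
      have m3 : (1 : ℝ) * W ≤ B * d * W := mul_le_mul_of_nonneg_right m2 hWpos.le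
      have m4 : (B : ℝ) * d * (2 / 3 * W) = 2 / 3 * (B * d * W) := by ring
      rw [m4] at m1
      linarith
    have hX0 : 0 ≤ (B : ℝ) * d * (W - a + 1) + 1 := by
      have : 0 ≤ (W : ℝ) - a + 1 := by linarith
      positivity
    -- combine: t^3 * (B d W) * H^2 * 3 L ≤ 243 c1^3 W^2 * t^3
    have g3 : (H : ℝ) ^ 2 * t ^ 2 ≤ 81 * c1 ^ 2 * r ^ 2 := by
      have h0 : 0 ≤ (H : ℝ) * t := by positivity
      have m0 : ((H : ℝ) * t) ^ 2 ≤ (9 * c1 * r) ^ 2 := pow_le_pow_left₀ h0 hHt 2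
      have m1 : ((H : ℝ) * t) ^ 2 = (H : ℝ) ^ 2 * t ^ 2 := by ring
      have m2 : (9 * c1 * r) ^ 2 = 81 * c1 ^ 2 * r ^ 2 := by ring
      rw [m1, m2] at m0
      exact m0
    have g4 : ((B : ℝ) * (r ^ 2 * t)) * ((H : ℝ) ^ 2 * t ^ 2) ≤ (c1 * W) * (81 * c1 ^ 2 * r ^ 2) :=
      mul_le_mul hBu g3 (by positivity) (by positivity)
    have g5 : (B : ℝ) * (H : ℝ) ^ 2 * t ^ 3 ≤ 81 * c1 ^ 3 * W := by
      have h1 : ((B : ℝ) * (H : ℝ) ^ 2 * t ^ 3) * r ^ 2 ≤ (81 * c1 ^ 3 * W) * r ^ 2 := by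
        have m1 : ((B : ℝ) * (H : ℝ) ^ 2 * t ^ 3) * r ^ 2 =
            ((B : ℝ) * (r ^ 2 * t)) * ((H : ℝ) ^ 2 * t ^ 2) := by ring
        have m2 : (81 * c1 ^ 3 * (W : ℝ)) * r ^ 2 = (c1 * W) * (81 * c1 ^ 2 * r ^ 2) := by ring
        rw [m1, m2]
        exact g4
      exact le_of_mul_le_mul_right h1 hr2
    have g6 : (B : ℝ) * d * W * (H : ℝ) ^ 2 * (3 * L) ≤ 243 * c1 ^ 3 * (W : ℝ) ^ 2 := by
      have h1 : (B : ℝ) * d * W * (H : ℝ) ^ 2 * (3 * L) =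
          3 * W * ((B : ℝ) * (H : ℝ) ^ 2 * t ^ 3) := by rw [ht3]; ring
      rw [h1]
      have h2 : 3 * (W : ℝ) * ((B : ℝ) * (H : ℝ) ^ 2 * t ^ 3) ≤ 3 * W * (81 * c1 ^ 3 * W) :=
        mul_le_mul_of_nonneg_left g5 (by positivity)
      have h3 : 3 * (W : ℝ) * (81 * c1 ^ 3 * W) = 243 * c1 ^ 3 * (W : ℝ) ^ 2 := by ring
      rw [h3] at h2
      exact h2
    have g7 : C1 * ((B : ℝ) * d * (W - a + 1) + 1) * (H : ℝ) ^ 2 *
        (1 + Real.log ((a : ℝ) + (x + (W - a)) + 1)) ≤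
        C1 * ((B : ℝ) * d * W * (H : ℝ) ^ 2 * (3 * L)) := by
      have h1 : C1 * ((B : ℝ) * d * (W - a + 1) + 1) * (H : ℝ) ^ 2 ≤
          C1 * (B * d * W) * (H : ℝ) ^ 2 := by
        apply mul_le_mul_of_nonneg_right _ (by positivity)
        exact mul_le_mul_of_nonneg_left g2 hC1.le
      have h2 : C1 * ((B : ℝ) * d * (W - a + 1) + 1) * (H : ℝ) ^ 2 *
          (1 + Real.log ((a : ℝ) + (x + (W - a)) + 1)) ≤
          (C1 * (B * d * W) * (H : ℝ) ^ 2) * (3 * L) :=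
        mul_le_mul h1 hlog hlog0 (by positivity)
      linarith
    have g8 : C1 * ((B : ℝ) * d * W * (H : ℝ) ^ 2 * (3 * L)) ≤ C1 * (243 * c1 ^ 3 * (W : ℝ) ^ 2) :=
      mul_le_mul_of_nonneg_left g6 hC1.le
    have g9 : C1 * (243 * c1 ^ 3 * (W : ℝ) ^ 2) ≤ 243 / 40000 * (W : ℝ) ^ 2 := by
      have h1 : C1 * c1 ^ 3 ≤ 1 / 40000 := by linarith
      have h2 : (C1 * c1 ^ 3) * (243 * (W : ℝ) ^ 2) ≤ (1 / 40000) * (243 * (W : ℝ) ^ 2) :=
        mul_le_mul_of_nonneg_right h1 (by positivity)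
      have h3 : (C1 * c1 ^ 3) * (243 * (W : ℝ) ^ 2) = C1 * (243 * c1 ^ 3 * (W : ℝ) ^ 2) := by ring
      rw [h3] at h2
      linarith
    have g10 : (W : ℝ) / 8 ≤ f0 := by linarith
    have g11 : ((W : ℝ) / 8) ^ 2 ≤ (f0 : ℝ) ^ 2 := pow_le_pow_left₀ (by positivity) g10 2
    have g12 : 243 / 40000 * (W : ℝ) ^ 2 < ((W : ℝ) / 8) ^ 2 := by
      have m0 : 0 < (W : ℝ) ^ 2 := by positivity
      have m1 : ((W : ℝ) / 8) ^ 2 = (W : ℝ) ^ 2 / 64 := by ring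
      rw [m1]
      linarith
    linarith

theorem dw_num (C1 : ℝ) (hC1 : 0 < C1) : ∃ c C x0 : ℝ, 0 < c ∧ 0 < C ∧ ∀ x W d y : ℕ, 1 ≤ d →
    d ≤ y → x0 ≤ x → C * (x : ℝ) ^ (2 / 3 : ℝ) * (d * Real.log x) ^ (1 / 3 : ℝ) ≤ W → W ≤ x →
    (y : ℝ) < c * (d : ℝ) ^ (1 / 3 : ℝ) * (W : ℝ) /
      ((x : ℝ) ^ (1 / 3 : ℝ) * (Real.log x) ^ (2 / 3 : ℝ)) →
    ∃ B H a S f0 : ℕ, 1 ≤ B ∧ B ≤ H ∧ 1 ≤ x ∧ x ≤ S ∧ a + S = x + W ∧
      4 * B ^ 2 * d * (S + 1) + 2 * y * a + 8 * H ≤ 8 * H * B * d * (S + 1 - x) + a ∧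
      8 * H * d + 16 * H + 1 ≤ a ∧ 2 * f0 ≤ a ∧
      C1 * ((B : ℝ) * d * ((S + 1 - x : ℕ) : ℝ) + 1) * (H : ℝ) ^ 2 *
        (1 + Real.log (a + S + 1)) < (f0 : ℝ) ^ 2 := by
  obtain ⟨c1, hc1def⟩ : ∃ c1 : ℝ, c1 = 1 / (40 * (C1 + 1)) := ⟨_, rfl⟩
  have hden : 0 < 40 * (C1 + 1) := by linarith
  have hc1 : 0 < c1 := by rw [hc1def]; positivity
  have hmul : c1 * (40 * (C1 + 1)) = 1 := by
    rw [hc1def, one_div, inv_mul_cancel₀ hden.ne']
  have hc40 : 40 * c1 ≤ 1 := by nlinarith [mul_pos hc1 hC1]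
  have hc40' : 40 * (C1 * c1) ≤ 1 := by nlinarith
  have hC1c : C1 * c1 ^ 3 * 40000 ≤ 1 := by
    have h1 : 0 ≤ 40 * (C1 * c1) := by positivity
    have h2 : 0 ≤ 40 * c1 := by positivity
    have h3 : (40 * c1) ^ 2 ≤ 1 := by nlinarith
    have h4 : (40 * (C1 * c1)) * (40 * c1) ^ 2 ≤ 1 * 1 :=
      mul_le_mul hc40' h3 (by positivity) (by norm_num)
    nlinarith [mul_pos hC1 (pow_pos hc1 3)]
  refine ⟨c1 ^ 2, 2 / c1, 3, by positivity, by positivity, ?_⟩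
  intro x W d y hd hdy hx hW hWx hy
  have hx3 : 3 ≤ x := by exact_mod_cast hx
  have hxpos : (0 : ℝ) < x := by linarith
  have hL : 1 ≤ Real.log x := by
    rw [Real.le_log_iff_exp_le hxpos]
    have := Real.exp_one_lt_d9
    linarith
  have hLpos : 0 < Real.log x := by linarith
  have hdR : (1 : ℝ) ≤ d := by exact_mod_cast hd
  have hdpos : (0 : ℝ) < d := by linarith
  have hcube : ∀ z : ℝ, 0 ≤ z → (z ^ (1 / 3 : ℝ)) ^ 3 = z := by
    intro z hz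
    rw [← Real.rpow_natCast, ← Real.rpow_mul hz]
    norm_num
  have hsq : ∀ z : ℝ, 0 ≤ z → z ^ (2 / 3 : ℝ) = (z ^ (1 / 3 : ℝ)) ^ 2 := by
    intro z hz
    rw [← Real.rpow_natCast (z ^ (1 / 3 : ℝ)) 2, ← Real.rpow_mul hz]
    norm_num
  obtain ⟨r, hr⟩ : ∃ r : ℝ, r = (x : ℝ) ^ (1 / 3 : ℝ) := ⟨_, rfl⟩
  obtain ⟨l, hl⟩ : ∃ l : ℝ, l = (Real.log x) ^ (1 / 3 : ℝ) := ⟨_, rfl⟩
  obtain ⟨e, he⟩ : ∃ e : ℝ, e = (d : ℝ) ^ (1 / 3 : ℝ) := ⟨_, rfl⟩
  have hrpos : 0 < r := by rw [hr]; positivity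
  have hlpos : 0 < l := by rw [hl]; positivity
  have hepos : 0 < e := by rw [he]; positivity
  have hr3 : r ^ 3 = x := by rw [hr]; exact hcube _ hxpos.le
  have hl3 : l ^ 3 = Real.log x := by rw [hl]; exact hcube _ hLpos.le
  have he3 : e ^ 3 = d := by rw [he]; exact hcube _ hdpos.le
  have hel : ((d : ℝ) * Real.log x) ^ (1 / 3 : ℝ) = e * l := by
    rw [he, hl, Real.mul_rpow hdpos.le hLpos.le]
  have ht3 : (e * l) ^ 3 = d * Real.log x := by rw [mul_pow, he3, hl3]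
  have ht1 : 1 ≤ e * l := by
    rw [← hel]
    apply Real.one_le_rpow
    · nlinarith
    · norm_num
  rw [hel, hsq _ hxpos.le, ← hr] at hW
  rw [← he, ← hr, hsq _ hLpos.le, ← hl, lt_div_iff₀ (by positivity)] at hy
  refine dw_num_aux C1 c1 (2 / c1) r (e * l) (Real.log x) x W d y hC1 hc1 hC1c hc40 ?_ hrpos ht1 hL
    rfl hr3 ht3 hx3 hd hW hWx ?_
  · field_simp
  · have h1 : (y : ℝ) * r * (e * l) ^ 2 = ((y : ℝ) * (r * l ^ 2)) * e ^ 2 := by ring
    have h2 : c1 ^ 2 * (d : ℝ) * W = (c1 ^ 2 * e * W) * e ^ 2 := by rw [← he3]; ring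
    rw [h1, h2]
    exact mul_lt_mul_of_pos_right hy (by positivity)

end Pool.Agent.DW
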