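import Pool.Agent.DW.COR
import Pool.Agent.DW.NUM

/-!
# DW: main theorem
-/

namespace Pool.Agent.DW

open Finset Pool.Agent.ZC Pool.Agent.SI

private theorem FIN_zr_pos (i : ℕ) (hi : 2 ≤ i) : 0 < zr i := by
  have h1 : Summable (fun n : ℕ => 1 / ((n : ℝ) + 1) ^ i) := by
    have h2 := (summable_nat_add_iff 1).mpr (Real.summable_one_div_nat_pow.mpr (by omega : 1 < i))
    simpa using h2
  have h3 : 0 < ∑' n : ℕ, 1 / ((n : ℝ) + 1) ^ i := by
    refine h1.tsum_pos (fun n => by positivity) 0 (by positivity)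
  exact h3

theorem dw_main : ∃ c C x0 : ℝ, 0 < c ∧ 0 < C ∧ ∀ (V P : Submodule ℚ ℝ) [Module.Finite ℚ V]
    [Module.Finite ℚ P], P ≠ ⊥ → ∀ x W : ℕ, x0 ≤ x →
    C * (x : ℝ) ^ (2 / 3 : ℝ) * (Module.finrank ℚ P * Real.log x) ^ (1 / 3 : ℝ) ≤ W → W ≤ x →
    (∀ i : ℕ, Odd i → x < i → i ≤ x + W → zr i ∈ V) →
    c * (Module.finrank ℚ P : ℝ) ^ (1 / 3 : ℝ) * (W : ℝ) /
      ((x : ℝ) ^ (1 / 3 : ℝ) * (Real.log x) ^ (2 / 3 : ℝ)) ≤
      (Module.finrank ℚ (V * P : Submodule ℚ ℝ) : ℝ) := by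
  obtain ⟨C1, hC1, hcore⟩ := dw_core
  obtain ⟨c, C, x0, hc, hC, hnum⟩ := dw_num C1 hC1
  refine ⟨c / 2, max C 2, max x0 3, by positivity, by positivity, ?_⟩
  intro V P _ _ hP x W hx hW hWx hV
  have hx0 : x0 ≤ x := (le_max_left _ _).trans hx
  have hx3 : (3 : ℝ) ≤ x := (le_max_right _ _).trans hx
  have hx3n : 3 ≤ x := by exact_mod_cast hx3
  have hL : 1 ≤ Real.log x := by
    rw [Real.le_log_iff_exp_le (by linarith)]
    have := Real.exp_one_lt_d9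
    linarith
  have hP1 : 1 ≤ Module.finrank ℚ P := by
    rw [Nat.one_le_iff_ne_zero]
    intro h
    exact hP (Submodule.finrank_eq_zero.mp h)
  have hP1R : (1 : ℝ) ≤ Module.finrank ℚ P := by exact_mod_cast hP1
  have ha : 1 ≤ (x : ℝ) ^ (2 / 3 : ℝ) := Real.one_le_rpow (by linarith) (by norm_num)
  have hb : 1 ≤ ((Module.finrank ℚ P : ℝ) * Real.log x) ^ (1 / 3 : ℝ) :=
    Real.one_le_rpow (one_le_mul_of_one_le_of_one_le hP1R hL) (by norm_num)
  have hab : 1 ≤ (x : ℝ) ^ (2 / 3 : ℝ) *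
      ((Module.finrank ℚ P : ℝ) * Real.log x) ^ (1 / 3 : ℝ) :=
    one_le_mul_of_one_le_of_one_le ha hb
  have hW1 : C * (x : ℝ) ^ (2 / 3 : ℝ) * (Module.finrank ℚ P * Real.log x) ^ (1 / 3 : ℝ) ≤ W := by
    refine le_trans ?_ hW
    rw [mul_assoc, mul_assoc]
    exact mul_le_mul_of_nonneg_right (le_max_left _ _) (by linarith)
  have hW2 : 2 ≤ W := by
    have h1 : (2 : ℝ) ≤ W := by
      refine le_trans ?_ hW
      rw [mul_assoc]
      have h2 : (2 : ℝ) ≤ max C 2 := le_max_right _ _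
      nlinarith
    exact_mod_cast h1
  -- an odd index in the window
  obtain ⟨i, hi1, hi2, hi3⟩ : ∃ i : ℕ, Odd i ∧ x < i ∧ i ≤ x + W := by
    rcases Nat.even_or_odd x with h | h
    · exact ⟨x + 1, h.add_one, by omega, by omega⟩
    · exact ⟨x + 2, by rcases h with ⟨k, hk⟩; exact ⟨k + 1, by omega⟩, by omega, by omega⟩
  have hzi : zr i ∈ V := hV i hi1 hi2 hi3
  have hz0 : zr i ≠ 0 := (FIN_zr_pos i (by omega)).ne'
  have hVPf : Module.Finite ℚ (V * P : Submodule ℚ ℝ) :=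
    Module.Finite.iff_fg.mpr (Submodule.FG.mul (Module.Finite.iff_fg.mp inferInstance)
      (Module.Finite.iff_fg.mp inferInstance))
  have hle : Module.finrank ℚ P ≤ Module.finrank ℚ (V * P : Submodule ℚ ℝ) := by
    have hinj : Function.Injective (LinearMap.mulLeft ℚ (zr i)) := by
      intro u v huv
      simpa [hz0] using huv
    let f : P →ₗ[ℚ] (V * P : Submodule ℚ ℝ) :=
      ((LinearMap.mulLeft ℚ (zr i)).comp P.subtype).codRestrict (V * P : Submodule ℚ ℝ)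
        (fun v => Submodule.mul_mem_mul hzi v.2)
    have hf : Function.Injective f := by
      intro u v huv
      have h1 : (f u : ℝ) = f v := by rw [huv]
      exact Subtype.ext (hinj h1)
    exact LinearMap.finrank_le_finrank_of_injective hf
  -- the space `V P + P`
  have hW' : Module.finrank ℚ (V * P ⊔ P : Submodule ℚ ℝ) ≤
      2 * Module.finrank ℚ (V * P : Submodule ℚ ℝ) := by
    have h1 := Submodule.finrank_add_le_finrank_add_finrank (V * P : Submodule ℚ ℝ) P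
    omega
  have hdy : Module.finrank ℚ P ≤ Module.finrank ℚ (V * P ⊔ P : Submodule ℚ ℝ) :=
    Submodule.finrank_mono le_sup_right
  by_contra hcon
  rw [not_le] at hcon
  have hy : ((Module.finrank ℚ (V * P ⊔ P : Submodule ℚ ℝ) : ℕ) : ℝ) <
      c * (Module.finrank ℚ P : ℝ) ^ (1 / 3 : ℝ) * (W : ℝ) /
      ((x : ℝ) ^ (1 / 3 : ℝ) * (Real.log x) ^ (2 / 3 : ℝ)) := by
    have h1 : ((Module.finrank ℚ (V * P ⊔ P : Submodule ℚ ℝ) : ℕ) : ℝ) ≤
        2 * (Module.finrank ℚ (V * P : Submodule ℚ ℝ) : ℝ) := by exact_mod_cast hW'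
    have h2 : c * (Module.finrank ℚ P : ℝ) ^ (1 / 3 : ℝ) * (W : ℝ) /
      ((x : ℝ) ^ (1 / 3 : ℝ) * (Real.log x) ^ (2 / 3 : ℝ)) =
      2 * (c / 2 * (Module.finrank ℚ P : ℝ) ^ (1 / 3 : ℝ) * (W : ℝ) /
      ((x : ℝ) ^ (1 / 3 : ℝ) * (Real.log x) ^ (2 / 3 : ℝ))) := by ring
    rw [h2]
    linarith
  obtain ⟨B, H, a, S, f0, hB, hBH, h1x, hxS, haS, hI1, hI2, hf0, hfin⟩ :=
    hnum x W _ _ hP1 hdy hx0 hW1 hWx hy
  have hcc := hcore B H a S x f0 P (V * P ⊔ P : Submodule ℚ ℝ) hB hBH h1x hxS le_sup_right hP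
    hI1 hI2 hf0 (by
      intro n hn hxn v hv
      rw [haS, oddS, mem_filter, mem_Icc] at hn
      exact Submodule.mem_sup_left (Submodule.mul_mem_mul (hV n hn.2 hxn hn.1.2) hv))
  linarith

end Pool.Agent.DW
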