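import Pool.Agent.DW.Defs
import Pool.Agent.DK.LINK

/-!
# DW: the rows over a field of characteristic zero are casts of the rational rows
-/

namespace Pool.Agent.DW

open Finset Polynomial Pool.Agent.ZC Pool.Agent.SI Pool.Agent.DM Pool.Agent.DK

section cast

variable (K : Type) [Field K] [CharZero K]

theorem pm_wP (M p n β κ j : ℕ) :
    (wP ℚ M p n β κ j).map (Rat.castHom K) = wP K M p n β κ j := by
  simp [wP, pw, wpol, tp, pm_Cn, Polynomial.map_comp]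

theorem ps_loc (l : ℕ) (f : ℚ[X]) : ps K (loc ℚ l f) = loc K l (f.map (Rat.castHom K)) := by
  rw [loc_apply, loc_apply]
  ext m
  rw [ps_coeff, Polynomial.coeff_coe, Polynomial.coeff_coe, ← Rat.coe_castHom,
    ← Polynomial.coeff_map, Polynomial.map_comp]
  simp

theorem pm_hasse (m : ℕ) (f : ℚ[X]) :
    (hasseDeriv m f).map (Rat.castHom K) = hasseDeriv m (f.map (Rat.castHom K)) := by
  ext i
  rw [Polynomial.coeff_map, hasseDeriv_coeff, hasseDeriv_coeff, Polynomial.coeff_map]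
  simp

theorem ev_hasse (m : ℕ) (t0 : ℚ) (f : ℚ[X]) :
    (((hasseDeriv m f).eval t0 : ℚ) : K) =
      (hasseDeriv m (f.map (Rat.castHom K))).eval (t0 : K) := by
  rw [← pm_hasse, ← Rat.coe_castHom, Polynomial.eval_map_apply]

theorem pm_ddq (κ : ℕ) (t0 : ℚ) (f : ℚ[X]) :
    (ddq κ t0 f).map (Rat.castHom K) = ddq κ (t0 : K) (f.map (Rat.castHom K)) := by
  rw [ddq, ddq, Polynomial.map_sum, Polynomial.natDegree_map]
  refine sum_congr rfl fun m _ => ?_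
  rw [Polynomial.map_mul, Polynomial.map_pow, Polynomial.map_sub, Polynomial.map_X,
    Polynomial.map_C, Polynomial.map_C, Rat.coe_castHom, ev_hasse]

theorem cast_aco (κ r : ℕ) (t0 : ℚ) (f : ℚ[X]) :
    ((aco κ r t0 f : ℚ) : K) = aco κ r (t0 : K) (f.map (Rat.castHom K)) := by
  rw [aco, aco]
  split_ifs
  · rw [← ev_hasse]
    push_cast
    rfl
  · exact Rat.cast_zero

theorem cast_tpt (p β k : ℕ) : ((tpt ℚ p β k : ℚ) : K) = tpt K p β k := by
  simp [tpt]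

theorem ps_gW (M p n β κ j l : ℕ) :
    ps K (gW ℚ M p n β κ j l) = gW K M p n β κ j l := by
  rw [gW, gW, map_mul, map_sub, map_sum, map_sum]
  congr 1
  · ext m
    rw [ps_coeff, PowerSeries.coeff_C, PowerSeries.coeff_C]
    split_ifs
    · push_cast
      rfl
    · exact Rat.cast_zero
  · congr 1
    · refine sum_congr rfl fun k _ => ?_
      rw [ps_loc, pm_ddq, pm_wP]
      congr 2
      push_cast
      rfl
    · refine sum_congr rfl fun k _ => ?_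
      rw [ps_loc, pm_ddq, pm_wP]
      congr 2
      push_cast
      rfl

theorem ps_yW (M p n T : ℕ) (c : ℕ → ℚ) (β κ j l : ℕ) :
    ps K (yW ℚ M p n T c β κ j l) = yW K M p n T (fun i => (c i : K)) β κ j l := by
  rw [yW, yW, map_mul, ps_loc, pm_wP, ps_hs, ps_zs]

end cast

theorem yW_lin (K : Type) [Field K] (M p n T : ℕ) (c : ℕ → K) (β κ j l : ℕ) :
    yW K M p n T c β κ j l =
      ∑ i ∈ oddS T, PowerSeries.C (c i) * yW K M p n T (Pi.single i 1) β κ j l := by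
  rw [yW, zs_lin, hsK_sum, mul_sum]
  refine sum_congr rfl fun i _ => ?_
  rw [hsK_C, yW]
  ring

variable (K : Type) [Field K] [CharZero K]

theorem dw_lin_y (M p n T : ℕ) (c : ℕ → K) (β κ j l m : ℕ) :
    PowerSeries.coeff m (yW K M p n T c β κ j l) =
      ∑ i ∈ oddS T, c i *
        ((PowerSeries.coeff m (yW ℚ M p n T (Pi.single i 1) β κ j l) : ℚ) : K) := by
  rw [yW_lin, map_sum]
  refine sum_congr rfl fun i _ => ?_
  rw [PowerSeries.coeff_C_mul, ← ps_coeff, ps_yW, cast_single]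

theorem dw_cast_g (M p n β κ j l m : ℕ) :
    PowerSeries.coeff m (gW K M p n β κ j l) =
      ((PowerSeries.coeff m (gW ℚ M p n β κ j l) : ℚ) : K) := by
  rw [← ps_coeff, ps_gW]

theorem dw_cast_a (M p n β κ j k r : ℕ) :
    aco κ r (tpt K p β k) (wP K M p n β κ j) =
      ((aco κ r (tpt ℚ p β k) (wP ℚ M p n β κ j) : ℚ) : K) := by
  rw [cast_aco, cast_tpt, pm_wP]

/-! ### coordinates of the rows -/

section

variable {P : Type*} [AddCommGroup P] [Module ℚ P]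

/-- a coordinate of the row of `v` -/
noncomputable def wrow (M p n T : ℕ) (q : P →ₗ[ℚ] ℚ) (c : ℕ → P →ₗ[ℚ] ℚ) (v : P)
    (β κ j l m : ℕ) : ℚ :=
  PowerSeries.coeff m (yW ℚ M p n T (fun i => c i v) β κ j l - q v • gW ℚ M p n β κ j l)

theorem wrow_eq (M p n T : ℕ) (q : P →ₗ[ℚ] ℚ) (c : ℕ → P →ₗ[ℚ] ℚ) (v : P) (β κ j l m : ℕ) :
    wrow M p n T q c v β κ j l m =
      ∑ i ∈ oddS T, c i v * PowerSeries.coeff m (yW ℚ M p n T (Pi.single i 1) β κ j l) -
        q v * PowerSeries.coeff m (gW ℚ M p n β κ j l) := by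
  rw [wrow, map_sub, PowerSeries.coeff_smul, dw_lin_y ℚ]
  simp only [Rat.cast_id, smul_eq_mul]

theorem wrow_sum (M p n T : ℕ) (q : P →ₗ[ℚ] ℚ) (c : ℕ → P →ₗ[ℚ] ℚ) {ι : Type*} (s : Finset ι)
    (a : ι → ℚ) (v : ι → P) (β κ j l m : ℕ) :
    wrow M p n T q c (∑ i ∈ s, a i • v i) β κ j l m =
      ∑ i ∈ s, a i * wrow M p n T q c (v i) β κ j l m := by
  simp only [wrow_eq, map_sum, map_smul, smul_eq_mul, mul_sub, sum_mul, mul_sum,
    sum_sub_distrib]
  congr 1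
  · rw [sum_comm]
    exact sum_congr rfl fun i _ => sum_congr rfl fun n _ => by ring
  · exact sum_congr rfl fun i _ => by ring

theorem wrow_real (M p n T : ℕ) (q : P →ₗ[ℚ] ℚ) (c : ℕ → P →ₗ[ℚ] ℚ) (v : P) (β κ j l m : ℕ) :
    ((wrow M p n T q c v β κ j l m : ℚ) : ℝ) =
      ∑ i ∈ oddS T, (c i v : ℝ) *
        ((PowerSeries.coeff m (yW ℚ M p n T (Pi.single i 1) β κ j l) : ℚ) : ℝ) -
        (q v : ℝ) * ((PowerSeries.coeff m (gW ℚ M p n β κ j l) : ℚ) : ℝ) := by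
  rw [wrow_eq]
  push_cast
  rfl

theorem wrow_bd (M p n T : ℕ) (q : P →ₗ[ℚ] ℚ) (c : ℕ → P →ₗ[ℚ] ℚ) (v : P) (β κ j l m : ℕ) (N : ℝ)
    (h1 : |((PowerSeries.coeff m (gW ℚ M p n β κ j l) : ℚ) : ℝ)| ≤ N)
    (h2 : ∀ i ∈ oddS T,
      |((PowerSeries.coeff m (yW ℚ M p n T (Pi.single i 1) β κ j l) : ℚ) : ℝ)| ≤ N) :
    |((wrow M p n T q c v β κ j l m : ℚ) : ℝ)| ≤
      (|(q v : ℝ)| + ∑ i ∈ oddS T, |(c i v : ℝ)|) * N := by
  rw [wrow_real, add_mul, sum_mul]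
  have e1 : |(q v : ℝ) * ((PowerSeries.coeff m (gW ℚ M p n β κ j l) : ℚ) : ℝ)| ≤
      |(q v : ℝ)| * N := by
    rw [abs_mul]
    exact mul_le_mul_of_nonneg_left h1 (abs_nonneg _)
  have e2 : |∑ i ∈ oddS T, (c i v : ℝ) *
        ((PowerSeries.coeff m (yW ℚ M p n T (Pi.single i 1) β κ j l) : ℚ) : ℝ)| ≤
      ∑ i ∈ oddS T, |(c i v : ℝ)| * N := by
    refine (abs_sum_le_sum_abs _ _).trans (sum_le_sum fun i hi => ?_)
    rw [abs_mul]
    exact mul_le_mul_of_nonneg_left (h2 i hi) (abs_nonneg _)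
  have e3 := abs_sub (∑ i ∈ oddS T, (c i v : ℝ) *
        ((PowerSeries.coeff m (yW ℚ M p n T (Pi.single i 1) β κ j l) : ℚ) : ℝ))
    ((q v : ℝ) * ((PowerSeries.coeff m (gW ℚ M p n β κ j l) : ℚ) : ℝ))
  linarith

end

end Pool.Agent.DW
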