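import Pool.Agent.DW.FAR
import Pool.Agent.SI.POL

/-!
# DW: the real row, far part

`(w0 - w)^(-κ-1) + (-1)^κ (w0 + w)^(-κ-1) = 2 ∑_{μ ≥ 0} C(κ+e+2μ, κ) w^(e+2μ) w0^(-κ-1-e-2μ)`,
`e = κ % 2`; times `w^e Cn_j(w^2) b^(4n)`: power series in `y = w^2`; the terms `y^ν`, `ν < n`, form
`Q`. Absolute convergence: `|w| ≤ 2p - 1 < 4p ≤ w0`.
-/

namespace Pool.Agent.DW

open Finset Polynomial Pool.Agent.ZC Pool.Agent.SI Pool.Agent.DM

private theorem sr2_hc {ι : Type*} {f g : ι → ℝ} {a : ℝ} (h : ∀ x, f x = g x) (hs : HasSum g a) :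
    HasSum f a := by
  have : f = g := funext h
  rw [this]; exact hs

/-- one kernel: the expansion in `a` -/
private theorem sr2_ker (κ m : ℕ) (a w : ℝ) (hw : 0 < w) (ha : |a| < w) :
    HasSum (fun i : ℕ => ((i + κ).choose κ : ℝ) * (w ^ (i + κ + 1))⁻¹ *
        (((i.choose m : ℕ) : ℝ) * a ^ (i - m)))
      (((m + κ).choose κ : ℝ) * ((w - a) ^ (m + κ + 1))⁻¹) := by
  have hr : ‖a / w‖ < 1 := by
    rw [Real.norm_eq_abs, abs_div, abs_of_pos hw, div_lt_one hw]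
    exact ha
  have h := hasSum_choose_mul_geometric_of_norm_lt_one (m + κ) hr
  have h2 := h.mul_left (((m + κ).choose κ : ℝ) * (w ^ (m + κ + 1))⁻¹)
  have hne : w - a ≠ 0 := by
    have := (abs_lt.mp ha).2
    linarith
  have e1 : ((m + κ).choose κ : ℝ) * (w ^ (m + κ + 1))⁻¹ * (1 / (1 - a / w) ^ (m + κ + 1)) =
      ((m + κ).choose κ : ℝ) * ((w - a) ^ (m + κ + 1))⁻¹ := by
    have h3 : 1 - a / w = (w - a) / w := by field_simp
    rw [h3, div_pow, mul_assoc]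
    congr 1
    field_simp
  rw [e1] at h2
  have hinj : Function.Injective (fun s : ℕ => s + m) := add_left_injective m
  refine (hinj.hasSum_iff ?_).mp ?_
  · intro x hx
    have hx' : x < m := by
      by_contra hh
      exact hx ⟨x - m, Nat.sub_add_cancel (not_lt.mp hh)⟩
    rw [Nat.choose_eq_zero_of_lt hx']
    simp
  · refine sr2_hc ?_ h2
    intro s
    simp only [Function.comp]
    have h4 : ((s + m + κ).choose κ) * ((s + m).choose m) = (m + κ).choose κ * (s + (m + κ)).choose (m + κ) := by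
      have h5 := Nat.choose_mul (n := s + m + κ) (k := m + κ) (s := κ) (by omega)
      have h6 : s + m + κ - κ = s + m := by omega
      have h7 : m + κ - κ = m := by omega
      rw [h6, h7] at h5
      rw [← h5, ← add_assoc, mul_comm]
    have h8 : (((s + m + κ).choose κ : ℕ) : ℝ) * (((s + m).choose m : ℕ) : ℝ) =
        (((m + κ).choose κ : ℕ) : ℝ) * (((s + (m + κ)).choose (m + κ) : ℕ) : ℝ) := by exact_mod_cast h4
    have h9 : (w ^ (s + m + κ + 1))⁻¹ * a ^ (s + m - m) = (w ^ (m + κ + 1))⁻¹ * (a / w) ^ s := by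
      rw [Nat.add_sub_cancel, div_pow, show s + m + κ + 1 = s + (m + κ + 1) by ring, pow_add]
      field_simp
    calc _ = ((((s + m + κ).choose κ : ℕ) : ℝ) * (((s + m).choose m : ℕ) : ℝ)) *
          ((w ^ (s + m + κ + 1))⁻¹ * a ^ (s + m - m)) := by ring
      _ = _ := by rw [h8, h9]; ring

/-- the even or odd part -/
private theorem sr2_two (κ m : ℕ) (a w : ℝ) (hw : 0 < w) (ha : |a| < w) :
    HasSum (fun μ : ℕ => 2 * ((κ + κ % 2 + 2 * μ).choose κ : ℝ) * (w ^ (κ + 1 + κ % 2 + 2 * μ))⁻¹ *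
        ((((κ % 2 + 2 * μ).choose m : ℕ) : ℝ) * a ^ (κ % 2 + 2 * μ - m)))
      (((m + κ).choose κ : ℝ) * (((w - a) ^ (m + κ + 1))⁻¹ +
        (-1) ^ (κ + m) * ((w + a) ^ (m + κ + 1))⁻¹)) := by
  have h1 := sr2_ker κ m a w hw ha
  have h2 := (sr2_ker κ m (-a) w hw (by rwa [abs_neg])).mul_left ((-1) ^ (κ + m))
  have h3 := h1.add h2
  have hinj : Function.Injective (fun μ : ℕ => κ % 2 + 2 * μ) := by
    intro x y hxy
    simp only at hxy
    omega
  have e : ((m + κ).choose κ : ℝ) * ((w - a) ^ (m + κ + 1))⁻¹ +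
      (-1) ^ (κ + m) * (((m + κ).choose κ : ℝ) * ((w - -a) ^ (m + κ + 1))⁻¹) =
      ((m + κ).choose κ : ℝ) * (((w - a) ^ (m + κ + 1))⁻¹ +
        (-1) ^ (κ + m) * ((w + a) ^ (m + κ + 1))⁻¹) := by
    rw [sub_neg_eq_add]; ring
  rw [e] at h3
  have h4 : ∀ i : ℕ, ((i + κ).choose κ : ℝ) * (w ^ (i + κ + 1))⁻¹ *
        (((i.choose m : ℕ) : ℝ) * a ^ (i - m)) + (-1) ^ (κ + m) * (((i + κ).choose κ : ℝ) *
        (w ^ (i + κ + 1))⁻¹ * (((i.choose m : ℕ) : ℝ) * (-a) ^ (i - m))) =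
      (1 + (-1) ^ (κ + i)) * (((i + κ).choose κ : ℝ) * (w ^ (i + κ + 1))⁻¹ *
        (((i.choose m : ℕ) : ℝ) * a ^ (i - m))) := by
    intro i
    by_cases hi : i < m
    · rw [Nat.choose_eq_zero_of_lt hi]; simp
    · rw [neg_pow a]
      have : (-1 : ℝ) ^ (κ + m) * (-1) ^ (i - m) = (-1) ^ (κ + i) := by
        rw [← pow_add]; congr 1; omega
      rw [← this]; ring
  have h5 := sr2_hc (fun i => (h4 i).symm) h3
  have h6 := (hinj.hasSum_iff ?_).mpr h5
  · refine sr2_hc ?_ h6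
    intro μ
    simp only [Function.comp]
    have h7 : (-1 : ℝ) ^ (κ + (κ % 2 + 2 * μ)) = 1 := by
      apply Even.neg_one_pow
      rw [Nat.even_iff]; omega
    rw [h7, show κ % 2 + 2 * μ + κ = κ + κ % 2 + 2 * μ by ring,
      show κ + κ % 2 + 2 * μ + 1 = κ + 1 + κ % 2 + 2 * μ by ring]
    ring
  · intro x hx
    have h8 : (-1 : ℝ) ^ (κ + x) = -1 := by
      apply Odd.neg_one_pow
      rw [Nat.odd_iff]
      by_contra hh
      exact hx ⟨(x - κ % 2) / 2, by simp only; omega⟩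
    rw [h8]; ring

private theorem sr2_w0 (p β k : ℕ) (a : ℝ) (ha : a ≤ 2 * p) :
    ((k : ℝ) + 1) / (2 * β + 1) ≤ w0F p β k - a := by
  unfold w0F
  have hb : (0 : ℝ) < 2 * β + 1 := by positivity
  rw [le_sub_iff_add_le, ← sub_nonneg]
  have e : (2 * ((k : ℝ) + 2 * (2 * β + 1) * p) + 1) / (2 * β + 1) - ((k + 1) / (2 * β + 1) + a) =
      k / (2 * β + 1) + (2 * p - a) + 2 * p := by
    field_simp
    ring
  rw [e]
  have h1 : (0 : ℝ) ≤ k / (2 * β + 1) := by positivity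
  have h2 : (0 : ℝ) ≤ p := by positivity
  linarith

private theorem sr2_sm (p β q : ℕ) (hq : 1 < q) (a : ℝ) (ha0 : 0 ≤ a) (ha : a ≤ 2 * p) :
    Summable (fun k : ℕ => ((w0F p β k - a) ^ q)⁻¹) ∧
      Summable (fun k : ℕ => ((w0F p β k + a) ^ q)⁻¹) := by
  have hb : (0 : ℝ) < 2 * β + 1 := by positivity
  have hs : Summable fun k : ℕ => (((((k : ℝ) + 1) / (2 * β + 1)) ^ q))⁻¹ := by
    have h1 : Summable fun k : ℕ => (2 * (β : ℝ) + 1) ^ q * (1 / (((k + 1 : ℕ) : ℝ)) ^ q) :=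
      ((summable_nat_add_iff 1).mpr (Real.summable_one_div_nat_pow.mpr hq)).mul_left _
    refine h1.congr fun k => ?_
    push_cast
    rw [div_pow]
    field_simp
  have hk : ∀ k : ℕ, (0 : ℝ) < ((k : ℝ) + 1) / (2 * β + 1) := fun k => by positivity
  constructor
  · refine Summable.of_nonneg_of_le (fun k => ?_) (fun k => ?_) hs
    · have := (hk k).trans_le (sr2_w0 p β k a ha)
      positivity
    · have := sr2_w0 p β k a ha
      have h2 := hk k
      gcongr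
  · refine Summable.of_nonneg_of_le (fun k => ?_) (fun k => ?_) hs
    · have := (hk k).trans_le (sr2_w0 p β k a ha)
      have h3 : 0 < w0F p β k + a := by linarith
      positivity
    · have := sr2_w0 p β k a ha
      have h2 := hk k
      have h4 : ((k : ℝ) + 1) / (2 * β + 1) ≤ w0F p β k + a := by linarith
      gcongr

private theorem sr2_sum (p β κ m : ℕ) (hκ : 1 ≤ κ) (a : ℝ) (ha0 : 0 ≤ a) (ha : a ≤ 2 * p) :
    Summable fun k : ℕ => 2 ^ (κ + 1) * ((m + κ).choose κ : ℝ) * 2 ^ m *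
    (((w0F p β k - a) ^ (m + κ + 1))⁻¹ +
      (-1) ^ (κ + m) * ((w0F p β k + a) ^ (m + κ + 1))⁻¹) := by
  obtain ⟨h1, h2⟩ := sr2_sm p β (m + κ + 1) (by omega) a ha0 ha
  exact (h1.add (h2.mul_left _)).mul_left _

/-- the core: expansion of the coefficients of the far kernels -/
private theorem sr2_core (p β κ m l : ℕ) (hκ : 1 ≤ κ) (hl : l < p) :
    HasSum (fun μ : ℕ => 2 ^ (κ + 2) * ((κ + κ % 2 + 2 * μ).choose κ : ℝ) *
        farS p β (κ + 1 + κ % 2 + 2 * μ) * (2 ^ m * (2 * (p : ℝ) - 1 - 2 * l) ^ (κ % 2 + 2 * μ - m) *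
          (((κ % 2 + 2 * μ).choose m : ℕ) : ℝ)))
      (fkc p β κ l m) := by
  set a : ℝ := 2 * (p : ℝ) - 1 - 2 * l with ha
  have hlp : (l : ℝ) + 1 ≤ p := by exact_mod_cast hl
  have ha0 : 0 ≤ a := by linarith
  have ha2 : a ≤ 2 * p := by
    have : (0 : ℝ) ≤ l := by positivity
    linarith
  have hw : ∀ k, 0 < w0F p β k - a := fun k =>
    lt_of_lt_of_le (by positivity) (sr2_w0 p β k a ha2)
  set F : ℕ → ℕ → ℝ := fun k μ => 2 ^ (κ + 2) * ((κ + κ % 2 + 2 * μ).choose κ : ℝ) *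
    (w0F p β k ^ (κ + 1 + κ % 2 + 2 * μ))⁻¹ * (2 ^ m * a ^ (κ % 2 + 2 * μ - m) *
          (((κ % 2 + 2 * μ).choose m : ℕ) : ℝ)) with hF
  have hF0 : ∀ k μ, 0 ≤ F k μ := by
    intro k μ
    have := hw k
    have h2 : 0 < w0F p β k := by linarith
    simp only [hF]
    positivity
  have h1 : ∀ k, HasSum (F k) (2 ^ (κ + 1) * ((m + κ).choose κ : ℝ) * 2 ^ m *
    (((w0F p β k - a) ^ (m + κ + 1))⁻¹ +
      (-1) ^ (κ + m) * ((w0F p β k + a) ^ (m + κ + 1))⁻¹)) := by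
    intro k
    have h2 : 0 < w0F p β k := by linarith [hw k]
    have h3 := (sr2_two κ m a (w0F p β k) h2 (by rw [abs_of_nonneg ha0]; linarith [hw k])).mul_left
      (2 ^ (κ + 1) * 2 ^ m)
    have e : 2 ^ (κ + 1) * ((m + κ).choose κ : ℝ) * 2 ^ m *
    (((w0F p β k - a) ^ (m + κ + 1))⁻¹ +
      (-1) ^ (κ + m) * ((w0F p β k + a) ^ (m + κ + 1))⁻¹) = 2 ^ (κ + 1) * 2 ^ m *
      (((m + κ).choose κ : ℝ) * (((w0F p β k - a) ^ (m + κ + 1))⁻¹ +
        (-1) ^ (κ + m) * ((w0F p β k + a) ^ (m + κ + 1))⁻¹)) := by ring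
    rw [e]
    refine sr2_hc (fun μ => ?_) h3
    simp only [hF]
    ring
  have hsum : Summable (fun x : ℕ × ℕ => F x.1 x.2) := by
    rw [summable_prod_of_nonneg (fun x => hF0 x.1 x.2)]
    refine ⟨fun k => (h1 k).summable, ?_⟩
    have : (fun k => ∑' μ, F k μ) = fun k => 2 ^ (κ + 1) * ((m + κ).choose κ : ℝ) * 2 ^ m *
        (((w0F p β k - a) ^ (m + κ + 1))⁻¹ +
      (-1) ^ (κ + m) * ((w0F p β k + a) ^ (m + κ + 1))⁻¹) := by
      funext k
      exact (h1 k).tsum_eq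
    rw [this]
    exact sr2_sum p β κ m hκ a ha0 ha2
  have hval : ∑' x : ℕ × ℕ, F x.1 x.2 = fkc p β κ l m := by
    rw [hsum.tsum_prod' (fun k => (h1 k).summable)]
    unfold fkc
    refine tsum_congr fun k => ?_
    rw [← ha]
    exact (h1 k).tsum_eq
  have h4 : HasSum (fun x : ℕ × ℕ => F x.1 x.2) (fkc p β κ l m) := by
    rw [← hval]; exact hsum.hasSum
  have h5 : HasSum ((fun x : ℕ × ℕ => F x.1 x.2) ∘ (Equiv.prodComm ℕ ℕ)) (fkc p β κ l m) :=
    (Equiv.hasSum_iff (Equiv.prodComm ℕ ℕ)).mpr h4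
  refine h5.prod_fiberwise fun μ => ?_
  simp only [Function.comp, Equiv.prodComm_apply, Prod.swap_prod_mk]
  have hq : 1 < κ + 1 + κ % 2 + 2 * μ := by omega
  have hS : Summable fun k : ℕ => 1 / (((2 * ((k : ℝ) + 2 * (2 * β + 1) * p) + 1) / (2 * β + 1)) ^ (κ + 1 + κ % 2 + 2 * μ)) := by
    have h7 := (sr2_sm p β (κ + 1 + κ % 2 + 2 * μ) hq 0 le_rfl (by positivity)).2
    refine h7.congr fun k => ?_
    rw [add_zero, w0F, one_div]
  have h6 := ((hS.hasSum.mul_left (2 ^ (κ + 2) * ((κ + κ % 2 + 2 * μ).choose κ : ℝ))).mul_right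
    (2 ^ m * a ^ (κ % 2 + 2 * μ - m) * (((κ % 2 + 2 * μ).choose m : ℕ) : ℝ)))
  refine sr2_hc (fun k => ?_) h6
  simp only [hF, w0F, one_div]

private theorem sr2_ev_mul (p l : ℕ) (f g : Polynomial ℝ) :
    ev ℝ p l (f * g) = ev ℝ p l f * ev ℝ p l g := by
  unfold ev
  rw [map_mul]

private theorem sr2_ev_C (p l : ℕ) (c : ℝ) :
    ev ℝ p l (Polynomial.C c) = PowerSeries.C c := by
  unfold ev
  rw [Polynomial.aeval_C]
  rfl

private theorem sr2_ev_sum {ι : Type*} (s : Finset ι) (p l : ℕ)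
    (f : ι → Polynomial ℝ) : ev ℝ p l (∑ i ∈ s, f i) = ∑ i ∈ s, ev ℝ p l (f i) := by
  unfold ev
  rw [map_sum]

/-- coefficientwise sums pass through a multiplication -/
private theorem sr2_mul (A : PowerSeries ℝ) (g : ℕ → ℝ) (u : ℕ → PowerSeries ℝ)
    (F : PowerSeries ℝ)
    (h : ∀ r, HasSum (fun κ => g κ * PowerSeries.coeff r (u κ)) (PowerSeries.coeff r F)) :
    ∀ N, HasSum (fun κ => g κ * PowerSeries.coeff N (A * u κ))
      (PowerSeries.coeff N (A * F)) := by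
  intro N
  have h1 : (fun κ => g κ * PowerSeries.coeff N (A * u κ)) = fun κ =>
      ∑ x ∈ antidiagonal N, PowerSeries.coeff x.1 A * (g κ * PowerSeries.coeff x.2 (u κ)) := by
    funext κ
    rw [PowerSeries.coeff_mul, Finset.mul_sum]
    exact Finset.sum_congr rfl fun x _ => by ring
  rw [h1, PowerSeries.coeff_mul]
  refine hasSum_sum fun x hx => ?_
  exact (h x.2).mul_left _

private theorem sr2_loc (M p n β κ j l : ℕ) :
    loc ℝ l (wP ℝ M p n β κ j) = PowerSeries.C ((2 * (β : ℝ) + 1) ^ (4 * n)) *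
      ∑ i ∈ range (j + 1), PowerSeries.C ((Cn ℝ M j).coeff i) * hl ℝ p l ^ (κ % 2 + 2 * i) := by
  have h0 : (Cn ℝ M j).natDegree < j + 1 :=
    Nat.lt_succ_of_le (natDegree_le_of_degree_le (Cn_degree (K := ℝ) M j).le)
  have h1 : loc ℝ l ((Cn ℝ M j).comp (tp ℝ p)) =
      ∑ i ∈ range (j + 1), PowerSeries.C ((Cn ℝ M j).coeff i) * hl ℝ p l ^ (2 * i) := by
    rw [← ev_eq_loc]
    conv_lhs => rw [Polynomial.as_sum_range' (Cn ℝ M j) (j + 1) h0]
    rw [sr2_ev_sum]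
    refine sum_congr rfl fun i _ => ?_
    rw [← Polynomial.C_mul_X_pow_eq_monomial, sr2_ev_mul, sr2_ev_C]
    congr 1
    unfold ev
    rw [map_pow, Polynomial.aeval_X, yl_eq_hl_sq, ← pow_mul]
  have h2 : loc ℝ l (C ((2 * (β : ℝ) + 1) ^ (4 * n))) =
      PowerSeries.C ((2 * (β : ℝ) + 1) ^ (4 * n)) := by
    rw [loc_apply, Polynomial.C_comp, Polynomial.coe_C]
  rw [wP, pw, map_mul (loc ℝ l), h2, map_mul (loc ℝ l), map_pow (loc ℝ l), loc_wpol, h1]
  congr 1
  rw [Finset.mul_sum]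
  refine sum_congr rfl fun i _ => ?_
  have h3 : wl ℝ p l = hl ℝ p l := rfl
  rw [h3, pow_add]
  ring

theorem sr_two (M p n β κ j : ℕ) (hp : 1 ≤ p) (hκ : 1 ≤ κ) (hj : j < n) :
    ∃ Q ∈ Polynomial.degreeLT ℝ n, ∀ l < p, ∀ m,
      HasSum (fun κ' : ℕ => lamW M p n β κ j κ' *
          PowerSeries.coeff m (yl ℝ p l ^ (n + κ')))
        (PowerSeries.coeff m (farW M p n β κ j l) - PowerSeries.coeff m (ev ℝ p l Q)) := by
  set e := κ % 2 with he
  set G : ℕ → ℝ := fun μ => 2 ^ (κ + 2) * ((κ + e + 2 * μ).choose κ : ℝ) *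
    farS p β (κ + 1 + e + 2 * μ) with hG
  set B : ℝ := (2 * (β : ℝ) + 1) ^ (4 * n) with hB
  refine ⟨∑ i ∈ range (j + 1), ∑ μ ∈ range (n - e - i),
    C (B * ((Cn ℝ M j).coeff i * G μ)) * X ^ (e + i + μ), ?_, ?_⟩
  · refine Submodule.sum_mem _ fun i hi => Submodule.sum_mem _ fun μ hμ => ?_
    rw [mem_range] at hμ
    rw [Polynomial.mem_degreeLT]
    refine lt_of_le_of_lt (Polynomial.degree_C_mul_X_pow_le _ _) ?_
    exact_mod_cast (by omega : e + i + μ < n)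
  · intro l hl' m
    have h0 : ∀ r, HasSum (fun μ => G μ * PowerSeries.coeff r (hl ℝ p l ^ (e + 2 * μ)))
        (PowerSeries.coeff r (PowerSeries.mk (fkc p β κ l))) := by
      intro r
      rw [PowerSeries.coeff_mk]
      refine sr2_hc (fun μ => ?_) (sr2_core p β κ r l hκ hl')
      rw [hl, POL_coeff_lin]
    have h1 : ∀ i, HasSum (fun μ => G μ * PowerSeries.coeff m (yl ℝ p l ^ (e + i + μ)))
        (PowerSeries.coeff m (hl ℝ p l ^ (e + 2 * i) * PowerSeries.mk (fkc p β κ l))) := by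
      intro i
      refine sr2_hc (fun μ => ?_) (sr2_mul (hl ℝ p l ^ (e + 2 * i)) _ _ _ h0 m)
      rw [← pow_add, yl_eq_hl_sq, ← pow_mul]
      congr 3
      ring
    have h2 : ∀ i ∈ range (j + 1), HasSum (fun κ' => B * ((Cn ℝ M j).coeff i *
          (G (n + κ' - e - i) * PowerSeries.coeff m (yl ℝ p l ^ (n + κ')))))
        (B * ((Cn ℝ M j).coeff i * (PowerSeries.coeff m (hl ℝ p l ^ (e + 2 * i) *
            PowerSeries.mk (fkc p β κ l)) -
          ∑ μ ∈ range (n - e - i), G μ * PowerSeries.coeff m (yl ℝ p l ^ (e + i + μ))))) := by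
      intro i hi
      rw [mem_range] at hi
      have h3 := (hasSum_nat_add_iff' (n - e - i)).mpr (h1 i)
      refine ((sr2_hc (fun κ' => ?_) h3).mul_left _).mul_left _
      have he1 : e < 2 := Nat.mod_lt _ (by norm_num)
      by_cases hc : e + i ≤ n
      · rw [show κ' + (n - e - i) = n + κ' - e - i by omega,
          show e + i + (n + κ' - e - i) = n + κ' by omega]
      · omega
    have h4 := hasSum_sum h2
    have h5 : PowerSeries.coeff m (farW M p n β κ j l) -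
        PowerSeries.coeff m (ev ℝ p l (∑ i ∈ range (j + 1), ∑ μ ∈ range (n - e - i),
          C (B * ((Cn ℝ M j).coeff i * G μ)) * X ^ (e + i + μ))) =
        ∑ i ∈ range (j + 1), B * ((Cn ℝ M j).coeff i * (PowerSeries.coeff m
          (hl ℝ p l ^ (e + 2 * i) * PowerSeries.mk (fkc p β κ l)) -
          ∑ μ ∈ range (n - e - i), G μ * PowerSeries.coeff m (yl ℝ p l ^ (e + i + μ)))) := by
      have h6 : PowerSeries.coeff m (farW M p n β κ j l) = ∑ i ∈ range (j + 1), B *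
          ((Cn ℝ M j).coeff i * PowerSeries.coeff m
          (hl ℝ p l ^ (e + 2 * i) * PowerSeries.mk (fkc p β κ l))) := by
        rw [farW, sr2_loc, mul_assoc, PowerSeries.coeff_C_mul, Finset.sum_mul, map_sum,
          Finset.mul_sum]
        refine sum_congr rfl fun i _ => ?_
        rw [mul_assoc, PowerSeries.coeff_C_mul]
      have h7 : PowerSeries.coeff m (ev ℝ p l (∑ i ∈ range (j + 1), ∑ μ ∈ range (n - e - i),
          C (B * ((Cn ℝ M j).coeff i * G μ)) * X ^ (e + i + μ))) =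
          ∑ i ∈ range (j + 1), B * ((Cn ℝ M j).coeff i *
            ∑ μ ∈ range (n - e - i), G μ * PowerSeries.coeff m (yl ℝ p l ^ (e + i + μ))) := by
        rw [sr2_ev_sum, map_sum]
        refine sum_congr rfl fun i _ => ?_
        rw [sr2_ev_sum, map_sum, Finset.mul_sum, Finset.mul_sum]
        refine sum_congr rfl fun μ _ => ?_
        rw [sr2_ev_mul, sr2_ev_C, PowerSeries.coeff_C_mul]
        have h8 : ev ℝ p l (X ^ (e + i + μ)) = yl ℝ p l ^ (e + i + μ) := by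
          unfold ev
          rw [map_pow, Polynomial.aeval_X]
        rw [h8]
        ring
      rw [h6, h7, ← Finset.sum_sub_distrib]
      refine sum_congr rfl fun i _ => ?_
      ring
    rw [h5]
    refine sr2_hc (fun κ' => ?_) h4
    rw [lamW, Finset.mul_sum, Finset.sum_mul]
    refine sum_congr rfl fun i _ => ?_
    simp only [hG, ← he, ← hB]
    ring

end Pool.Agent.DW
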