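import Pool.Agent.DW.SR1
import Pool.Agent.DW.SR2
import Pool.Agent.DM.ONE

/-!
# DW: the real row
-/

namespace Pool.Agent.DW

open Finset Polynomial Pool.Agent.ZC Pool.Agent.SI Pool.Agent.DM

theorem dw_ser (M p n T S β κ j : ℕ) (hp : 1 ≤ p) (hκ : 1 ≤ κ) (hκS : κ ≤ S) (hj : j < n) :
    ∃ α : Fin n → ℝ, ∀ l < p, ∀ m, m + κ < T →
      HasSum (fun κ' : ℕ => lamW M p n β κ j κ' *
          PowerSeries.coeff m (yl ℝ p l ^ (n + κ')))
        (PowerSeries.coeff m (yW ℝ M p n T zr β κ j l) -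
            PowerSeries.coeff m (gW ℝ M p n β κ j l) +
          ∑ k ∈ range (2 * (2 * β + 1) * p), ∑ r ∈ range (S + 1),
            sgW p β k r l m * aco κ r (tpt ℝ p β k) (wP ℝ M p n β κ j) -
          ∑ i, α i * PowerSeries.coeff m (ev ℝ p l (Cn ℝ M (i : ℕ)))) := by
  obtain ⟨Q1, hQ1, h1⟩ := sr_one M p n T S β κ j hp hκ hκS hj
  obtain ⟨Q2, hQ2, h2⟩ := sr_two M p n β κ j hp hκ hj
  obtain ⟨α, hα⟩ := exists_comb ℝ M n (Q1 + Q2) (Submodule.add_mem _ hQ1 hQ2)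
  refine ⟨α, fun l hl m hm => ?_⟩
  have h3 := h2 l hl m
  have h4 := h1 l hl m hm
  have h6 : PowerSeries.coeff m (ev ℝ p l (Q1 + Q2)) =
      ∑ i, α i * PowerSeries.coeff m (ev ℝ p l (Cn ℝ M (i : ℕ))) := by
    rw [hα, ONE_ev_sum, map_sum]
    refine sum_congr rfl fun i _ => ?_
    rw [ONE_ev_mul, ONE_ev_C, PowerSeries.coeff_C_mul]
  have h7 : PowerSeries.coeff m (ev ℝ p l (Q1 + Q2)) =
      PowerSeries.coeff m (ev ℝ p l Q1) + PowerSeries.coeff m (ev ℝ p l Q2) := by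
    simp only [ev, map_add]
  rw [← h6, h7, h4]
  convert h3 using 1
  ring

end Pool.Agent.DW
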