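import Pool.Agent.DW.TAY
import Pool.Agent.DP.ZET

/-!
# DW: zero estimate

From `DP/ZET.killers`: an operator of `Kil` has in the slot `(β + B i, κ)` the polynomial
`pw p (κ%2) f`, `f ∈ degreeLT n`, `κ ≥ s0`; expand `f` in the basis `Cn_j` and divide by `b^(4n)`:
coefficients of the rows `(β, κ, j)`, with values in `P`. The coordinates `aco` of the combination
are the values `(rf S (Q β')) r` at the positions (`aco_eq_rf`), hence `0`; then the regularised row
is the row itself: `loc (wP) * hs κ gs = gW + polar parts` (`ker_dec` at the `t0 = k/b - l`,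
`t0 = -k/b - l`), and the value under `φ` is `∑_y φ(inc (x y)) • (-gW) + yW`. `T` rows: `n = 4Hp`
dimensions are lost as in `DP/ZEP`.
-/

namespace Pool.Agent.DW

open Finset Polynomial Pool.Agent.ZC Pool.Agent.SI Pool.Agent.DM Pool.Agent.DP

private theorem inv_add_eq {K : Type*} [Field K] (c : K) :
    (PowerSeries.C c + PowerSeries.X : PowerSeries K)⁻¹ =
      -(PowerSeries.C (-c) - PowerSeries.X)⁻¹ := by
  by_cases hc : c = 0
  · subst hc
    rw [neg_zero, PowerSeries.inv_eq_zero.2 (by simp), PowerSeries.inv_eq_zero.2 (by simp),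
      neg_zero]
  · rw [PowerSeries.inv_eq_iff_mul_eq_one (by simpa using hc)]
    have h1 : (PowerSeries.C (-c) - PowerSeries.X : PowerSeries K)⁻¹ *
        (PowerSeries.C (-c) - PowerSeries.X) = 1 :=
      PowerSeries.inv_mul_cancel _ (by simpa using hc)
    rw [← h1, map_neg]
    ring

private theorem hs_inv_add' {K : Type*} [Field K] (κ : ℕ) (c : K) (hc : c ≠ 0) :
    hs K κ (PowerSeries.C c + PowerSeries.X)⁻¹ =
      -((PowerSeries.C (-c) - PowerSeries.X)⁻¹) ^ (κ + 1) := by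
  rw [hs_inv_add_gen κ c hc, inv_add_eq,
    neg_pow ((PowerSeries.C (-c) - PowerSeries.X : PowerSeries K)⁻¹), map_pow, map_neg, map_one]
  have h : ((-1 : PowerSeries K)) ^ κ * (-1) ^ (κ + 1) = -1 := by
    rw [← pow_add, show κ + (κ + 1) = 2 * κ + 1 by ring, pow_succ, pow_mul]
    simp
  rw [← mul_assoc, h, neg_one_mul]

/-- the `g` row = regularised row + polar parts (`t0 = k/b - l` and `-k/b - l`) -/
theorem gs_dec {K : Type*} [Field K] [CharZero K] (M p n β κ j l : ℕ) :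
    loc K l (wP K M p n β κ j) * hs K κ (gs K p (2 * β + 1) l) =
      gW K M p n β κ j l +
        ∑ r ∈ range (κ + 1),
          (∑ k ∈ Icc 1 ((2 * β + 1) * l),
              PowerSeries.C (aco κ r ((k : K) / (2 * (β : K) + 1) - l) (wP K M p n β κ j)) *
                ((PowerSeries.C ((k : K) / (2 * (β : K) + 1)) - PowerSeries.X)⁻¹) ^ (r + 1) -
            ∑ k ∈ Icc 1 ((2 * β + 1) * (2 * p - 1 - l)),
              PowerSeries.C (aco κ r (-(k : K) / (2 * (β : K) + 1) - l) (wP K M p n β κ j)) *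
                ((PowerSeries.C (-(k : K) / (2 * (β : K) + 1)) - PowerSeries.X)⁻¹) ^ (r + 1)) := by
  have hb : (2 * (β : K) + 1) ≠ 0 := by exact_mod_cast (Nat.succ_ne_zero (2 * β))
  have hq : ∀ k : ℕ, 1 ≤ k → (k : K) / (2 * (β : K) + 1) ≠ 0 := by
    intro k hk
    exact div_ne_zero (Nat.cast_ne_zero.2 (by omega)) hb
  have hcast : ((2 * β + 1 : ℕ) : K) = 2 * (β : K) + 1 := by push_cast; ring
  set F := wP K M p n β κ j with hF
  have h1 : hs K κ (gs K p (2 * β + 1) l) =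
      ∑ k ∈ Icc 1 ((2 * β + 1) * l),
        ((PowerSeries.C ((k : K) / (2 * (β : K) + 1)) - PowerSeries.X)⁻¹) ^ (κ + 1) -
      ∑ k ∈ Icc 1 ((2 * β + 1) * (2 * p - 1 - l)),
        ((PowerSeries.C (-(k : K) / (2 * (β : K) + 1)) - PowerSeries.X)⁻¹) ^ (κ + 1) := by
    unfold gs
    rw [hcast, hs_add, hs_sum, hs_sum, sub_eq_add_neg, ← Finset.sum_neg_distrib]
    congr 1
    · refine Finset.sum_congr rfl fun k hk => ?_
      exact hs_inv_sub κ _ (hq k (mem_Icc.1 hk).1)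
    · refine Finset.sum_congr rfl fun k hk => ?_
      rw [hs_inv_add' κ _ (hq k (mem_Icc.1 hk).1), neg_div]
  have h2 : ∀ k : ℕ, 1 ≤ k → loc K l F *
      ((PowerSeries.C ((k : K) / (2 * (β : K) + 1)) - PowerSeries.X)⁻¹) ^ (κ + 1) =
      PowerSeries.C ((-1) ^ (κ + 1)) * loc K l (ddq κ ((k : K) / (2 * (β : K) + 1) - l) F) +
        ∑ r ∈ range (κ + 1), PowerSeries.C (aco κ r ((k : K) / (2 * (β : K) + 1) - l) F) *
          ((PowerSeries.C ((k : K) / (2 * (β : K) + 1)) - PowerSeries.X)⁻¹) ^ (r + 1) := by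
    intro k hk
    have h3 := ker_dec l κ ((k : K) / (2 * (β : K) + 1) - l) F (by
      rw [sub_add_cancel]; exact hq k hk)
    rwa [sub_add_cancel] at h3
  have h2' : ∀ k : ℕ, 1 ≤ k → loc K l F *
      ((PowerSeries.C (-(k : K) / (2 * (β : K) + 1)) - PowerSeries.X)⁻¹) ^ (κ + 1) =
      PowerSeries.C ((-1) ^ (κ + 1)) * loc K l (ddq κ (-(k : K) / (2 * (β : K) + 1) - l) F) +
        ∑ r ∈ range (κ + 1), PowerSeries.C (aco κ r (-(k : K) / (2 * (β : K) + 1) - l) F) *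
          ((PowerSeries.C (-(k : K) / (2 * (β : K) + 1)) - PowerSeries.X)⁻¹) ^ (r + 1) := by
    intro k hk
    have h3 := ker_dec l κ (-(k : K) / (2 * (β : K) + 1) - l) F (by
      rw [sub_add_cancel, neg_div]; exact neg_ne_zero.2 (hq k hk))
    rwa [sub_add_cancel] at h3
  rw [h1, mul_sub, Finset.mul_sum, Finset.mul_sum,
    Finset.sum_congr rfl fun k hk => h2 k (mem_Icc.1 hk).1,
    Finset.sum_congr rfl fun k hk => h2' k (mem_Icc.1 hk).1,
    Finset.sum_add_distrib, Finset.sum_add_distrib, Finset.sum_sub_distrib]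
  unfold gW
  rw [← hF, mul_sub, Finset.mul_sum, Finset.mul_sum, Finset.sum_comm (s := range (κ + 1)),
    Finset.sum_comm (s := range (κ + 1))]
  ring

section

variable {K : Type*} [Field K]

theorem aco_add (κ r : ℕ) (t0 : K) (F G : K[X]) :
    aco κ r t0 (F + G) = aco κ r t0 F + aco κ r t0 G := by
  unfold aco
  split_ifs
  · rw [map_add, eval_add, mul_add]
  · rw [add_zero]

theorem aco_C_mul (κ r : ℕ) (t0 c : K) (F : K[X]) :
    aco κ r t0 (C c * F) = c * aco κ r t0 F := by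
  unfold aco
  split_ifs
  · rw [← smul_eq_C_mul, map_smul, eval_smul, smul_eq_mul]
    ring
  · rw [mul_zero]

theorem aco_zero (κ r : ℕ) (t0 : K) : aco κ r t0 (0 : K[X]) = 0 := by
  unfold aco
  split_ifs
  · rw [map_zero, eval_zero, mul_zero]
  · rfl

theorem aco_sum {ι : Type*} (κ r : ℕ) (t0 : K) (s : Finset ι) (F : ι → K[X]) :
    aco κ r t0 (∑ i ∈ s, F i) = ∑ i ∈ s, aco κ r t0 (F i) := by
  classical
  induction s using Finset.induction_on with
  | empty => rw [Finset.sum_empty, Finset.sum_empty, aco_zero]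
  | insert i s hi ih => rw [Finset.sum_insert hi, Finset.sum_insert hi, aco_add, ih]

theorem rf_eval_eq (S : ℕ) (Q : ℕ → K[X]) (r : ℕ) (t0 : K) :
    (rf S Q r).eval t0 = ∑ k ∈ range (S + 1), aco k r t0 (Q k) := by
  unfold rf aco
  have h1 : Icc r S = (range (S + 1)).filter (fun k => r ≤ k) := by
    ext k
    simp only [mem_Icc, mem_filter, mem_range]
    omega
  rw [eval_finsetSum, h1, Finset.sum_filter]
  refine Finset.sum_congr rfl fun k _ => ?_
  split_ifs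
  · rw [eval_mul, eval_C]
  · rfl

theorem swap_zero {ι : Type*} (s : Finset ι) (c : ι → K) (Rg I1 I2 : Finset ℕ)
    (u v : ι → ℕ → ℕ → K) (E E' : ℕ → ℕ → PowerSeries K)
    (h1 : ∀ r ∈ Rg, ∀ k ∈ I1, ∑ z ∈ s, c z * u z r k = 0)
    (h2 : ∀ r ∈ Rg, ∀ k ∈ I2, ∑ z ∈ s, c z * v z r k = 0) :
    ∑ z ∈ s, PowerSeries.C (c z) * ∑ r ∈ Rg, (∑ k ∈ I1, PowerSeries.C (u z r k) * E r k -
      ∑ k ∈ I2, PowerSeries.C (v z r k) * E' r k) = 0 := by
  have key : ∀ (I : Finset ℕ) (u : ι → ℕ → ℕ → K) (E : ℕ → ℕ → PowerSeries K) (r : ℕ),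
      (∀ k ∈ I, ∑ z ∈ s, c z * u z r k = 0) →
      ∑ z ∈ s, PowerSeries.C (c z) * ∑ k ∈ I, PowerSeries.C (u z r k) * E r k = 0 := by
    intro I u E r h
    simp only [Finset.mul_sum]
    rw [Finset.sum_comm]
    refine Finset.sum_eq_zero fun k hk => ?_
    have h3 : ∀ z ∈ s, PowerSeries.C (c z) * (PowerSeries.C (u z r k) * E r k) =
        PowerSeries.C (c z * u z r k) * E r k := by
      intro z _
      rw [map_mul, mul_assoc]
    rw [Finset.sum_congr rfl h3, ← Finset.sum_mul, ← map_sum, h k hk, map_zero, zero_mul]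
  have h3 : ∀ z ∈ s, PowerSeries.C (c z) * ∑ r ∈ Rg, (∑ k ∈ I1, PowerSeries.C (u z r k) * E r k -
      ∑ k ∈ I2, PowerSeries.C (v z r k) * E' r k) =
      ∑ r ∈ Rg, (PowerSeries.C (c z) * ∑ k ∈ I1, PowerSeries.C (u z r k) * E r k -
        PowerSeries.C (c z) * ∑ k ∈ I2, PowerSeries.C (v z r k) * E' r k) := by
    intro z _
    rw [Finset.mul_sum]
    exact Finset.sum_congr rfl fun r _ => mul_sub _ _ _
  rw [Finset.sum_congr rfl h3, Finset.sum_comm]
  refine Finset.sum_eq_zero fun r hr => ?_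
  rw [Finset.sum_sub_distrib, key I1 u E r (h1 r hr), key I2 v E' r (h2 r hr), sub_zero]

/-- polar part of a row -/
noncomputable def polW (M p n β κ j l : ℕ) : PowerSeries K :=
  ∑ r ∈ range (κ + 1),
    (∑ k ∈ Icc 1 ((2 * β + 1) * l),
        PowerSeries.C (aco κ r ((k : K) / (2 * (β : K) + 1) - l) (wP K M p n β κ j)) *
          ((PowerSeries.C ((k : K) / (2 * (β : K) + 1)) - PowerSeries.X)⁻¹) ^ (r + 1) -
      ∑ k ∈ Icc 1 ((2 * β + 1) * (2 * p - 1 - l)),
        PowerSeries.C (aco κ r (-(k : K) / (2 * (β : K) + 1) - l) (wP K M p n β κ j)) *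
          ((PowerSeries.C (-(k : K) / (2 * (β : K) + 1)) - PowerSeries.X)⁻¹) ^ (r + 1))

theorem polW_eq (M p n β κ j l S : ℕ) (hκ : κ ≤ S) : polW (K := K) M p n β κ j l =
    ∑ r ∈ range (S + 1),
      (∑ k ∈ Icc 1 ((2 * β + 1) * l),
          PowerSeries.C (aco κ r ((k : K) / (2 * (β : K) + 1) - l) (wP K M p n β κ j)) *
            ((PowerSeries.C ((k : K) / (2 * (β : K) + 1)) - PowerSeries.X)⁻¹) ^ (r + 1) -
        ∑ k ∈ Icc 1 ((2 * β + 1) * (2 * p - 1 - l)),
          PowerSeries.C (aco κ r (-(k : K) / (2 * (β : K) + 1) - l) (wP K M p n β κ j)) *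
            ((PowerSeries.C (-(k : K) / (2 * (β : K) + 1)) - PowerSeries.X)⁻¹) ^ (r + 1)) := by
  unfold polW
  refine Finset.sum_subset (fun r hr => ?_) fun r hr1 hr2 => ?_
  · rw [mem_range] at hr ⊢
    omega
  · rw [mem_range] at hr1 hr2
    have h : ∀ (t0 : K) (F : K[X]), aco κ r t0 F = 0 := by
      intro t0 F
      unfold aco
      rw [if_neg (by omega)]
    simp only [h, map_zero, zero_mul, Finset.sum_const_zero, sub_zero]

theorem Gs_zero_eq (p b l : ℕ) (S : Finset ℕ) : Gs K p b l S 0 = -gs K p b l := by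
  unfold Gs
  simp

variable {P : Type*} [AddCommGroup P] [Module K P] {x : ℕ}

/-- operator of a combination of rows -/
noncomputable def thW (B S s0 p n M : ℕ) (bP : Module.Basis (Fin x) K P) :
    (FW B (S + 1 - s0) n → P) →ₗ[K] (ℕ → ℕ → K[X]) where
  toFun X β' k := if h : (β' % B < B ∧ k - s0 < S + 1 - s0) ∧ s0 ≤ k then
      ∑ j : Fin n, C (cP bP (β' / B) (X (⟨β' % B, h.1.1⟩, ⟨k - s0, h.1.2⟩, j))) *
        wP K M p n (β' % B) k j
    else 0
  map_add' X X' := by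
    funext β' k
    simp only [Pi.add_apply]
    split_ifs with h
    · simp only [map_add, add_mul, Finset.sum_add_distrib]
    · rw [add_zero]
  map_smul' s X := by
    funext β' k
    simp only [Pi.smul_apply, RingHom.id_apply]
    split_ifs with h
    · rw [Finset.smul_sum]
      refine Finset.sum_congr rfl fun j _ => ?_
      rw [map_smul, smul_eq_mul, C_mul, smul_eq_C_mul, mul_assoc]
    · rw [smul_zero]

theorem thW_enc (B S s0 p n M : ℕ) (bP : Module.Basis (Fin x) K P)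
    (X : FW B (S + 1 - s0) n → P) (β : Fin B) (i : ℕ) (κ : Fin (S + 1 - s0)) :
    thW B S s0 p n M bP X ((β : ℕ) + B * i) (s0 + (κ : ℕ)) =
      ∑ j : Fin n, C (cP bP i (X (β, κ, j))) * wP K M p n (β : ℕ) (s0 + (κ : ℕ)) j := by
  have e1 : ((β : ℕ) + B * i) % B = β := enc_mod β.2
  have e2 : ((β : ℕ) + B * i) / B = i := enc_div β.2
  show (if h : (((β : ℕ) + B * i) % B < B ∧ s0 + (κ : ℕ) - s0 < S + 1 - s0) ∧
      s0 ≤ s0 + (κ : ℕ) then
      ∑ j : Fin n, C (cP bP (((β : ℕ) + B * i) / B) (X (⟨((β : ℕ) + B * i) % B, h.1.1⟩,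
        ⟨s0 + (κ : ℕ) - s0, h.1.2⟩, j))) * wP K M p n (((β : ℕ) + B * i) % B) (s0 + (κ : ℕ)) j
    else 0) = _
  rw [dif_pos ⟨⟨by rw [e1]; exact β.2, by rw [Nat.add_sub_cancel_left]; exact κ.2⟩, by omega⟩]
  simp only [e1, e2, Nat.add_sub_cancel_left, Fin.eta]

theorem thW_low (B S s0 p n M : ℕ) (bP : Module.Basis (Fin x) K P)
    (X : FW B (S + 1 - s0) n → P) (β' k : ℕ) (h : k < s0 ∨ S < k) :
    thW B S s0 p n M bP X β' k = 0 := by
  show (if h : (β' % B < B ∧ k - s0 < S + 1 - s0) ∧ s0 ≤ k then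
      ∑ j : Fin n, C (cP bP (β' / B) (X (⟨β' % B, h.1.1⟩, ⟨k - s0, h.1.2⟩, j))) *
        wP K M p n (β' % B) k j
    else 0) = _
  rw [dif_neg (by omega)]

theorem thW_out (B S s0 p n M : ℕ) (hB : 1 ≤ B) (bP : Module.Basis (Fin x) K P)
    (X : FW B (S + 1 - s0) n → P) (β' k : ℕ) (h : B * x ≤ β') :
    thW B S s0 p n M bP X β' k = 0 := by
  have h1 : x ≤ β' / B := by
    rw [Nat.le_div_iff_mul_le (by omega), mul_comm]
    exact h
  show (if h : (β' % B < B ∧ k - s0 < S + 1 - s0) ∧ s0 ≤ k then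
      ∑ j : Fin n, C (cP bP (β' / B) (X (⟨β' % B, h.1.1⟩, ⟨k - s0, h.1.2⟩, j))) *
        wP K M p n (β' % B) k j
    else 0) = _
  split_ifs
  · simp only [cP_of_le bP h1, LinearMap.zero_apply, map_zero, zero_mul, Finset.sum_const_zero]
  · rfl

theorem sum_split (S s0 : ℕ) (hs0 : s0 ≤ S) {V : Type*} [AddCommMonoid V] (F : ℕ → V)
    (hF : ∀ k < s0, F k = 0) :
    ∑ k ∈ range (S + 1), F k = ∑ κ : Fin (S + 1 - s0), F (s0 + (κ : ℕ)) := by
  have h1 : S + 1 = s0 + (S + 1 - s0) := by omega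
  conv_lhs => rw [h1]
  rw [Finset.sum_range_add, Finset.sum_eq_zero (fun k hk => hF k (mem_range.1 hk)), zero_add,
    Finset.sum_range]

/-- value of a combination of rows -/
theorem rowW (B S s0 p n M T : ℕ) (hs0 : s0 ≤ S) (bP : Module.Basis (Fin x) K P)
    (X : FW B (S + 1 - s0) n → P) (α : P →ₗ[K] K) (γ : ℕ → P →ₗ[K] K) (l : ℕ) :
    ∑ β' ∈ range (B * x), ∑ k ∈ range (S + 1),
      loc K l (thW B S s0 p n M bP X β' k) * hs K k (GG B p T bP α γ β' l) =
    ∑ y : FW B (S + 1 - s0) n, (yW K M p n T (fun n => γ n (X y)) (y.1 : ℕ)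
      (s0 + (y.2.1 : ℕ)) (y.2.2 : ℕ) l - PowerSeries.C (α (X y)) *
        (loc K l (wP K M p n (y.1 : ℕ) (s0 + (y.2.1 : ℕ)) (y.2.2 : ℕ)) *
          hs K (s0 + (y.2.1 : ℕ)) (gs K p (2 * (y.1 : ℕ) + 1) l))) := by
  have h1 : ∀ y : FW B (S + 1 - s0) n, (yW K M p n T (fun n => γ n (X y)) (y.1 : ℕ)
      (s0 + (y.2.1 : ℕ)) (y.2.2 : ℕ) l - PowerSeries.C (α (X y)) *
        (loc K l (wP K M p n (y.1 : ℕ) (s0 + (y.2.1 : ℕ)) (y.2.2 : ℕ)) *
          hs K (s0 + (y.2.1 : ℕ)) (gs K p (2 * (y.1 : ℕ) + 1) l))) =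
      ∑ i ∈ range x, PowerSeries.C (cP bP i (X y)) *
        (loc K l (wP K M p n (y.1 : ℕ) (s0 + (y.2.1 : ℕ)) (y.2.2 : ℕ)) *
          hs K (s0 + (y.2.1 : ℕ)) (GG B p T bP α γ ((y.1 : ℕ) + B * i) l)) := by
    intro y
    have h2 : ∀ i, PowerSeries.C (cP bP i (X y)) *
        (loc K l (wP K M p n (y.1 : ℕ) (s0 + (y.2.1 : ℕ)) (y.2.2 : ℕ)) *
          hs K (s0 + (y.2.1 : ℕ)) (GG B p T bP α γ ((y.1 : ℕ) + B * i) l)) =
        loc K l (wP K M p n (y.1 : ℕ) (s0 + (y.2.1 : ℕ)) (y.2.2 : ℕ)) *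
          hs K (s0 + (y.2.1 : ℕ)) (PowerSeries.C (cP bP i (X y)) *
            GG B p T bP α γ ((y.1 : ℕ) + B * i) l) := by
      intro i
      rw [hs_C_mul]
      ring
    rw [Finset.sum_congr rfl fun i _ => h2 i, ← Finset.mul_sum, ← hs_sum,
      GG_sum B p T bP α γ y.1.2 l (X y), hs_add, hs_C_mul, Gs_zero_eq]
    have h3 : hs K (s0 + (y.2.1 : ℕ)) (-gs K p (2 * (y.1 : ℕ) + 1) l) =
        -hs K (s0 + (y.2.1 : ℕ)) (gs K p (2 * (y.1 : ℕ) + 1) l) := by
      rw [← zero_sub, hs_sub]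
      have h4 : hs K (s0 + (y.2.1 : ℕ)) (0 : PowerSeries K) = 0 := by
        ext r
        rw [coeff_hs, map_zero, map_zero, mul_zero]
      rw [h4, zero_sub]
    rw [h3]
    unfold yW
    ring
  rw [Finset.sum_congr rfl fun y _ => h1 y, sum_range_mul',
    Finset.sum_comm (s := (Finset.univ : Finset (FW B (S + 1 - s0) n)))]
  refine Finset.sum_congr rfl fun i _ => ?_
  rw [Finset.sum_range, Fintype.sum_prod_type]
  refine Finset.sum_congr rfl fun β _ => ?_
  rw [sum_split S s0 hs0 _ (fun k hk => by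
    rw [thW_low B S s0 p n M bP X _ k (Or.inl hk), map_zero, zero_mul]), Fintype.sum_prod_type]
  refine Finset.sum_congr rfl fun κ _ => ?_
  rw [thW_enc, map_sum, Finset.sum_mul]
  refine Finset.sum_congr rfl fun j _ => ?_
  rw [map_mul, loc_C]
  ring

/-- coordinates of a combination -/
theorem coordW (B S s0 p n M : ℕ) (hs0 : s0 ≤ S) (bP : Module.Basis (Fin x) K P)
    (X : FW B (S + 1 - s0) n → P) (β : Fin B) (r : ℕ) (t0 : K)
    (h : ∀ i < x, (rf S (thW B S s0 p n M bP X ((β : ℕ) + B * i)) r).eval t0 = 0)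
    (ψ : P →ₗ[K] K) :
    ∑ z : Fin (S + 1 - s0) × Fin n, ψ (X (β, z)) *
      aco (s0 + (z.1 : ℕ)) r t0 (wP K M p n (β : ℕ) (s0 + (z.1 : ℕ)) (z.2 : ℕ)) = 0 := by
  have h1 : ∀ i < x, ∑ z : Fin (S + 1 - s0) × Fin n, cP bP i (X (β, z)) *
      aco (s0 + (z.1 : ℕ)) r t0 (wP K M p n (β : ℕ) (s0 + (z.1 : ℕ)) (z.2 : ℕ)) = 0 := by
    intro i hi
    have h2 := h i hi
    rw [rf_eval_eq, sum_split S s0 hs0 _ (fun k hk => by
      rw [thW_low B S s0 p n M bP X _ k (Or.inl hk), aco_zero])] at h2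
    rw [← h2, Fintype.sum_prod_type]
    refine Finset.sum_congr rfl fun κ _ => ?_
    rw [thW_enc, aco_sum]
    exact Finset.sum_congr rfl fun j _ => by rw [aco_C_mul]
  have h2 : ∀ z : Fin (S + 1 - s0) × Fin n, ψ (X (β, z)) *
      aco (s0 + (z.1 : ℕ)) r t0 (wP K M p n (β : ℕ) (s0 + (z.1 : ℕ)) (z.2 : ℕ)) =
      ∑ i ∈ range x, ψ (eP bP i) * (cP bP i (X (β, z)) *
        aco (s0 + (z.1 : ℕ)) r t0 (wP K M p n (β : ℕ) (s0 + (z.1 : ℕ)) (z.2 : ℕ))) := by
    intro z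
    rw [eP_map bP ψ (X (β, z)), Finset.sum_mul]
    exact Finset.sum_congr rfl fun i _ => by ring
  rw [Finset.sum_congr rfl fun z _ => h2 z, Finset.sum_comm]
  refine Finset.sum_eq_zero fun i hi => ?_
  rw [← Finset.mul_sum, h1 i (mem_range.1 hi), mul_zero]

private noncomputable def zw_seq (K : Type*) [Field K] [CharZero K] (M : ℕ) :
    Polynomial.Sequence K where
  elems' := fun j => Cn K M j
  degree_eq' := fun j => Cn_degree K M j

private theorem zw_sum_eq_zero [CharZero K] (M n : ℕ) (g : Fin n → K)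
    (h : ∑ j : Fin n, C (g j) * Cn K M j = 0) : ∀ j, g j = 0 := by
  have h1 : LinearIndependent K (fun j : Fin n => Cn K M j) :=
    (zw_seq K M).linearIndependent.comp (fun j : Fin n => (j : ℕ)) Fin.val_injective
  exact Fintype.linearIndependent_iff.1 h1 g (by simpa only [Polynomial.smul_eq_C_mul] using h)

theorem wP_sum (M p n β κ : ℕ) (c : Fin n → K) :
    ∑ j : Fin n, C (c j) * wP K M p n β κ j =
      C ((2 * (β : K) + 1) ^ (4 * n)) * pw p (κ % 2) (∑ j : Fin n, C (c j) * Cn K M j) := by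
  unfold wP pw
  rw [Polynomial.sum_comp, Finset.mul_sum, Finset.mul_sum]
  refine Finset.sum_congr rfl fun j _ => ?_
  rw [mul_comp, C_comp]
  ring

theorem bne [CharZero K] (β : ℕ) : (2 * (β : K) + 1) ≠ 0 := by
  exact_mod_cast (Nat.succ_ne_zero (2 * β))

theorem thW_inj [CharZero K] (B S s0 p n M : ℕ) (bP : Module.Basis (Fin x) K P)
    (X : FW B (S + 1 - s0) n → P) (h : thW B S s0 p n M bP X = 0) : X = 0 := by
  funext y
  obtain ⟨β, κ, j⟩ := y
  apply bP.ext_elem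
  intro i
  have h1 := congrFun (congrFun h ((β : ℕ) + B * (i : ℕ))) (s0 + (κ : ℕ))
  rw [thW_enc, wP_sum] at h1
  have h2 := (mul_eq_zero.1 h1).resolve_left (by
    rw [C_eq_zero]
    exact pow_ne_zero _ (bne (β : ℕ)))
  have h3 := zw_sum_eq_zero M n _ (pw_eq_zero h2) j
  rw [cP_fin] at h3
  rw [Pi.zero_apply, map_zero]
  exact h3

theorem thW_surj [CharZero K] (B S s0 p n M : ℕ) (hB : 1 ≤ B) (bP : Module.Basis (Fin x) K P)
    {m : ℕ} (ε : Fin m → ℕ) (w : Fin m → ℕ → ℕ → K) (hw : Fam (B * x) S s0 ε w)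
    (f : Fin m → K[X]) (hf : ∀ i, f i ∈ degreeLT K n) :
    ∃ X, thW B S s0 p n M bP X = comb w (fun i => pw p (ε i) (f i)) := by
  have key : ∀ (β : Fin B) (i : Fin x) (κ : Fin (S + 1 - s0)), ∃ c : Fin n → K,
      ∑ j : Fin n, C (c j) * wP K M p n (β : ℕ) (s0 + (κ : ℕ)) j =
        comb w (fun i => pw p (ε i) (f i)) ((β : ℕ) + B * (i : ℕ)) (s0 + (κ : ℕ)) := by
    intro β i κ
    obtain ⟨k, hk⟩ : ∃ k, k = s0 + (κ : ℕ) := ⟨_, rfl⟩
    obtain ⟨β', hβ'⟩ : ∃ β', β' = (β : ℕ) + B * (i : ℕ) := ⟨_, rfl⟩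
    rw [← hk, ← hβ']
    have hb : ((2 * ((β : ℕ) : K) + 1) ^ (4 * n)) ≠ 0 := pow_ne_zero _ (bne (β : ℕ))
    obtain ⟨c, hc⟩ := exists_comb K M n
      (∑ i', (((2 * ((β : ℕ) : K) + 1) ^ (4 * n))⁻¹ * w i' β' k) • f i')
      (Submodule.sum_mem _ fun i' _ => Submodule.smul_mem _ _ (hf i'))
    refine ⟨c, ?_⟩
    rw [wP_sum, ← hc, comb_apply]
    unfold pw
    rw [Polynomial.sum_comp, Finset.mul_sum, Finset.mul_sum]
    refine Finset.sum_congr rfl fun i' _ => ?_
    rw [smul_eq_C_mul, mul_comp, C_comp]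
    by_cases h0 : w i' β' k = 0
    · rw [h0, mul_zero, C_0, zero_mul, mul_zero, mul_zero, mul_zero]
    · rw [(hw.2 i' β' k h0).2.2.2, C_mul]
      have h1 : C ((2 * ((β : ℕ) : K) + 1) ^ (4 * n)) *
          C (((2 * ((β : ℕ) : K) + 1) ^ (4 * n))⁻¹) = (1 : K[X]) := by
        rw [← C_mul, mul_inv_cancel₀ hb, C_1]
      linear_combination (wpol K p ^ ε i' * C (w i' β' k) * (f i').comp (tp K p)) * h1
  choose c hc using key
  refine ⟨fun y => ∑ i, c y.1 i y.2.1 y.2.2 • bP i, ?_⟩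
  funext β' k
  by_cases h : β' < B * x ∧ s0 ≤ k ∧ k ≤ S
  · obtain ⟨β, i, κ, rfl, rfl⟩ : ∃ (β : Fin B) (i : Fin x) (κ : Fin (S + 1 - s0)),
        β' = (β : ℕ) + B * (i : ℕ) ∧ k = s0 + (κ : ℕ) := by
      have hi : β' / B < x := by
        rw [Nat.div_lt_iff_lt_mul (by omega), mul_comm]
        exact h.1
      exact ⟨⟨β' % B, Nat.mod_lt _ (by omega)⟩, ⟨β' / B, hi⟩, ⟨k - s0, by omega⟩,
        (Nat.mod_add_div β' B).symm, (by show k = s0 + (k - s0); omega)⟩
    rw [thW_enc, ← hc β i κ]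
    refine Finset.sum_congr rfl fun j _ => ?_
    congr 2
    rw [cP_fin, Module.Basis.coord_apply, bP.repr_sum_self]
  · have h1 : comb w (fun i => pw p (ε i) (f i)) β' k = 0 := by
      rw [comb_apply]
      refine Finset.sum_eq_zero fun i _ => ?_
      have h2 : w i β' k = 0 := by
        by_contra h3
        have h4 := hw.2 i β' k h3
        exact h ⟨h4.1, h4.2.1, h4.2.2.1⟩
      rw [h2, C_0, mul_zero]
    rw [h1]
    by_cases h2 : B * x ≤ β'
    · exact thW_out B S s0 p n M hB bP _ β' k h2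
    · exact thW_low B S s0 p n M bP _ β' k (by omega)

/-- the regularised rows give the value -/
theorem valW [CharZero K] (B S s0 p n M T : ℕ) (hs0 : s0 ≤ S) (bP : Module.Basis (Fin x) K P)
    (X : FW B (S + 1 - s0) n → P)
    (hA : ∀ w0 : ℚ, |w0| < 4 * (p : ℚ) → ∀ β' < B * x, odp (β' % B) w0 → ∀ r ≤ S,
      (rf S (thW B S s0 p n M bP X β') r).eval (((w0 - (2 * (p : ℚ) - 1)) / 2 : ℚ) : K) = 0)
    (α : P →ₗ[K] K) (γ : ℕ → P →ₗ[K] K) (l : ℕ) (hl : l < p) :
    ∑ β' ∈ range (B * x), ∑ k ∈ range (S + 1),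
      loc K l (thW B S s0 p n M bP X β' k) * hs K k (GG B p T bP α γ β' l) =
    ∑ y : FW B (S + 1 - s0) n, (yW K M p n T (fun n => γ n (X y)) (y.1 : ℕ)
      (s0 + (y.2.1 : ℕ)) (y.2.2 : ℕ) l -
        α (X y) • gW K M p n (y.1 : ℕ) (s0 + (y.2.1 : ℕ)) (y.2.2 : ℕ) l) := by
  have hlt : ∀ (β : Fin B) (i : ℕ), i < x → (β : ℕ) + B * i < B * x := by
    intro β i hi
    have h1 : B * (i + 1) ≤ B * x := Nat.mul_le_mul_left _ hi
    rw [Nat.mul_succ] at h1
    have := β.2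
    omega
  have hco : ∀ (β : Fin B) (w0 : ℚ), |w0| < 4 * (p : ℚ) → odp (β : ℕ) w0 → ∀ r ≤ S,
      ∀ ψ : P →ₗ[K] K, ∑ z : Fin (S + 1 - s0) × Fin n, ψ (X (β, z)) *
        aco (s0 + (z.1 : ℕ)) r (((w0 - (2 * (p : ℚ) - 1)) / 2 : ℚ) : K)
          (wP K M p n (β : ℕ) (s0 + (z.1 : ℕ)) (z.2 : ℕ)) = 0 := by
    intro β w0 h1 h2 r hr ψ
    refine coordW B S s0 p n M hs0 bP X β r _ (fun i hi => ?_) ψ
    exact hA w0 h1 _ (hlt β i hi) (by rw [enc_mod β.2]; exact h2) r hr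
  rw [rowW B S s0 p n M T hs0 bP X α γ l]
  have h1 : ∀ y : FW B (S + 1 - s0) n, (yW K M p n T (fun n => γ n (X y)) (y.1 : ℕ)
      (s0 + (y.2.1 : ℕ)) (y.2.2 : ℕ) l - PowerSeries.C (α (X y)) *
        (loc K l (wP K M p n (y.1 : ℕ) (s0 + (y.2.1 : ℕ)) (y.2.2 : ℕ)) *
          hs K (s0 + (y.2.1 : ℕ)) (gs K p (2 * (y.1 : ℕ) + 1) l))) =
      (yW K M p n T (fun n => γ n (X y)) (y.1 : ℕ) (s0 + (y.2.1 : ℕ)) (y.2.2 : ℕ) l -
        α (X y) • gW K M p n (y.1 : ℕ) (s0 + (y.2.1 : ℕ)) (y.2.2 : ℕ) l) -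
      PowerSeries.C (α (X y)) *
        polW M p n (y.1 : ℕ) (s0 + (y.2.1 : ℕ)) (y.2.2 : ℕ) l := by
    intro y
    rw [gs_dec M p n (y.1 : ℕ) (s0 + (y.2.1 : ℕ)) (y.2.2 : ℕ) l]
    change _ - PowerSeries.C (α (X y)) * (_ + polW M p n (y.1 : ℕ) (s0 + (y.2.1 : ℕ))
      (y.2.2 : ℕ) l) = _
    rw [PowerSeries.smul_eq_C_mul]
    ring
  rw [Finset.sum_congr rfl fun y _ => h1 y, Finset.sum_sub_distrib]
  have h2 : ∑ y : FW B (S + 1 - s0) n, PowerSeries.C (α (X y)) *
      polW (K := K) M p n (y.1 : ℕ) (s0 + (y.2.1 : ℕ)) (y.2.2 : ℕ) l = 0 := by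
    rw [Fintype.sum_prod_type]
    refine Finset.sum_eq_zero fun β _ => ?_
    have h3 : ∀ z : Fin (S + 1 - s0) × Fin n, polW (K := K) M p n (β : ℕ) (s0 + (z.1 : ℕ))
        (z.2 : ℕ) l = _ := fun z =>
      polW_eq M p n (β : ℕ) (s0 + (z.1 : ℕ)) (z.2 : ℕ) l S (by have := z.1.2; omega)
    rw [Finset.sum_congr rfl fun z _ => by rw [h3 z]]
    have hbq : (2 * ((β : ℕ) : ℚ) + 1) ≠ 0 := by positivity
    have hbp : (0 : ℚ) < 2 * ((β : ℕ) : ℚ) + 1 := by positivity
    have hlq : (l : ℚ) + 1 ≤ p := by exact_mod_cast hl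
    refine swap_zero Finset.univ (fun z => α (X (β, z))) _ _ _ _ _ _ _ ?_ ?_
    · intro r hr k hk
      rw [mem_range] at hr
      rw [mem_Icc] at hk
      have hkq : (k : ℚ) / (2 * ((β : ℕ) : ℚ) + 1) ≤ l := by
        rw [div_le_iff₀ hbp]
        have : (k : ℚ) ≤ ((2 * (β : ℕ) + 1) * l : ℕ) := by exact_mod_cast hk.2
        push_cast at this
        linarith
      have hkq0 : (0 : ℚ) ≤ (k : ℚ) / (2 * ((β : ℕ) : ℚ) + 1) := by positivity
      have h4 := hco β (2 * ((k : ℚ) / (2 * ((β : ℕ) : ℚ) + 1)) - 2 * l + 2 * p - 1) (by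
        rw [abs_lt]
        constructor <;> linarith) (by
        refine ⟨k + (2 * ((β : ℕ) : ℤ) + 1) * (p - l) - (β : ℕ) - 1, ?_⟩
        push_cast
        field_simp
        ring) r (by omega) α
      have e1 : (((2 * ((k : ℚ) / (2 * ((β : ℕ) : ℚ) + 1)) - 2 * l + 2 * p - 1 -
          (2 * (p : ℚ) - 1)) / 2 : ℚ) : K) = (k : K) / (2 * (((β : ℕ) : ℕ) : K) + 1) - l := by
        have : (2 * ((k : ℚ) / (2 * ((β : ℕ) : ℚ) + 1)) - 2 * l + 2 * p - 1 -
          (2 * (p : ℚ) - 1)) / 2 = (k : ℚ) / (2 * ((β : ℕ) : ℚ) + 1) - l := by ring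
        rw [this]
        push_cast
        rfl
      rw [e1] at h4
      exact h4
    · intro r hr k hk
      rw [mem_range] at hr
      rw [mem_Icc] at hk
      have hkq : (k : ℚ) / (2 * ((β : ℕ) : ℚ) + 1) ≤ 2 * p - 1 - l := by
        rw [div_le_iff₀ hbp]
        have h5 : (k : ℚ) ≤ ((2 * (β : ℕ) + 1) * (2 * p - 1 - l) : ℕ) := by exact_mod_cast hk.2
        have h6 : ((2 * p - 1 - l : ℕ) : ℚ) = 2 * p - 1 - l := by
          rw [Nat.cast_sub (by omega), Nat.cast_sub (by omega)]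
          push_cast
          ring
        rw [Nat.cast_mul, h6] at h5
        push_cast at h5
        linarith
      have hkq0 : (0 : ℚ) ≤ (k : ℚ) / (2 * ((β : ℕ) : ℚ) + 1) := by positivity
      have h4 := hco β (-(2 * ((k : ℚ) / (2 * ((β : ℕ) : ℚ) + 1))) - 2 * l + 2 * p - 1) (by
        rw [abs_lt]
        constructor <;> linarith) (by
        refine ⟨-k + (2 * ((β : ℕ) : ℤ) + 1) * (p - l) - (β : ℕ) - 1, ?_⟩
        push_cast
        field_simp
        ring) r (by omega) α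
      have e1 : (((-(2 * ((k : ℚ) / (2 * ((β : ℕ) : ℚ) + 1))) - 2 * l + 2 * p - 1 -
          (2 * (p : ℚ) - 1)) / 2 : ℚ) : K) = -(k : K) / (2 * (((β : ℕ) : ℕ) : K) + 1) - l := by
        have : (-(2 * ((k : ℚ) / (2 * ((β : ℕ) : ℚ) + 1))) - 2 * l + 2 * p - 1 -
          (2 * (p : ℚ) - 1)) / 2 = -(k : ℚ) / (2 * ((β : ℕ) : ℚ) + 1) - l := by ring
        rw [this]
        push_cast
        rfl
      rw [e1] at h4
      exact h4
  rw [h2, sub_zero]

end

/-- **zero estimate** -/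
theorem dw_ze {K : Type*} [Field K] [CharZero K] {P W : Type*} [AddCommGroup P] [Module K P]
    [FiniteDimensional K P] [AddCommGroup W] [Module K W] [FiniteDimensional K W]
    (B H a S s0 f0 : ℕ) (hB : 1 ≤ B) (hBH : B ≤ H) (hs0 : s0 ≤ S)
    (hP : 1 ≤ Module.finrank K P)
    (hI1 : 4 * B ^ 2 * Module.finrank K P * (S + 1) + 2 * Module.finrank K W * a + 8 * H ≤
      8 * H * B * Module.finrank K P * (S + 1 - s0) + a)
    (hI2 : 8 * H * Module.finrank K P + 16 * H + 1 ≤ a) (hf0 : 2 * f0 ≤ a)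
    (inc : P →ₗ[K] W) (hinc : Function.Injective inc) (zl : ℕ → P →ₗ[K] W) :
    ∃ e0 : P, e0 ≠ 0 ∧ ∃ p0 : ℕ, ∀ p ≥ p0, ∀ M : ℕ, 0 < M →
      ∃ SS : Submodule K (FW B (S + 1 - s0) (4 * H * p) → P), p * f0 ≤ Module.finrank K SS ∧
        ∀ x ∈ SS,
        (∀ φ : W →ₗ[K] K, φ (inc e0) = 0 → ∀ l < p, ∀ m < a,
          ∑ y : FW B (S + 1 - s0) (4 * H * p), PowerSeries.coeff m
            (yW K M p (4 * H * p) (a + S) (fun n => φ (zl n (x y))) (y.1 : ℕ)
                (s0 + (y.2.1 : ℕ)) (y.2.2 : ℕ) l -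
              φ (inc (x y)) • gW K M p (4 * H * p) (y.1 : ℕ) (s0 + (y.2.1 : ℕ)) (y.2.2 : ℕ) l) =
              0) ∧
        (∀ ψ : P →ₗ[K] K, ∀ β < B, ∀ k < 2 * (2 * β + 1) * p, ∀ r ≤ S,
          ∑ y : FW B (S + 1 - s0) (4 * H * p), (if (y.1 : ℕ) = β then ψ (x y) *
            aco (s0 + (y.2.1 : ℕ)) r (tpt K p β k)
              (wP K M p (4 * H * p) β (s0 + (y.2.1 : ℕ)) (y.2.2 : ℕ)) else 0) = 0) ∧
        (∀ φ : W →ₗ[K] K, φ (inc e0) = 1 → ∀ e : Fin (4 * H * p) → K,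
          (∀ l < p, ∀ m < a, ∑ y : FW B (S + 1 - s0) (4 * H * p), PowerSeries.coeff m
            (yW K M p (4 * H * p) (a + S) (fun n => φ (zl n (x y))) (y.1 : ℕ)
                (s0 + (y.2.1 : ℕ)) (y.2.2 : ℕ) l -
              φ (inc (x y)) • gW K M p (4 * H * p) (y.1 : ℕ) (s0 + (y.2.1 : ℕ)) (y.2.2 : ℕ) l) +
            ∑ i, e i * PowerSeries.coeff m (ev K p l (Cn K M (i : ℕ))) = 0) → x = 0) := by
  classical
  obtain ⟨x, hx⟩ : ∃ x, x = Module.finrank K P := ⟨_, rfl⟩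
  obtain ⟨bP⟩ : Nonempty (Module.Basis (Fin x) K P) := by
    rw [hx]; exact ⟨Module.finBasis K P⟩
  rw [← hx] at hP hI1 hI2
  set eI : ℕ → W := fun i => inc (eP bP i) with heI
  set eZ : ℕ → ℕ → W := fun n i => zl n (eP bP i) with heZ
  have hI : LinearIndependent K fun i : Fin x => eI i := by
    have h1 := bP.linearIndependent.map' inc (LinearMap.ker_eq_bot.2 hinc)
    have h2 : (fun i : Fin x => eI i) = inc ∘ bP := by
      funext i
      rw [heI]
      simp only [Function.comp_apply]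
      rw [eP_fin]
    rw [h2]
    exact h1
  have hH : 1 ≤ H := by omega
  obtain ⟨v0, hv0ne, hv0s, p0, hkill⟩ := killers B H a S s0 x hB hH hP eI eZ hI
    (by
      have h1 : 8 * H * (B * x * (S + 1 - s0)) = 8 * H * B * x * (S + 1 - s0) := by ring
      rw [h1]
      exact hI1) hI2
  -- the vector `e0`
  obtain ⟨e0, he0⟩ : ∃ e0 : P, inc e0 = v0 := by
    have h1 : Submodule.span K (Set.range fun i : Fin x => eI i) ≤ LinearMap.range inc := by
      rw [Submodule.span_le]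
      rintro _ ⟨i, rfl⟩
      exact ⟨_, rfl⟩
    exact h1 hv0s
  refine ⟨e0, ?_, p0 + 1, fun p hp M hM => ?_⟩
  · rintro rfl
    rw [map_zero] at he0
    exact hv0ne he0.symm
  have hk := hkill p (by omega)
  obtain ⟨n, hn⟩ : ∃ n, n = 4 * H * p := ⟨_, rfl⟩
  have hp1 : 1 ≤ p := by omega
  have hnpos : 0 < n := by
    rw [hn]; positivity
  rw [← hn] at hk ⊢
  obtain ⟨m, ε, w, hw, Kil, hdim, hA, hU, hR⟩ := hk
  set G := opv p n ε w with hG
  have hGc : ∀ v, G v = comb w (fun i => pw p (ε i) (fromc m n v i)) := fun v => rfl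
  have hGinj : Function.Injective G := by
    rw [injective_iff_map_eq_zero]
    intro v hv
    rw [hGc] at hv
    exact fromc_inj m n v (comb_pw_inj (B * x) S s0 ε w hw p _ hv)
  -- a functional with value 1 at `v0`
  obtain ⟨φ0, hφ0⟩ : ∃ φ0 : W →ₗ[K] K, φ0 v0 = 1 := by
    obtain ⟨φ, hφ⟩ : ∃ φ : Module.Dual K W, φ v0 ≠ 0 := by
      by_contra hcon
      push Not at hcon
      exact hv0ne ((Module.forall_dual_apply_eq_zero_iff K v0).1 hcon)
    refine ⟨(φ v0)⁻¹ • φ, ?_⟩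
    rw [LinearMap.smul_apply, smul_eq_mul, inv_mul_cancel₀ hφ]
  -- relations with the `T` rows
  set Rl : ((Fin m → Fin n → K) × (Fin n → K)) →ₗ[K] (Fin p → Fin a → K) :=
    { toFun := fun ve l m' => PowerSeries.coeff (m' : ℕ)
        (val B S (a + S) x eI eZ p l φ0 (G ve.1)) +
        ∑ i, ve.2 i * PowerSeries.coeff (m' : ℕ) (ev K p l (Cn K M (i : ℕ)))
      map_add' := by
        intro u v
        funext l m'
        have h1 := congrFun (congrFun (map_add (gval B S (a + S) x a eI eZ p l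
          (fun _ : Unit => φ0)) (G u.1) (G v.1)) ()) m'
        rw [gval_apply, Pi.add_apply, Pi.add_apply, gval_apply, gval_apply] at h1
        simp only [Prod.fst_add, Prod.snd_add, map_add G, Pi.add_apply, add_mul,
          Finset.sum_add_distrib]
        rw [h1]
        ring
      map_smul' := by
        intro s u
        funext l m'
        have h1 := congrFun (congrFun (map_smul (gval B S (a + S) x a eI eZ p l
          (fun _ : Unit => φ0)) s (G u.1)) ()) m'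
        rw [gval_apply, Pi.smul_apply, Pi.smul_apply, gval_apply] at h1
        simp only [Prod.smul_fst, Prod.smul_snd, map_smul G, Pi.smul_apply, smul_eq_mul,
          RingHom.id_apply, mul_add, Finset.mul_sum] at h1 ⊢
        rw [h1]
        congr 1
        exact Finset.sum_congr rfl fun i _ => by ring } with hRl
  have hRl0 : ∀ v e, Rl (v, e) = 0 ↔ ∀ l < p, ∀ m' < a, PowerSeries.coeff m'
      (val B S (a + S) x eI eZ p l φ0 (G v)) +
        ∑ i, e i * PowerSeries.coeff m' (ev K p l (Cn K M (i : ℕ))) = 0 := by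
    intro v e
    constructor
    · intro h l hl m' hm'
      exact congrFun (congrFun h ⟨l, hl⟩) ⟨m', hm'⟩
    · intro h
      funext l m'
      exact h l l.2 m' m'.2
  -- all functionals
  have hφall : ∀ v ∈ Kil, ∀ φ : W →ₗ[K] K, ∀ l < p, ∀ m' < a, PowerSeries.coeff m'
      (val B S (a + S) x eI eZ p l φ (G v)) = φ v0 * PowerSeries.coeff m'
      (val B S (a + S) x eI eZ p l φ0 (G v)) := by
    intro v hv φ l hl m' hm'
    have h1 : φ = φ v0 • φ0 + (1 : K) • (φ - φ v0 • φ0) := by rw [one_smul]; abel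
    have h2 : (φ - φ v0 • φ0) v0 = 0 := by
      rw [LinearMap.sub_apply, LinearMap.smul_apply, hφ0, smul_eq_mul, mul_one, sub_self]
    have h3 := hU v hv _ h2 l hl m' hm'
    conv_lhs => rw [h1]
    rw [val_add_left, val_smul_left, one_smul, map_add, h3, add_zero, PowerSeries.coeff_C_mul]
  set N : Submodule K ((Fin m → Fin n → K) × (Fin n → K)) :=
    LinearMap.ker Rl ⊓ Kil.comap (LinearMap.fst K _ _) with hN
  have hNinj : Function.Injective ((LinearMap.snd K (Fin m → Fin n → K) (Fin n → K)) ∘ₗ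
      N.subtype) := by
    rw [injective_iff_map_eq_zero]
    rintro ⟨⟨v, e⟩, hve⟩ h
    have he : e = 0 := h
    subst he
    obtain ⟨h1, h2⟩ := Submodule.mem_inf.1 hve
    have h3 : v ∈ Kil := h2
    rw [LinearMap.mem_ker, hRl0] at h1
    have h4 : v = 0 := hR v h3 (fun φ l hl m' hm' => by
      rw [hφall v h3 φ l hl m' hm']
      have h5 := h1 l hl m' hm'
      simp only [Pi.zero_apply, zero_mul, Finset.sum_const_zero, add_zero] at h5
      rw [h5, mul_zero])
    subst h4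
    rfl
  have hNdim : Module.finrank K N ≤ n := by
    have h1 := LinearMap.finrank_le_finrank_of_injective hNinj
    simpa using h1
  set KT : Submodule K (Fin m → Fin n → K) := N.map (LinearMap.fst K _ _) with hKT
  have hKTdim : Module.finrank K KT ≤ n := (Submodule.finrank_map_le _ _).trans hNdim
  have hKTle : KT ≤ Kil := by
    rintro _ ⟨⟨v, e⟩, hve, rfl⟩
    exact (Submodule.mem_inf.1 hve).2
  obtain ⟨C0, hC0⟩ := Submodule.exists_isCompl (KT.comap Kil.subtype)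
  set SS0 : Submodule K (Fin m → Fin n → K) := C0.map Kil.subtype with hSS0
  have hSS0le : SS0 ≤ Kil := by
    rintro _ ⟨v, _, rfl⟩
    exact v.2
  have hSS0dim : Module.finrank K Kil ≤ Module.finrank K SS0 + n := by
    have h1 := Submodule.finrank_add_eq_of_isCompl hC0
    have h2 : Module.finrank K SS0 = Module.finrank K C0 :=
      (LinearEquiv.finrank_eq (Submodule.equivMapOfInjective _ Kil.injective_subtype C0)).symm
    have h3 : Module.finrank K (KT.comap Kil.subtype) ≤ Module.finrank K KT := by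
      refine LinearMap.finrank_le_finrank_of_injective
        (f := (Kil.subtype ∘ₗ (KT.comap Kil.subtype).subtype).codRestrict KT
          (fun v => v.2)) ?_
      intro v v' h
      have h4 := congrArg (fun u : KT => (u : Fin m → Fin n → K)) h
      exact Subtype.ext (Subtype.ext h4)
    omega
  have hSS0KT : ∀ v ∈ SS0, v ∈ KT → v = 0 := by
    rintro _ ⟨v, hv, rfl⟩ h
    have h1 : v ∈ KT.comap Kil.subtype ⊓ C0 := ⟨h, hv⟩
    rw [hC0.inf_eq_bot] at h1
    rw [(Submodule.mem_bot K).1 h1, map_zero]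
  -- the dictionary
  have hrange : SS0.map G ≤ LinearMap.range (thW B S s0 p n M bP) := by
    rintro _ ⟨v, hv, rfl⟩
    obtain ⟨X, hX⟩ := thW_surj B S s0 p n M hB bP ε w hw (fromc m n v)
      (fun i => fromc_mem m n v i)
    exact ⟨X, hX⟩
  refine ⟨(SS0.map G).comap (thW B S s0 p n M bP), ?_, ?_⟩
  · have h1 := Submodule.map_comap_eq_self hrange
    have h2 : Module.finrank K (SS0.map G) = Module.finrank K SS0 :=
      (LinearEquiv.finrank_eq (Submodule.equivMapOfInjective G hGinj SS0)).symm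
    have h3 := Submodule.finrank_map_le (thW (K := K) B S s0 p n M bP)
      ((SS0.map G).comap (thW B S s0 p n M bP))
    rw [h1, h2] at h3
    have h4 : p * (2 * f0) ≤ p * a := Nat.mul_le_mul_left _ hf0
    have h5 : p * (2 * f0) = 2 * (p * f0) := by ring
    have h6 : 8 * H * p = 2 * n := by rw [hn]; ring
    omega
  · intro X hX
    obtain ⟨v, hv, hvX⟩ := hX
    have hvX' : thW B S s0 p n M bP X = G v := hvX.symm
    have hv' := hSS0le hv
    have hAX : ∀ w0 : ℚ, |w0| < 4 * (p : ℚ) → ∀ β' < B * x, odp (β' % B) w0 → ∀ r ≤ S,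
        (rf S (thW B S s0 p n M bP X β') r).eval
          (((w0 - (2 * (p : ℚ) - 1)) / 2 : ℚ) : K) = 0 := by
      rw [hvX']
      exact hA v hv'
    have hval : ∀ (φ : W →ₗ[K] K) (l m' : ℕ), l < p → ∑ y : FW B (S + 1 - s0) n,
        PowerSeries.coeff m' (yW K M p n (a + S) (fun n => φ (zl n (X y))) (y.1 : ℕ)
          (s0 + (y.2.1 : ℕ)) (y.2.2 : ℕ) l -
            φ (inc (X y)) • gW K M p n (y.1 : ℕ) (s0 + (y.2.1 : ℕ)) (y.2.2 : ℕ) l) =
        PowerSeries.coeff m' (val B S (a + S) x eI eZ p l φ (G v)) := by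
      intro φ l m' hl
      have h1 := valW B S s0 p n M (a + S) hs0 bP X hAX (φ ∘ₗ inc) (fun n => φ ∘ₗ zl n) l hl
      rw [hvX'] at h1
      rw [← map_sum]
      exact congrArg (PowerSeries.coeff m') h1.symm
    refine ⟨?_, ?_, ?_⟩
    · intro φ hφ l hl m' hm'
      rw [he0] at hφ
      rw [hval φ l m' hl]
      exact hU v hv' φ hφ l hl m' hm'
    · intro ψ β hβ k hk r hr
      have hbp : (0 : ℚ) < 2 * (β : ℚ) + 1 := by positivity
      have h1 := coordW B S s0 p n M hs0 bP X ⟨β, hβ⟩ r (tpt K p β k) (fun i hi => by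
        have h2 := hAX ((2 * (k : ℚ) + 1) / (2 * (β : ℚ) + 1)) (by
          rw [abs_of_nonneg (by positivity), div_lt_iff₀ hbp]
          have h3 : 2 * k + 2 ≤ 2 * (2 * (2 * β + 1) * p) := by omega
          have h4 : (2 * (k : ℚ) + 2) ≤ 2 * (2 * (2 * β + 1) * p) := by exact_mod_cast h3
          nlinarith) (β + B * i) (by
            have h1 : B * (i + 1) ≤ B * x := Nat.mul_le_mul_left _ hi
            rw [Nat.mul_succ] at h1
            omega) (by
            rw [enc_mod hβ]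
            refine ⟨k, ?_⟩
            field_simp
            push_cast
            ring) r hr
        have e1 : ((((2 * (k : ℚ) + 1) / (2 * (β : ℚ) + 1) - (2 * (p : ℚ) - 1)) / 2 : ℚ) : K) =
            tpt K p β k := by
          unfold tpt
          push_cast
          rfl
        rw [e1] at h2
        exact h2) ψ
      rw [Fintype.sum_prod_type, Finset.sum_eq_single (⟨β, hβ⟩ : Fin B)]
      · simp only [if_true]
        exact h1
      · intro β' _ hne
        refine Finset.sum_eq_zero fun z _ => ?_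
        rw [if_neg (fun h => hne (Fin.ext h))]
      · intro h
        exact absurd (Finset.mem_univ _) h
    · intro φ hφ e he
      rw [he0] at hφ
      have hvKT : v ∈ KT := by
        refine ⟨(v, e), Submodule.mem_inf.2 ⟨?_, hv'⟩, rfl⟩
        rw [LinearMap.mem_ker, hRl0]
        intro l hl m' hm'
        have h1 := he l hl m' hm'
        rw [hval φ l m' hl, hφall v hv' φ l hl m' hm', hφ, one_mul] at h1
        exact h1
      have hv0 := hSS0KT v hv hvKT
      apply thW_inj B S s0 p n M bP X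
      rw [hvX', hv0, map_zero]

end Pool.Agent.DW
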