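import Pool.Agent.DW.ENT
import Pool.Agent.DW.BDA
import Pool.Agent.DW.BDG
import Pool.Agent.DW.SER
import Pool.Agent.DW.BDL
import Pool.Agent.DW.ZEW
import Pool.Agent.DW.MAPW
import Pool.Agent.DP.ONEP
import Pool.Agent.DK.JIN

/-!
# DW: the determinant inequality for fixed data and `M` large

Pattern `DP/ONEP`, with `DK/JIN.jd_ineq` (`K = ℚ`, `τ = Rat.castHom ℝ`) in place of
`det_ineq_joint`: `Cc = Fin (4Hp)` (`T` rows), `Fi = FW B (S+1-s0) (4Hp) × Fin x`,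
`Col = Fin p × Fin a`, `Ex = ({k : ι // k ≠ i0} × Col) ⊕ (AW B S p × Fin x)`; the shear `σ` is
`b k / e0` on the first part and `(b_i / e0) * sgW` on the second part. There are no low
coordinates. `R ≤ card Cc + card Fi`. The `h4` of `jd_ineq` is for embeddings of `ℚ` (the real
bounds).
-/

namespace Pool.Agent.DW

open Finset Pool.Agent.ZC Pool.Agent.SI Pool.Agent.DM Pool.Agent.DK Pool.Agent.DP Module

/-- low zeta values do not appear -/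
theorem yW_low (M p n T : ℕ) (i β κ j l : ℕ) (hi : i ≤ κ) (hi1 : 1 ≤ i) :
    yW ℚ M p n T (Pi.single i 1) β κ j l = 0 := by
  have h1 : hs ℚ κ (zs ℚ (2 * β + 1) (oddS T) (Pi.single i 1)) = 0 := by
    ext r
    rw [hs, PowerSeries.coeff_mk, map_zero, zs, map_sum, mul_sum]
    refine sum_eq_zero fun k _ => ?_
    by_cases hk : k = i
    · subst hk
      rw [PowerSeries.coeff_C_mul, PowerSeries.coeff_X_pow, if_neg (by omega), mul_zero, mul_zero]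
    · rw [Pi.single_eq_of_ne hk, mul_zero, map_zero, zero_mul, map_zero, mul_zero]
  rw [yW, h1, mul_zero]

/-- an extra coordinate at a position -/
noncomputable def xA {B R n x : ℕ} (M p s0 : ℕ) (e : FW B R n × Fin x) (β k r : ℕ) (i : Fin x) : ℚ :=
  if e.2 = i then
    (if (e.1.1 : ℕ) = β then aco (s0 + (e.1.2.1 : ℕ)) r (tpt ℚ p β k)
      (wP ℚ M p n β (s0 + (e.1.2.1 : ℕ)) (e.1.2.2 : ℕ)) else 0) else 0

theorem sum_xA {B R n x S : ℕ} (M p s0 : ℕ) (e : FW B R n × Fin x) (w : Fin x → ℝ)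
    (g : ℕ → ℕ → ℕ → ℝ) :
    ∑ u : AW B S p × Fin x, w u.2 * g (u.1.1.1 : ℕ) (u.1.1.2 : ℕ) (u.1.2 : ℕ) *
      ((xA M p s0 e (u.1.1.1 : ℕ) (u.1.1.2 : ℕ) (u.1.2 : ℕ) u.2 : ℚ) : ℝ) =
    w e.2 * ∑ k ∈ range (2 * (2 * (e.1.1 : ℕ) + 1) * p), ∑ r ∈ range (S + 1),
      g (e.1.1 : ℕ) k r * aco (s0 + (e.1.2.1 : ℕ)) r (tpt ℝ p (e.1.1 : ℕ) k)
        (wP ℝ M p n (e.1.1 : ℕ) (s0 + (e.1.2.1 : ℕ)) (e.1.2.2 : ℕ)) := by
  rw [Fintype.sum_prod_type]
  have h1 : ∀ u : AW B S p, ∑ i : Fin x, w i * g (u.1.1 : ℕ) (u.1.2 : ℕ) (u.2 : ℕ) *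
      ((xA M p s0 e (u.1.1 : ℕ) (u.1.2 : ℕ) (u.2 : ℕ) i : ℚ) : ℝ) =
      if e.1.1 = u.1.1 then w e.2 * (g (u.1.1 : ℕ) (u.1.2 : ℕ) (u.2 : ℕ) *
        aco (s0 + (e.1.2.1 : ℕ)) (u.2 : ℕ) (tpt ℝ p (u.1.1 : ℕ) (u.1.2 : ℕ))
        (wP ℝ M p n (u.1.1 : ℕ) (s0 + (e.1.2.1 : ℕ)) (e.1.2.2 : ℕ))) else 0 := by
    intro u
    rw [sum_eq_single e.2]
    · rw [xA, if_pos rfl]
      by_cases h : e.1.1 = u.1.1
      · rw [if_pos h, if_pos (by rw [h]), dw_cast_a ℝ, mul_assoc]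
      · rw [if_neg h, if_neg (fun h' => h (Fin.ext h')), Rat.cast_zero, mul_zero]
    · intro i _ hi
      rw [xA, if_neg (fun h => hi h.symm), Rat.cast_zero, mul_zero]
    · intro h
      exact absurd (mem_univ _) h
  simp_rw [h1]
  rw [Fintype.sum_prod_type, Fintype.sum_sigma, sum_eq_single e.1.1]
  · simp only [if_true]
    rw [mul_sum, ← Fin.sum_univ_eq_sum_range (fun k => w e.2 * ∑ r ∈ range (S + 1),
      g (e.1.1 : ℕ) k r * aco (s0 + (e.1.2.1 : ℕ)) r (tpt ℝ p (e.1.1 : ℕ) k)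
        (wP ℝ M p n (e.1.1 : ℕ) (s0 + (e.1.2.1 : ℕ)) (e.1.2.2 : ℕ)))]
    refine sum_congr rfl fun k _ => ?_
    rw [mul_sum, ← Fin.sum_univ_eq_sum_range (fun r => w e.2 *
      (g (e.1.1 : ℕ) (k : ℕ) r * aco (s0 + (e.1.2.1 : ℕ)) r (tpt ℝ p (e.1.1 : ℕ) (k : ℕ))
        (wP ℝ M p n (e.1.1 : ℕ) (s0 + (e.1.2.1 : ℕ)) (e.1.2.2 : ℕ))))]
  · intro β _ hβ
    refine sum_eq_zero fun k _ => sum_eq_zero fun r _ => ?_
    exact if_neg (fun h => hβ h.symm)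
  · intro h
    exact absurd (mem_univ _) h

theorem wrow_int {P : Type*} [AddCommGroup P] [Module ℚ P] {a S d M : ℕ} (hM : 0 < M)
    (hd : ∀ q : ℕ, 1 ≤ q → q ≤ M → q ∣ d) (p n T Q : ℕ)
    (q : P →ₗ[ℚ] ℚ) (c : ℕ → P →ₗ[ℚ] ℚ) (v : P) (hq : ∃ w : ℤ, (Q : ℚ) * q v = w)
    (hc : ∀ n ∈ oddS T, ∃ w : ℤ, (Q : ℚ) * c n v = w)
    (β κ j l m : ℕ) (hj : j < n) (hκ : κ ≤ S) (hm : m < a) :
    ∃ w : ℤ, ((Q * d ^ (a + S + 1) : ℕ) : ℚ) * wrow M p n T q c v β κ j l m = w := by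
  obtain ⟨w0, hw0⟩ := hq
  obtain ⟨w1, hw1⟩ := dw_int_g hM hd p n β κ j l m hj hκ hm
  obtain ⟨w2, hw2⟩ := dw_int_y hM hd T (fun n => c n v) Q hc p n β κ j l m hκ hm
  refine ⟨w2 - w0 * w1, ?_⟩
  rw [wrow, map_sub, PowerSeries.coeff_smul, smul_eq_mul, mul_sub, hw2]
  push_cast
  rw [← hw0, ← hw1]
  push_cast
  ring

theorem dw_one (P W : Submodule ℚ ℝ) [FiniteDimensional ℚ P] [FiniteDimensional ℚ W] (hPW : P ≤ W)
    (B H a S s0 f0 : ℕ) (hB : 1 ≤ B) (hBH : B ≤ H) (hs0 : 1 ≤ s0) (hs0S : s0 ≤ S)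
    (hP : 1 ≤ finrank ℚ P)
    (hI1 : 4 * B ^ 2 * finrank ℚ P * (S + 1) + 2 * finrank ℚ W * a + 8 * H ≤
      8 * H * B * finrank ℚ P * (S + 1 - s0) + a)
    (hI2 : 8 * H * finrank ℚ P + 16 * H + 1 ≤ a) (hf0 : 2 * f0 ≤ a)
    (hmul : ∀ n ∈ oddS (a + S), s0 < n → ∀ v ∈ P, zr n * v ∈ W) :
    ∃ D0 : ℕ, 0 < D0 ∧ ∃ Λ : ℝ, 1 ≤ Λ ∧ ∃ M0 : ℕ, ∀ M ≥ M0,
      1 ≤ (((D0 * Nat.lcmUpto M ^ (a + S + 1) : ℕ) : ℝ) *
          (Λ * (1000 * (H : ℝ) * (a + S + 1)) ^ (20 * (4 * H * ((a + S + 1) * M))))) ^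
            (4 * H * (finrank ℚ P * (B * (S + 1 - s0)) + 1) * ((a + S + 1) * M)) *
        (((4 * H * (finrank ℚ P * (B * (S + 1 - s0)) + 1) *
          ((a + S + 1) * M)).factorial : ℕ) : ℝ) *
        (4 / 5 : ℝ) ^ ((((a + S + 1) * M) * f0) * ((((a + S + 1) * M) * f0) - 1) / 2) := by
  classical
  have hH : 1 ≤ H := hB.trans hBH
  have ha : 1 ≤ a := by omega
  set T := a + S with hTdef
  -- multiplication maps
  set inc : P →ₗ[ℚ] W := Submodule.inclusion hPW with hinc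
  set zl : ℕ → P →ₗ[ℚ] W := fun n =>
    if h : n ∈ oddS T ∧ s0 < n then zmul P W n (hmul n h.1 h.2) else 0 with hzl
  have hzl1 : ∀ n ∈ oddS T, s0 < n → ∀ v : P, ((zl n v : W) : ℝ) = zr n * v := by
    intro n hn hs v
    simp only [hzl]
    rw [dif_pos ⟨hn, hs⟩]
    rfl
  obtain ⟨e0, he0, p0, hp0⟩ := dw_ze (K := ℚ) B H a S s0 f0 hB hBH hs0S hP hI1 hI2 hf0 inc
    (Submodule.inclusion_injective hPW) zl
  -- bases
  set w0 : W := inc e0 with hw0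
  have hw00 : w0 ≠ 0 := by
    intro h
    exact he0 (Submodule.inclusion_injective hPW (by rw [map_zero]; exact h))
  have he0r : (e0 : ℝ) ≠ 0 := by
    intro h
    exact he0 (Subtype.ext h)
  obtain ⟨ι, _, b, i0, hb0⟩ := exists_basis_with w0 hw00
  have hcoord : ∀ k : ι, b.coord k w0 = if k = i0 then 1 else 0 := by
    intro k
    rw [← hb0, Basis.coord_apply, Basis.repr_self, Finsupp.single_apply]
    simp only [eq_comm]
  set bP := finBasis ℚ P with hbP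
  set x := finrank ℚ P with hx
  have hsum : ∀ w : W, (w : ℝ) = ∑ k : ι, (b.coord k w : ℝ) * ((b k : W) : ℝ) := by
    intro w
    have h1 := congrArg (fun u : W => (u : ℝ)) (b.sum_repr w)
    simp only [Submodule.coe_sum, Submodule.coe_smul] at h1
    rw [← h1]
    refine sum_congr rfl fun k _ => ?_
    rw [Rat.smul_def, Basis.coord_apply]
  -- functionals
  set J : Type := Option ι with hJ
  set qJ : ι → P →ₗ[ℚ] ℚ := fun k => (b.coord k).comp inc with hqJ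
  set cJ : ι → ℕ → P →ₗ[ℚ] ℚ := fun k n => (b.coord k).comp (zl n) with hcJ
  -- denominators
  obtain ⟨D0, hD0, hDen⟩ := common_den
    ((univ : Finset (ι × Fin x × Option (Fin (T + 1)))))
    (fun e => match e.2.2 with
      | none => qJ e.1 (bP e.2.1)
      | some n => cJ e.1 n (bP e.2.1))
  have hDJq : ∀ j i, ∃ w : ℤ, (D0 : ℚ) * qJ j (bP i) = w := fun j i =>
    hDen (j, i, none) (mem_univ _)
  have hlt : ∀ n ∈ oddS T, n < T + 1 := fun n hn => by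
    simp only [oddS, mem_filter, mem_Icc] at hn
    omega
  have hDJc : ∀ j i, ∀ n ∈ oddS T, ∃ w : ℤ, (D0 : ℚ) * cJ j n (bP i) = w := fun j i n hn =>
    hDen (j, i, some ⟨n, hlt n hn⟩) (mem_univ _)
  -- constants
  obtain ⟨M1, hM1⟩ := dw_bd_l B H a S hB hBH ha
  obtain ⟨M2, hM2⟩ := dm_bd_t H a S hH ha
  obtain ⟨M3, hM3⟩ := dw_bd_g B H a S hB hBH ha
  obtain ⟨M5, hM5⟩ := dw_bd_a B H a S hB hBH ha
  choose M4 hM4 using fun n : ℕ => dw_bd_y B H a S T hB hBH ha (Pi.single n 1)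
  set Λ1 : ℝ := 1 + ∑ i : Fin x, |((bP i : P) : ℝ) / e0| +
    ∑ j : ι, ∑ i : Fin x, (|(qJ j (bP i) : ℝ)| + ∑ n ∈ oddS T, |(cJ j n (bP i) : ℝ)|) with hΛ1
  have hA0 : (0 : ℝ) ≤ ∑ i : Fin x, |((bP i : P) : ℝ) / e0| := sum_nonneg fun _ _ => abs_nonneg _
  have hB00 : ∀ (j : ι) (i : Fin x), (0 : ℝ) ≤ |(qJ j (bP i) : ℝ)| +
      ∑ n ∈ oddS T, |(cJ j n (bP i) : ℝ)| := fun j i =>
    add_nonneg (abs_nonneg _) (sum_nonneg fun _ _ => abs_nonneg _)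
  have hB0 : (0 : ℝ) ≤ ∑ j : ι, ∑ i : Fin x, (|(qJ j (bP i) : ℝ)| +
      ∑ n ∈ oddS T, |(cJ j n (bP i) : ℝ)|) := sum_nonneg fun j _ => sum_nonneg fun i _ => hB00 j i
  have hΛ1a : ∀ i, |((bP i : P) : ℝ) / e0| ≤ Λ1 := fun i => by
    have := single_le_sum (f := fun i : Fin x => |((bP i : P) : ℝ) / e0|)
      (fun _ _ => abs_nonneg _) (mem_univ i)
    linarith
  have hΛ1b : ∀ j i, |(qJ j (bP i) : ℝ)| + ∑ n ∈ oddS T, |(cJ j n (bP i) : ℝ)| ≤ Λ1 := fun j i => by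
    have h1 := single_le_sum (f := fun i : Fin x => |(qJ j (bP i) : ℝ)| +
      ∑ n ∈ oddS T, |(cJ j n (bP i) : ℝ)|) (fun i _ => hB00 j i) (mem_univ i)
    have h2 := single_le_sum (f := fun j : ι => ∑ i : Fin x, (|(qJ j (bP i) : ℝ)| +
      ∑ n ∈ oddS T, |(cJ j n (bP i) : ℝ)|)) (fun j _ => sum_nonneg fun i _ => hB00 j i) (mem_univ j)
    linarith
  have hΛ11 : 1 ≤ Λ1 := by linarith
  refine ⟨D0, hD0, 10 * Λ1, by linarith, p0 + M1 + M2 + M3 + M5 + (∑ n ∈ oddS T, M4 n) + 1,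
    fun M hM => ?_⟩
  have hMM4 : ∀ n ∈ oddS T, M4 n ≤ M := fun n hn => by
    have := single_le_sum (f := M4) (fun _ _ => Nat.zero_le _) hn
    omega
  have hLr := hM1 M (by omega)
  have hTr := hM2 M (by omega)
  have hGr := hM3 M (by omega)
  have hAr := hM5 M (by omega)
  have hYr := fun n hn => hM4 n M (hMM4 n hn)
  have hMpos : 0 < M := by omega
  obtain ⟨p, hp⟩ : ∃ p, p = (T + 1) * M := ⟨_, rfl⟩
  have hpM : M ≤ p := by rw [hp]; exact Nat.le_mul_of_pos_left _ (by omega)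
  have hp1 : 1 ≤ p := by omega
  have hTc : ((T : ℕ) : ℝ) = (a : ℝ) + S := by rw [hTdef]; push_cast; ring
  rw [← hp] at hLr hTr hGr hAr hYr ⊢
  set dd := Nat.lcmUpto M with hdd
  have hdd0 : 0 < dd := Nat.lcmUpto_pos _
  have hdv : ∀ q : ℕ, 1 ≤ q → q ≤ M → q ∣ dd := fun q h1 h2 => dvd_lcmUpto h1 h2
  have hHr : (1 : ℝ) ≤ H := by exact_mod_cast hH
  set n := 4 * H * p with hn
  set R := S + 1 - s0 with hR
  have hpp := hp0 p (by omega) M hMpos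
  rw [← hn] at hpp
  obtain ⟨SS, hSS1, hSS2⟩ := hpp
  have hbase : (1 : ℝ) ≤ 1000 * (H : ℝ) * (a + S + 1) := by
    have h1 : (1 : ℝ) ≤ (a : ℝ) + S + 1 := by
      have h2 : (0 : ℝ) ≤ a := by positivity
      have h3 : (0 : ℝ) ≤ S := by positivity
      linarith
    nlinarith
  set N0 : ℝ := (1000 * (H : ℝ) * (a + S + 1)) ^ (20 * n) with hN0
  have hN1 : (1 : ℝ) ≤ N0 := one_le_pow₀ hbase
  have hN5 : (1000 * (H : ℝ) * (a + S + 1)) ^ (5 * n) ≤ N0 :=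
    pow_le_pow_right₀ hbase (by omega)
  have hNN : N0 ≤ Λ1 * N0 := by nlinarith
  have hsingle : ∀ k : ℕ, (fun i => (((Pi.single k 1 : ℕ → ℚ) i : ℚ) : ℝ)) =
      (Pi.single k 1 : ℕ → ℝ) := cast_single ℝ
  -- index facts
  have hκ1 : ∀ y : FW B R n, 1 ≤ s0 + (y.2.1 : ℕ) := fun y => by omega
  have hκS : ∀ y : FW B R n, s0 + (y.2.1 : ℕ) ≤ S := fun y => by
    have := y.2.1.2
    omega
  -- bounds of the entries
  have hbG : ∀ (f : FW B R n) (c : Fin p × Fin a),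
      |((PowerSeries.coeff (c.2 : ℕ) (gW ℚ M p n f.1 (s0 + (f.2.1 : ℕ)) f.2.2 c.1) : ℚ) : ℝ)| ≤
        N0 := by
    intro f c
    rw [← dw_cast_g ℝ]
    exact hGr f.1 f.1.2 _ (hκS f) f.2.2 f.2.2.2 c.1 c.1.2 c.2 c.2.2
  have hbY : ∀ (f : FW B R n) (c : Fin p × Fin a), ∀ k ∈ oddS T,
      |((PowerSeries.coeff (c.2 : ℕ)
        (yW ℚ M p n T (Pi.single k 1) f.1 (s0 + (f.2.1 : ℕ)) f.2.2 c.1) : ℚ) : ℝ)| ≤ N0 := by
    intro f c k hk
    rw [← ps_coeff, ps_yW, hsingle]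
    exact hYr k hk f.1 f.1.2 _ (hκS f) f.2.2 f.2.2.2 c.1 c.1.2 c.2 c.2.2
  have hbX : ∀ (e : FW B R n × Fin x) (u : AW B S p × Fin x),
      |((xA M p s0 e (u.1.1.1 : ℕ) (u.1.1.2 : ℕ) (u.1.2 : ℕ) u.2 : ℚ) : ℝ)| ≤ N0 := by
    intro e u
    rw [xA]
    split_ifs with h1 h2
    · rw [← dw_cast_a ℝ]
      exact hAr u.1.1.1 u.1.1.1.2 _ (hκS e.1) e.1.2.2 e.1.2.2.2 u.1.1.2 u.1.1.2.2 u.1.2
    · rw [Rat.cast_zero, abs_zero]
      linarith
    · rw [Rat.cast_zero, abs_zero]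
      linarith
  -- transfer of `SS`
  set L : ((FW B R n × Fin x) → ℚ) →ₗ[ℚ] (FW B R n → P) :=
    { toFun := fun s f => ∑ i, s (f, i) • bP i
      map_add' := by
        intro s t
        funext f
        show ∑ i, (s + t) (f, i) • bP i = ∑ i, s (f, i) • bP i + ∑ i, t (f, i) • bP i
        rw [← sum_add_distrib]
        exact sum_congr rfl fun i _ => by rw [Pi.add_apply, add_smul]
      map_smul' := by
        intro c s
        funext f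
        show ∑ i, (c • s) (f, i) • bP i = c • ∑ i, s (f, i) • bP i
        rw [smul_sum]
        exact sum_congr rfl fun i _ => by rw [Pi.smul_apply, smul_eq_mul, mul_smul] } with hL
  have hLap : ∀ s f, L s f = ∑ i, s (f, i) • bP i := fun s f => rfl
  have hLinj : ∀ s, L s = 0 → s = 0 := by
    intro s hs
    funext e
    obtain ⟨f, i⟩ := e
    have h1 := congrFun hs f
    rw [hLap, Pi.zero_apply] at h1
    exact Fintype.linearIndependent_iff.1 bP.linearIndependent (fun i => s (f, i)) h1 i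
  have hLker : LinearMap.ker L = ⊥ := by
    rw [LinearMap.ker_eq_bot']
    exact hLinj
  have hLdim : finrank ℚ ((FW B R n × Fin x) → ℚ) = finrank ℚ (FW B R n → P) := by
    rw [finrank_pi, Module.finrank_pi_fintype]
    simp only [Fintype.card_prod, Fintype.card_fin, sum_const, card_univ, smul_eq_mul]
    rfl
  set Le := LinearEquiv.ofInjectiveOfFinrankEq L (LinearMap.ker_eq_bot.1 hLker) hLdim with hLe
  have hLe' : ∀ s, Le s = L s := fun s => rfl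
  set SS' : Submodule ℚ ((FW B R n × Fin x) → ℚ) := SS.map (Le.symm : _ →ₗ[ℚ] _) with hSS'
  have hSS'1 : p * f0 ≤ finrank ℚ SS' := by
    rw [hSS', LinearEquiv.finrank_map_eq]
    exact hSS1
  have hSS'2 : ∀ s ∈ SS', L s ∈ SS := by
    intro s hs
    rw [hSS', Submodule.mem_map] at hs
    obtain ⟨u, hu, rfl⟩ := hs
    have : L ((Le.symm : _ →ₗ[ℚ] _) u) = u := by
      rw [← hLe']
      exact Le.apply_symm_apply u
    rw [this]
    exact hu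
  have hrow : ∀ (q : P →ₗ[ℚ] ℚ) (c : ℕ → P →ₗ[ℚ] ℚ) (s : (FW B R n × Fin x) → ℚ)
      (cc : Fin p × Fin a), ∑ e : FW B R n × Fin x, s e * wrow M p n T q c (bP e.2) e.1.1
        (s0 + (e.1.2.1 : ℕ)) e.1.2.2 cc.1 cc.2 =
          ∑ f : FW B R n, wrow M p n T q c (L s f) f.1 (s0 + (f.2.1 : ℕ)) f.2.2 cc.1 cc.2 := by
    intro q c s cc
    rw [Fintype.sum_prod_type]
    refine sum_congr rfl fun f _ => ?_
    rw [hLap, wrow_sum]
  -- series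
  have hser : ∀ f : FW B R n, ∃ α : Fin n → ℝ, ∀ c : Fin p × Fin a,
      HasSum (fun κ' : ℕ => lamW M p n f.1 (s0 + (f.2.1 : ℕ)) f.2.2 κ' *
          PowerSeries.coeff (c.2 : ℕ) (yl ℝ p c.1 ^ (n + κ')))
        (PowerSeries.coeff (c.2 : ℕ) (yW ℝ M p n T zr f.1 (s0 + (f.2.1 : ℕ)) f.2.2 c.1) -
            PowerSeries.coeff (c.2 : ℕ) (gW ℝ M p n f.1 (s0 + (f.2.1 : ℕ)) f.2.2 c.1) +
          ∑ k ∈ range (2 * (2 * (f.1 : ℕ) + 1) * p), ∑ r ∈ range (S + 1),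
            sgW p f.1 k r c.1 c.2 * aco (s0 + (f.2.1 : ℕ)) r (tpt ℝ p f.1 k)
              (wP ℝ M p n f.1 (s0 + (f.2.1 : ℕ)) f.2.2) -
          ∑ i, α i * PowerSeries.coeff (c.2 : ℕ) (ev ℝ p c.1 (Cn ℝ M (i : ℕ)))) := by
    intro f
    obtain ⟨α, hα⟩ := dw_ser M p n T S f.1 (s0 + (f.2.1 : ℕ)) f.2.2 hp1 (hκ1 f) (hκS f) f.2.2.2
    refine ⟨α, fun c => hα c.1 c.1.2 c.2 ?_⟩
    have h2 := c.2.2
    have h3 := hκS f
    omega
  -- the shear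
  have hshear : ∀ (v : P) (f : FW B R n) (c : Fin p × Fin a),
      ((wrow M p n T (qJ i0) (cJ i0) v f.1 (s0 + (f.2.1 : ℕ)) f.2.2 c.1 c.2 : ℚ) : ℝ) +
        ∑ k : {k : ι // k ≠ i0}, ((b k.1 : W) : ℝ) / e0 *
          ((wrow M p n T (qJ k.1) (cJ k.1) v f.1 (s0 + (f.2.1 : ℕ)) f.2.2 c.1 c.2 : ℚ) : ℝ) =
      (v : ℝ) / e0 * (PowerSeries.coeff (c.2 : ℕ)
            (yW ℝ M p n T zr f.1 (s0 + (f.2.1 : ℕ)) f.2.2 c.1) -
          PowerSeries.coeff (c.2 : ℕ) (gW ℝ M p n f.1 (s0 + (f.2.1 : ℕ)) f.2.2 c.1)) := by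
    intro v f c
    set Dg : ℝ := ((PowerSeries.coeff (c.2 : ℕ)
      (gW ℚ M p n f.1 (s0 + (f.2.1 : ℕ)) f.2.2 c.1) : ℚ) : ℝ) with hDg
    set E : ℕ → ℝ := fun k => ((PowerSeries.coeff (c.2 : ℕ)
      (yW ℚ M p n T (Pi.single k 1) f.1 (s0 + (f.2.1 : ℕ)) f.2.2 c.1) : ℚ) : ℝ) with hE
    have e1 : ∀ k : ι, ((wrow M p n T (qJ k) (cJ k) v f.1 (s0 + (f.2.1 : ℕ)) f.2.2 c.1 c.2 : ℚ) :
          ℝ) = ∑ i ∈ oddS T, (b.coord k (zl i v) : ℝ) * E i - (b.coord k (inc v) : ℝ) * Dg := by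
      intro k
      rw [wrow_real]
      rfl
    have e2 : ((b i0 : W) : ℝ) / e0 = 1 := by
      rw [hb0, hw0]
      exact div_self he0r
    have e3 : ((wrow M p n T (qJ i0) (cJ i0) v f.1 (s0 + (f.2.1 : ℕ)) f.2.2 c.1 c.2 : ℚ) : ℝ) +
        ∑ k : {k : ι // k ≠ i0}, ((b k.1 : W) : ℝ) / e0 *
          ((wrow M p n T (qJ k.1) (cJ k.1) v f.1 (s0 + (f.2.1 : ℕ)) f.2.2 c.1 c.2 : ℚ) : ℝ) =
        ∑ k : ι, ((b k : W) : ℝ) / e0 *
          (∑ i ∈ oddS T, (b.coord k (zl i v) : ℝ) * E i - (b.coord k (inc v) : ℝ) * Dg) := by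
      have h1 := Fintype.sum_eq_add_sum_subtype_ne
        (fun k : ι => ((b k : W) : ℝ) / e0 *
          (∑ i ∈ oddS T, (b.coord k (zl i v) : ℝ) * E i - (b.coord k (inc v) : ℝ) * Dg)) i0
      rw [h1, e2, one_mul, ← e1 i0]
      congr 1
      exact sum_congr rfl fun k _ => by rw [e1]
    rw [e3]
    have e4 : ∀ w : W, ∑ k : ι, ((b k : W) : ℝ) / e0 * (b.coord k w : ℝ) = (w : ℝ) / e0 := by
      intro w
      rw [hsum w, sum_div]
      exact sum_congr rfl fun k _ => by ring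
    have e5 : ((inc v : W) : ℝ) = v := rfl
    have e6 : ∑ k : ι, ((b k : W) : ℝ) / e0 *
          (∑ i ∈ oddS T, (b.coord k (zl i v) : ℝ) * E i - (b.coord k (inc v) : ℝ) * Dg) =
        ∑ i ∈ oddS T, ((zl i v : W) : ℝ) / e0 * E i - (v : ℝ) / e0 * Dg := by
      simp only [mul_sub, sum_sub_distrib, mul_sum]
      congr 1
      · rw [sum_comm]
        refine sum_congr rfl fun i _ => ?_
        rw [← e4, sum_mul]
        exact sum_congr rfl fun k _ => by ring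
      · rw [← e5, ← e4, sum_mul]
        exact sum_congr rfl fun k _ => by ring
    have e7 : PowerSeries.coeff (c.2 : ℕ)
        (yW ℝ M p n T zr f.1 (s0 + (f.2.1 : ℕ)) f.2.2 c.1) = ∑ i ∈ oddS T, zr i * E i :=
      dw_lin_y ℝ M p n T zr f.1 (s0 + (f.2.1 : ℕ)) f.2.2 c.1 c.2
    have e8 : PowerSeries.coeff (c.2 : ℕ)
        (gW ℝ M p n f.1 (s0 + (f.2.1 : ℕ)) f.2.2 c.1) = Dg := dw_cast_g ℝ _ _ _ _ _ _ _ _
    rw [e6, e7, e8, mul_sub, mul_sum]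
    congr 1
    refine sum_congr rfl fun i hi => ?_
    by_cases h : s0 < i
    · rw [hzl1 i hi h]
      ring
    · have h1 : E i = 0 := by
        simp only [hE]
        rw [yW_low M p n T i _ _ _ _ (by omega) (by
          simp only [oddS, mem_filter, mem_Icc] at hi
          omega), map_zero, Rat.cast_zero]
      rw [h1, mul_zero, mul_zero, mul_zero]
  -- the extra coordinates
  set xx : (FW B R n × Fin x) → (({k : ι // k ≠ i0} × (Fin p × Fin a)) ⊕ (AW B S p × Fin x)) → ℚ :=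
    fun e => Sum.elim
      (fun u => wrow M p n T (qJ u.1.1) (cJ u.1.1) (bP e.2) e.1.1 (s0 + (e.1.2.1 : ℕ)) e.1.2.2
        u.2.1 u.2.2)
      (fun u => xA M p s0 e (u.1.1.1 : ℕ) (u.1.1.2 : ℕ) (u.1.2 : ℕ) u.2) with hxx
  set sg : (({k : ι // k ≠ i0} × (Fin p × Fin a)) ⊕ (AW B S p × Fin x)) → (Fin p × Fin a) → ℝ :=
    fun u c => Sum.elim (fun u => if u.2 = c then ((b u.1.1 : W) : ℝ) / e0 else 0)
      (fun u => ((bP u.2 : P) : ℝ) / e0 *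
        sgW p (u.1.1.1 : ℕ) (u.1.1.2 : ℕ) (u.1.2 : ℕ) c.1 c.2) u with hsg
  have htot : ∀ (e : FW B R n × Fin x) (c : Fin p × Fin a),
      ((wrow M p n T (qJ i0) (cJ i0) (bP e.2) e.1.1 (s0 + (e.1.2.1 : ℕ)) e.1.2.2 c.1 c.2 : ℚ) : ℝ) +
        ∑ u, sg u c * ((xx e u : ℚ) : ℝ) =
      ((bP e.2 : P) : ℝ) / e0 * (PowerSeries.coeff (c.2 : ℕ)
            (yW ℝ M p n T zr e.1.1 (s0 + (e.1.2.1 : ℕ)) e.1.2.2 c.1) -
          PowerSeries.coeff (c.2 : ℕ) (gW ℝ M p n e.1.1 (s0 + (e.1.2.1 : ℕ)) e.1.2.2 c.1) +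
          ∑ k ∈ range (2 * (2 * (e.1.1 : ℕ) + 1) * p), ∑ r ∈ range (S + 1),
            sgW p e.1.1 k r c.1 c.2 * aco (s0 + (e.1.2.1 : ℕ)) r (tpt ℝ p e.1.1 k)
              (wP ℝ M p n e.1.1 (s0 + (e.1.2.1 : ℕ)) e.1.2.2)) := by
    intro e c
    rw [Fintype.sum_sum_type, Fintype.sum_prod_type]
    have h1 : ∀ k : {k : ι // k ≠ i0}, ∑ u : Fin p × Fin a, sg (Sum.inl (k, u)) c *
        ((xx e (Sum.inl (k, u)) : ℚ) : ℝ) = ((b k.1 : W) : ℝ) / e0 *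
          ((wrow M p n T (qJ k.1) (cJ k.1) (bP e.2) e.1.1 (s0 + (e.1.2.1 : ℕ)) e.1.2.2 c.1 c.2 :
            ℚ) : ℝ) := by
      intro k
      rw [sum_eq_single c]
      · simp only [hsg, hxx, Sum.elim_inl, if_true]
      · intro u _ hu
        simp only [hsg, Sum.elim_inl]
        rw [if_neg hu, zero_mul]
      · intro h
        exact absurd (mem_univ _) h
    have h2 := sum_xA (B := B) (R := R) (n := n) (x := x) (S := S) M p s0 e
      (fun i => ((bP i : P) : ℝ) / e0) (fun β k r => sgW p β k r c.1 c.2)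
    simp_rw [h1]
    rw [← add_assoc, hshear (bP e.2) e.1 c, mul_add]
    congr 1
  have hK0 : ∀ s ∈ SS', ∀ u, ∑ e, s e * xx e u = 0 := by
    intro s hs u
    obtain ⟨h1, h2, -⟩ := hSS2 (L s) (hSS'2 s hs)
    rcases u with ⟨k, c⟩ | ⟨⟨⟨β, k⟩, r⟩, i⟩
    · simp only [hxx, Sum.elim_inl]
      rw [hrow]
      exact h1 (b.coord k.1) (by rw [hcoord, if_neg k.2]) c.1 c.1.2 c.2 c.2.2
    · simp only [hxx, Sum.elim_inr]
      have h4 := h2 (bP.coord i) β β.2 k k.2 r (Nat.lt_succ_iff.1 r.2)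
      rw [Fintype.sum_prod_type]
      refine Eq.trans (sum_congr rfl fun y _ => ?_) h4
      rw [sum_eq_single i]
      · rw [xA, if_pos rfl]
        by_cases h : (y.1 : ℕ) = (β : ℕ)
        · rw [if_pos h, if_pos h, hLap, map_sum]
          rw [sum_eq_single i]
          · rw [map_smul, Basis.coord_apply, Basis.repr_self, Finsupp.single_eq_same, smul_eq_mul,
              mul_one]
          · intro i' _ hi'
            rw [map_smul, Basis.coord_apply, Basis.repr_self, Finsupp.single_apply, if_neg hi',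
              smul_zero]
          · intro h
            exact absurd (mem_univ _) h
        · rw [if_neg h, if_neg h, mul_zero]
      · intro i' _ hi'
        rw [xA, if_neg hi', mul_zero]
      · intro h
        exact absurd (mem_univ _) h
  have hτ : ∀ q : ℚ, (Rat.castHom ℝ) q = (q : ℝ) := fun q => rfl
  have hintZ : ∀ q : ℚ, (∃ w : ℤ, q = w) → IsIntegral ℤ q := by
    rintro q ⟨w, rfl⟩
    exact isIntegral_algebraMap (R := ℤ) (x := w)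
  have hwint : ∀ (k : ι) (e : FW B R n × Fin x) (c : Fin p × Fin a),
      ∃ w : ℤ, ((D0 * dd ^ (a + S + 1) : ℕ) : ℚ) *
        wrow M p n T (qJ k) (cJ k) (bP e.2) e.1.1 (s0 + (e.1.2.1 : ℕ)) e.1.2.2 c.1 c.2 = w :=
    fun k e c => wrow_int hMpos hdv p n T D0 (qJ k) (cJ k) (bP e.2) (hDJq _ _) (hDJc _ _) _ _ _ _ _
      e.1.2.2.2 (hκS e.1) c.2.2
  have hwbd : ∀ (k : ι) (e : FW B R n × Fin x) (c : Fin p × Fin a),
      |((wrow M p n T (qJ k) (cJ k) (bP e.2) e.1.1 (s0 + (e.1.2.1 : ℕ)) e.1.2.2 c.1 c.2 : ℚ) : ℝ)| ≤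
        Λ1 * N0 := fun k e c =>
    (wrow_bd M p n T (qJ k) (cJ k) (bP e.2) _ _ _ _ _ N0 (hbG e.1 c) (hbY e.1 c)).trans
      (mul_le_mul_of_nonneg_right (hΛ1b k e.2) (by linarith))
  have hxbd : ∀ e u, |((xx e u : ℚ) : ℝ)| ≤ Λ1 * N0 := by
    intro e u
    rcases u with u | u
    · exact hwbd u.1.1 e u.2
    · exact (hbX e u).trans hNN
  have htbd : ∀ (i : Fin n) (c : Fin p × Fin a),
      |((PowerSeries.coeff (c.2 : ℕ) (ev ℚ p c.1 (Cn ℚ M i)) : ℚ) : ℝ)| ≤ Λ1 * N0 := by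
    intro i c
    have h1 := hTr i i.2 c.1 c.1.2 c.2
    rw [dk_lin_t ℝ] at h1
    exact (h1.trans hN5).trans hNN
  have hmain := jd_ineq (K := ℚ) (Rat.castHom ℝ) (Cc := Fin n) (Fi := FW B R n × Fin x)
    (Col := Fin p × Fin a) (Ex := ({k : ι // k ≠ i0} × (Fin p × Fin a)) ⊕ (AW B S p × Fin x))
    (Sum.elim (fun i c => PowerSeries.coeff (c.2 : ℕ) (ev ℚ p c.1 (Cn ℚ M i)))
      (fun e c => wrow M p n T (qJ i0) (cJ i0) (bP e.2) e.1.1 (s0 + (e.1.2.1 : ℕ)) e.1.2.2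
        c.1 c.2))
    xx (p * f0) SS' hSS'1 hK0
    (by
      intro s hs d h
      obtain ⟨-, -, h3⟩ := hSS2 (L s) (hSS'2 s hs)
      refine hLinj s (h3 (b.coord i0) (by rw [hcoord, if_pos rfl]) d fun l hl m hm => ?_)
      have h4 := h (⟨l, hl⟩, ⟨m, hm⟩)
      simp only [Sum.elim_inl, Sum.elim_inr] at h4
      have h5 := hrow (qJ i0) (cJ i0) s (⟨l, hl⟩, ⟨m, hm⟩)
      simp only at h5
      rw [h5, add_comm] at h4
      exact h4)
    (D0 * dd ^ (a + S + 1)) (by positivity)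
    (by
      rintro (i | e) c
      · exact hintZ _ (dm_int_t hMpos hdv p D0 c.1 i c.2 c.2.2)
      · exact hintZ _ (hwint i0 e c))
    (by
      rintro e (u | u)
      · exact hintZ _ (hwint u.1.1 e u.2)
      · refine hintZ _ ?_
        simp only [hxx, Sum.elim_inr]
        rw [xA]
        split_ifs with h1 h2
        · obtain ⟨w, hw⟩ := dw_int_a (a := a) hMpos hdv p n (u.1.1.1 : ℕ) (s0 + (e.1.2.1 : ℕ))
            (e.1.2.2 : ℕ) (u.1.1.2 : ℕ) (u.1.2 : ℕ) e.1.2.2.2 (hκS e.1)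
          refine ⟨D0 * w, ?_⟩
          push_cast
          rw [← hw]
          push_cast
          ring
        · exact ⟨0, by simp⟩
        · exact ⟨0, by simp⟩)
    (Λ1 * N0) (4 / 5) (by nlinarith) (by norm_num) (by norm_num)
    (fun e κ' => ((bP e.2 : P) : ℝ) / e0 *
      lamW M p n e.1.1 (s0 + (e.1.2.1 : ℕ)) e.1.2.2 κ')
    (fun κ' c => PowerSeries.coeff (c.2 : ℕ) (yl ℝ p c.1 ^ (n + κ')))
    (fun i c => htbd i c)
    hxbd
    (by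
      intro e κ' c
      have h5 : ∀ u v w : ℝ, u * v * w = u * (v * w) := fun u v w => mul_assoc u v w
      rw [h5, abs_mul, h5 Λ1]
      exact mul_le_mul (hΛ1a e.2) (hLr e.1.1 e.1.1.2 _ (hκS e.1) (hκ1 e.1) e.1.2.2 e.1.2.2.2
        c.1 c.1.2 c.2 c.2.2 κ') (abs_nonneg _) (by linarith))
    sg
    (by
      intro e
      obtain ⟨α, hα⟩ := hser e.1
      refine ⟨fun i => ((bP e.2 : P) : ℝ) / e0 * α i, fun c => ?_⟩
      have h1 := (hα c).mul_left (((bP e.2 : P) : ℝ) / e0)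
      have h2 : (fun κ' : ℕ => ((bP e.2 : P) : ℝ) / e0 *
          lamW M p n e.1.1 (s0 + (e.1.2.1 : ℕ)) e.1.2.2 κ' *
          PowerSeries.coeff (c.2 : ℕ) (yl ℝ p c.1 ^ (n + κ'))) =
          fun κ' : ℕ => ((bP e.2 : P) : ℝ) / e0 *
          (lamW M p n e.1.1 (s0 + (e.1.2.1 : ℕ)) e.1.2.2 κ' *
          PowerSeries.coeff (c.2 : ℕ) (yl ℝ p c.1 ^ (n + κ'))) := by
        funext κ'
        rw [mul_assoc (((bP e.2 : P) : ℝ) / e0)]
      have h3 := htot e c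
      have h4 : ∑ i, ((bP e.2 : P) : ℝ) / e0 * α i *
          ((PowerSeries.coeff (c.2 : ℕ) (ev ℚ p c.1 (Cn ℚ M i)) : ℚ) : ℝ) =
          ((bP e.2 : P) : ℝ) / e0 *
          ∑ i, α i * PowerSeries.coeff (c.2 : ℕ) (ev ℝ p c.1 (Cn ℝ M i)) := by
        rw [mul_sum]
        refine sum_congr rfl fun i _ => ?_
        rw [mul_assoc (((bP e.2 : P) : ℝ) / e0), dk_lin_t ℝ]
      rw [h2]
      simp only [Sum.elim_inr, Sum.elim_inl, hτ]
      rw [h3, h4, ← mul_sub]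
      exact h1)
    (by
      intro ρ
      have hρ : ∀ q : ℚ, ‖ρ q‖ = |(q : ℝ)| := by
        intro q
        rw [eq_ratCast ρ q, ← Complex.ofReal_ratCast, Complex.norm_real, Real.norm_eq_abs]
      refine ⟨fun i c => ?_, fun e u => ?_, fun e => ⟨fun _ => 0, fun c => ?_⟩⟩
      · rw [hρ]
        exact htbd i c
      · rw [hρ]
        exact hxbd e u
      · simp only [zero_mul, sum_const_zero, sub_zero]
        rw [hρ]
        exact hwbd i0 e c)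
  obtain ⟨Rk, hR1, -, hRk⟩ := hmain
  have hX : Fintype.card (Fin n) + Fintype.card (FW B R n × Fin x) =
      4 * H * (x * (B * R) + 1) * p := by
    simp only [Fintype.card_prod, Fintype.card_fin]
    rw [hn]
    ring
  rw [hX] at hR1
  set X := 4 * H * (x * (B * R) + 1) * p with hXd
  have hFX : Fintype.card (FW B R n × Fin x) ≤ X := by omega
  set Dr : ℝ := ((D0 * dd ^ (a + S + 1) : ℕ) : ℝ) with hDr
  have hDr1 : 1 ≤ Dr := by
    have h1 : 1 ≤ D0 * dd ^ (a + S + 1) := Nat.succ_le_of_lt (by positivity)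
    rw [hDr]
    exact Nat.one_le_cast.2 h1
  set Nr : ℝ := Λ1 * N0 with hNr
  have hNr1 : 1 ≤ Nr := hN1.trans hNN
  set t2 : ℝ := (4 / 5 : ℝ) ^ ((p * f0) * ((p * f0) - 1) / 2) with ht2
  have ht20 : 0 ≤ t2 := by positivity
  refine hRk.trans ?_
  rw [finrank_self, pow_one]
  have e1 : Dr ^ Rk * ((Rk.factorial : ℝ) * Nr ^ Rk) ≤ Dr ^ X * ((X.factorial : ℝ) * Nr ^ X) := by
    have h1 : Dr ^ Rk ≤ Dr ^ X := pow_le_pow_right₀ hDr1 hR1
    have h2 : Nr ^ Rk ≤ Nr ^ X := pow_le_pow_right₀ hNr1 hR1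
    have h3 : (Rk.factorial : ℝ) ≤ (X.factorial : ℝ) := by exact_mod_cast Nat.factorial_le hR1
    have h4 : 0 ≤ Nr ^ Rk := by positivity
    have h5 : 0 ≤ Dr ^ Rk := by positivity
    gcongr
  have e2 : (2 : ℝ) ^ Rk * (1 / (1 - 4 / 5)) ^ Fintype.card (FW B R n × Fin x) ≤ 10 ^ X := by
    have h1 : (2 : ℝ) ^ Rk ≤ 2 ^ X := pow_le_pow_right₀ (by norm_num) hR1
    have h2 : (1 / (1 - 4 / 5) : ℝ) ^ Fintype.card (FW B R n × Fin x) ≤ 5 ^ X := by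
      have h3 : (1 / (1 - 4 / 5) : ℝ) = 5 := by norm_num
      rw [h3]
      exact pow_le_pow_right₀ (by norm_num) hFX
    calc (2 : ℝ) ^ Rk * (1 / (1 - 4 / 5)) ^ Fintype.card (FW B R n × Fin x) ≤ 2 ^ X * 5 ^ X := by
          gcongr
      _ = 10 ^ X := by rw [← mul_pow]; norm_num
  calc Dr ^ Rk * ((Rk.factorial : ℝ) * Nr ^ Rk) *
        (2 ^ Rk * (t2 * (1 / (1 - 4 / 5)) ^ Fintype.card (FW B R n × Fin x)))
      = Dr ^ Rk * ((Rk.factorial : ℝ) * Nr ^ Rk) *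
        (2 ^ Rk * (1 / (1 - 4 / 5)) ^ Fintype.card (FW B R n × Fin x)) * t2 := by ring
    _ ≤ Dr ^ X * ((X.factorial : ℝ) * Nr ^ X) * 10 ^ X * t2 := by
        refine mul_le_mul_of_nonneg_right ?_ ht20
        refine mul_le_mul e1 e2 (by positivity) ?_
        positivity
    _ = (Dr * (10 * Λ1 * N0)) ^ X * (X.factorial : ℝ) * t2 := by
        have h1 : Dr * (10 * Λ1 * N0) = Dr * Nr * 10 := by rw [hNr]; ring
        rw [h1, mul_pow (Dr * Nr), mul_pow Dr]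
        generalize Nr ^ X = u1
        generalize Dr ^ X = u2
        ring

end Pool.Agent.DW
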