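import Pool.Agent.DW.Defs

/-!
# DW: regular part of `F / (t - t0)^(κ+1)` (algebra, any field)

All statements are elementary: Taylor expansion of `F` at `t0` (`F = ∑ m, C ((hasseDeriv m F)(t0))
(X - t0)^m`, Mathlib `Polynomial.sum_taylor_eq` / `taylor_coeff`), uniqueness of the division by
`(X - t0)^(κ+1)`.
-/

namespace Pool.Agent.DW

open Finset Polynomial Pool.Agent.ZC Pool.Agent.SI Pool.Agent.DM

variable {K : Type*} [Field K]

/-- Taylor expansion up to order `κ` -/
theorem ddq_taylor (κ : ℕ) (t0 : K) (F : K[X]) :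
    F = ∑ m ∈ range (κ + 1), C ((hasseDeriv m F).eval t0) * (X - C t0) ^ m +
      (X - C t0) ^ (κ + 1) * ddq κ t0 F := by
  set N := max F.natDegree κ with hN
  have h1 : F = ∑ m ∈ range (N + 1), C ((hasseDeriv m F).eval t0) * (X - C t0) ^ m := by
    conv_lhs => rw [← sum_taylor_eq F t0]
    rw [Polynomial.sum_over_range' _ _ (N + 1)]
    · refine Finset.sum_congr rfl fun m _ => ?_
      rw [taylor_coeff]
    · rw [natDegree_taylor]; omega
    · intro n; simp
  have h2 : (X - C t0) ^ (κ + 1) * ddq κ t0 F =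
      ∑ m ∈ Icc (κ + 1) N, C ((hasseDeriv m F).eval t0) * (X - C t0) ^ m := by
    unfold ddq
    rw [Finset.mul_sum]
    have h3 : ∑ m ∈ Icc (κ + 1) N, C ((hasseDeriv m F).eval t0) * (X - C t0) ^ m =
        ∑ m ∈ Icc (κ + 1) F.natDegree, C ((hasseDeriv m F).eval t0) * (X - C t0) ^ m := by
      symm
      refine Finset.sum_subset ?_ ?_
      · intro m hm
        rw [Finset.mem_Icc] at hm ⊢
        omega
      · intro m hm hm'
        rw [Finset.mem_Icc] at hm hm'
        rw [hasseDeriv_eq_zero_of_lt_natDegree F m (by omega), eval_zero, C_0, zero_mul]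
    rw [h3]
    refine Finset.sum_congr rfl fun m hm => ?_
    rw [Finset.mem_Icc] at hm
    rw [mul_left_comm, ← pow_add]
    congr 2
    omega
  rw [h2]
  conv_lhs => rw [h1]
  rw [Finset.range_eq_Ico, Finset.range_eq_Ico,
    ← Finset.sum_Ico_consecutive _ (Nat.zero_le (κ + 1)) (show κ + 1 ≤ N + 1 by omega)]
  congr 1

/-- uniqueness -/
theorem ddq_unique (κ : ℕ) (t0 : K) (F G : K[X]) (c : ℕ → K)
    (h : F = ∑ m ∈ range (κ + 1), C (c m) * (X - C t0) ^ m + (X - C t0) ^ (κ + 1) * G) :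
    ddq κ t0 F = G := by
  have h1 := ddq_taylor κ t0 F
  have h2 : (X - C t0) ^ (κ + 1) * (ddq κ t0 F - G) =
      ∑ m ∈ range (κ + 1), C (c m - (hasseDeriv m F).eval t0) * (X - C t0) ^ m := by
    have h3 : ∑ m ∈ range (κ + 1), C (c m - (hasseDeriv m F).eval t0) * (X - C t0) ^ m =
        ∑ m ∈ range (κ + 1), C (c m) * (X - C t0) ^ m -
          ∑ m ∈ range (κ + 1), C ((hasseDeriv m F).eval t0) * (X - C t0) ^ m := by
      rw [← Finset.sum_sub_distrib]
      refine Finset.sum_congr rfl fun m _ => ?_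
      rw [map_sub, sub_mul]
    rw [h3]
    linear_combination h - h1
  have h4 : X ^ (κ + 1) * (ddq κ t0 F - G).comp (X + C t0) =
      ∑ m ∈ range (κ + 1), C (c m - (hasseDeriv m F).eval t0) * X ^ m := by
    have h5 := congrArg (fun P => P.comp (X + C t0)) h2
    simp only [mul_comp, pow_comp, sub_comp, X_comp, C_comp, add_sub_cancel_right,
      Polynomial.sum_comp] at h5
    rw [sub_comp]
    exact h5
  have h6 : (ddq κ t0 F - G).comp (X + C t0) = 0 := by
    ext i
    have h7 := congrArg (fun P => P.coeff (i + (κ + 1))) h4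
    simp only [coeff_X_pow_mul, finsetSum_coeff, coeff_C_mul, coeff_X_pow] at h7
    rw [h7, coeff_zero]
    refine Finset.sum_eq_zero fun m hm => ?_
    rw [Finset.mem_range] at hm
    rw [if_neg (by omega), mul_zero]
  have h8 : ddq κ t0 F - G = ((ddq κ t0 F - G).comp (X + C t0)).comp (X - C t0) := by
    rw [comp_assoc, add_comp, X_comp, C_comp, sub_add_cancel, comp_X]
  rw [h6, zero_comp] at h8
  exact sub_eq_zero.1 h8

theorem ddq_C_mul (κ : ℕ) (t0 c : K) (F : K[X]) : ddq κ t0 (C c * F) = C c * ddq κ t0 F := by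
  apply ddq_unique κ t0 _ _ (fun m => c * (hasseDeriv m F).eval t0)
  conv_lhs => rw [ddq_taylor κ t0 F]
  rw [mul_add, Finset.mul_sum]
  congr 1
  · refine Finset.sum_congr rfl fun m _ => ?_
    rw [map_mul, mul_assoc]
  · ring

/-- recursion: one more linear factor -/
theorem ddq_mul_lin (κ : ℕ) (t0 a : K) (F : K[X]) :
    ddq κ t0 (F * (X - C a)) = ddq κ t0 F * (X - C a) + C ((hasseDeriv κ F).eval t0) := by
  apply ddq_unique κ t0 _ _ (fun m => (hasseDeriv m F).eval t0 * (t0 - a) +
    (if m = 0 then 0 else (hasseDeriv (m - 1) F).eval t0))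
  have h1 : ∑ m ∈ range (κ + 1), C ((hasseDeriv m F).eval t0 * (t0 - a) +
      (if m = 0 then 0 else (hasseDeriv (m - 1) F).eval t0)) * (X - C t0) ^ m =
      (∑ m ∈ range (κ + 1), C ((hasseDeriv m F).eval t0) * (X - C t0) ^ m) * C (t0 - a) +
      ∑ m ∈ range κ, C ((hasseDeriv m F).eval t0) * (X - C t0) ^ (m + 1) := by
    have h2 : ∑ m ∈ range κ, C ((hasseDeriv m F).eval t0) * (X - C t0) ^ (m + 1) =
        ∑ m ∈ range (κ + 1), C (if m = 0 then 0 else (hasseDeriv (m - 1) F).eval t0) *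
          (X - C t0) ^ m := by
      rw [Finset.sum_range_succ']
      simp
    rw [h2, Finset.sum_mul, ← Finset.sum_add_distrib]
    refine Finset.sum_congr rfl fun m _ => ?_
    rw [map_add, map_mul]
    ring
  have h3 : ∑ m ∈ range (κ + 1), C ((hasseDeriv m F).eval t0) * (X - C t0) ^ (m + 1) =
      ∑ m ∈ range κ, C ((hasseDeriv m F).eval t0) * (X - C t0) ^ (m + 1) +
        C ((hasseDeriv κ F).eval t0) * (X - C t0) ^ (κ + 1) := Finset.sum_range_succ _ _
  have h4 : ∑ m ∈ range (κ + 1), C ((hasseDeriv m F).eval t0) * (X - C t0) ^ (m + 1) =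
      (∑ m ∈ range (κ + 1), C ((hasseDeriv m F).eval t0) * (X - C t0) ^ m) * (X - C t0) := by
    rw [Finset.sum_mul]
    refine Finset.sum_congr rfl fun m _ => ?_
    ring
  rw [h1]
  have h5 := ddq_taylor κ t0 F
  have h6 : (C (t0 - a) : K[X]) = C t0 - C a := by rw [map_sub]
  rw [h6]
  generalize ∑ m ∈ range (κ + 1), C ((hasseDeriv m F).eval t0) * (X - C t0) ^ m = A at *
  generalize ∑ m ∈ range κ, C ((hasseDeriv m F).eval t0) * (X - C t0) ^ (m + 1) = B at *
  generalize ∑ m ∈ range (κ + 1), C ((hasseDeriv m F).eval t0) * (X - C t0) ^ (m + 1) = E at *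
  generalize ddq κ t0 F = D at *
  generalize C (eval t0 ((hasseDeriv κ) F)) = f at *
  linear_combination (X - C a) * h5 + h3 - h4

theorem ddq_natDegree_le (κ : ℕ) (t0 : K) (F : K[X]) :
    (ddq κ t0 F).natDegree ≤ F.natDegree - (κ + 1) := by
  unfold ddq
  refine natDegree_sum_le_of_forall_le _ _ fun m hm => ?_
  rw [Finset.mem_Icc] at hm
  refine (natDegree_C_mul_le _ _).trans ?_
  rw [natDegree_pow, natDegree_X_sub_C]
  omega

theorem tay_coeff_comp_neg (P : K[X]) (m : ℕ) : (P.comp (-X)).coeff m = (-1) ^ m * P.coeff m := by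
  induction P using Polynomial.induction_on' with
  | add p q hp hq => rw [add_comp, coeff_add, coeff_add, hp, hq, mul_add]
  | monomial n a =>
    rw [monomial_comp, neg_pow, ← mul_assoc, ← C_1, ← C_neg, ← C_pow, ← C_mul,
      coeff_C_mul, coeff_X_pow, coeff_monomial]
    by_cases h : m = n
    · subst h; simp; ring
    · rw [if_neg h, if_neg (Ne.symm h)]; ring

/-- Taylor coefficients at the reflected point -/
theorem tay_hasse_refl (κ m : ℕ) (t0 L : K) (F : K[X]) (h : F.comp (-X - C L) = C ((-1) ^ κ) * F) :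
    (hasseDeriv m F).eval t0 = (-1) ^ (κ + m) * (hasseDeriv m F).eval (-L - t0) := by
  rw [← taylor_coeff, ← taylor_coeff]
  have h1 : (taylor (-L - t0) F).comp (-X) = C ((-1) ^ κ) * taylor t0 F := by
    rw [taylor_apply, taylor_apply, comp_assoc]
    have h2 := congrArg (fun P => P.comp (X + C t0)) h
    simp only [comp_assoc, mul_comp, C_comp] at h2
    rw [← h2]
    congr 1
    simp only [add_comp, sub_comp, neg_comp, X_comp, C_comp, map_sub, map_neg]
    ring
  have h3 := congrArg (fun P => P.coeff m) h1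
  simp only [tay_coeff_comp_neg, coeff_C_mul] at h3
  rw [pow_add, mul_assoc, h3, ← mul_assoc, ← pow_add, ← two_mul, pow_mul, neg_one_sq, one_pow,
    one_mul]

/-- symmetry `t ↦ -L - t` -/
theorem ddq_symm (κ : ℕ) (t0 L : K) (F : K[X]) (h : F.comp (-X - C L) = C ((-1) ^ κ) * F) :
    (ddq κ (-L - t0) F).comp (-X - C L) = -ddq κ t0 F := by
  have h0 : ddq κ t0 F = -(ddq κ (-L - t0) F).comp (-X - C L) := by
    apply ddq_unique κ t0 _ _ (fun m => (hasseDeriv m F).eval t0)
    have h1 := ddq_taylor κ (-L - t0) F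
    have h2 := congrArg (fun P => P.comp (-X - C L)) h1
    simp only [add_comp, Polynomial.sum_comp, mul_comp, pow_comp, sub_comp, X_comp, C_comp] at h2
    rw [h] at h2
    have h3 : (-X - C L - C (-L - t0) : K[X]) = -(X - C t0) := by
      simp only [map_sub, map_neg]
      ring
    rw [h3] at h2
    have h4 : (C ((-1) ^ κ) * C ((-1) ^ κ) : K[X]) = 1 := by
      rw [← map_mul, ← pow_add, ← two_mul, pow_mul, neg_one_sq, one_pow, map_one]
    have h5 : F = C ((-1) ^ κ) * (C ((-1) ^ κ) * F) := by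
      rw [← mul_assoc, h4, one_mul]
    conv_lhs => rw [h5, h2]
    rw [mul_add, Finset.mul_sum]
    congr 1
    · refine Finset.sum_congr rfl fun m _ => ?_
      rw [tay_hasse_refl κ m t0 L F h, pow_add, neg_pow (X - C t0), map_mul, map_mul, map_pow C (-1) m,
        map_neg, map_one]
      ring
    · rw [neg_pow (X - C t0), map_pow, map_neg, map_one, pow_succ (-1 : K[X]) κ]
      have h6 : ((-1 : K[X]) ^ κ) * (-1) ^ κ = 1 := by
        rw [← pow_add, ← two_mul, pow_mul, neg_one_sq, one_pow]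
      linear_combination (-(X - C t0) ^ (κ + 1) * (ddq κ (-L - t0) F).comp (-X - C L)) * h6
  rw [h0, neg_neg]

theorem aco_symm (κ r : ℕ) (t0 L : K) (F : K[X]) (h : F.comp (-X - C L) = C ((-1) ^ κ) * F) :
    aco κ r (-L - t0) F = (-1) ^ r * aco κ r t0 F := by
  unfold aco
  by_cases hr : r ≤ κ
  · rw [if_pos hr, if_pos hr, tay_hasse_refl κ (κ - r) t0 L F h]
    have h1 : (-1 : K) ^ r * (-1) ^ (κ + (κ - r)) = 1 := by
      rw [← pow_add, show r + (κ + (κ - r)) = 2 * κ by omega, pow_mul, neg_one_sq, one_pow]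
    linear_combination (-(-1) ^ (κ - r) * (hasseDeriv (κ - r) F).eval (-L - t0)) * h1
  · rw [if_neg hr, if_neg hr, mul_zero]

/-- the row polynomial has parity `κ` -/
theorem wP_symm (M p n β κ j : ℕ) :
    (wP K M p n β κ j).comp (-X - C (2 * (p : K) - 1)) = C ((-1) ^ κ) * wP K M p n β κ j := by
  unfold wP
  have h1 : (-X - C (2 * (p : K) - 1) : K[X]) = C (-(2 * (p : K) - 1)) - X := by
    rw [map_neg]; ring
  rw [h1, mul_comp, pw_refl, C_comp]
  have h2 : ((-1 : K) ^ (κ % 2)) = (-1) ^ κ := by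
    conv_rhs => rw [← Nat.div_add_mod κ 2, pow_add, pow_mul, neg_one_sq, one_pow, one_mul]
  rw [h2]
  ring

/-- decomposition into polar part and regular part at the pole `t = -l + X` -/
theorem ker_dec (l κ : ℕ) (t0 : K) (F : K[X]) (h : t0 + l ≠ 0) :
    loc K l F * ((PowerSeries.C (t0 + l) - PowerSeries.X)⁻¹) ^ (κ + 1) =
      PowerSeries.C ((-1) ^ (κ + 1)) * loc K l (ddq κ t0 F) +
        ∑ r ∈ range (κ + 1), PowerSeries.C (aco κ r t0 F) *
          ((PowerSeries.C (t0 + l) - PowerSeries.X)⁻¹) ^ (r + 1) := by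
  set u : PowerSeries K := PowerSeries.C (t0 + l) - PowerSeries.X with hu
  have hu1 : u * u⁻¹ = 1 := by
    apply PowerSeries.mul_inv_cancel
    rw [hu]
    simpa using h
  have hl : loc K l (X - C t0) = -u := by
    rw [loc_apply, sub_comp, X_comp, C_comp, hu, map_add]
    simp only [Polynomial.coe_sub, Polynomial.coe_X, Polynomial.coe_C]
    ring
  have hC : ∀ c : K, loc K l (C c) = PowerSeries.C c := by
    intro c
    rw [loc_apply, C_comp, Polynomial.coe_C]
  have h1 := congrArg (loc K l) (ddq_taylor κ t0 F)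
  rw [map_add, map_sum, map_mul, map_pow, hl] at h1
  conv_lhs => rw [h1]
  rw [add_mul, add_comm, Finset.sum_mul]
  congr 1
  · have h2 : u ^ (κ + 1) * (u⁻¹) ^ (κ + 1) = 1 := by rw [← mul_pow, hu1, one_pow]
    rw [neg_pow, map_pow, map_neg, map_one]
    linear_combination ((-1) ^ (κ + 1) * loc K l (ddq κ t0 F)) * h2
  · rw [← Finset.sum_range_reflect]
    refine Finset.sum_congr rfl fun m hm => ?_
    rw [Finset.mem_range] at hm
    have h3 : κ + 1 - 1 - m ≤ κ := by omega
    rw [aco, if_pos (show m ≤ κ by omega)]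
    rw [show κ + 1 - 1 - m = κ - m by omega, map_mul, map_pow, hl, hC]
    have h4 : u ^ (κ - m) * (u⁻¹) ^ (κ - m) = 1 := by rw [← mul_pow, hu1, one_pow]
    have h5 : (u⁻¹) ^ (κ + 1) = (u⁻¹) ^ (κ - m) * (u⁻¹) ^ (m + 1) := by
      rw [← pow_add]; congr 1; omega
    rw [h5, neg_pow u, map_mul, map_pow, map_neg, map_one]
    linear_combination (PowerSeries.C ((hasseDeriv (κ - m) F).eval t0) * (-1) ^ (κ - m) *
      (u⁻¹) ^ (m + 1)) * h4

/-- coordinates as values of the right form: the operator with the only coefficient `F` in the slot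
`κ` -/
theorem aco_eq_rf (S κ r : ℕ) (hκ : κ ≤ S) (t0 : K) (F : K[X]) :
    aco κ r t0 F = (rf S (fun k => if k = κ then F else 0) r).eval t0 := by
  unfold rf aco
  by_cases hr : r ≤ κ
  · rw [if_pos hr, Finset.sum_eq_single κ]
    · simp only [if_true, eval_mul, eval_C]
    · intro k _ hk
      simp only [if_neg hk, map_zero, mul_zero]
    · intro hk
      exact absurd (Finset.mem_Icc.2 ⟨hr, hκ⟩) hk
  · rw [if_neg hr, Finset.sum_eq_zero]
    · rw [eval_zero]
    · intro k hk
      rw [Finset.mem_Icc] at hk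
      have hk' : k ≠ κ := by omega
      simp only [if_neg hk', map_zero, mul_zero]

end Pool.Agent.DW
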