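import Pool.Agent.DW.FAR
import Pool.Agent.DW.TAY

/-!
# DW: the real row, first part: tools
-/

namespace Pool.Agent.DW

open Finset Polynomial Pool.Agent.ZC Pool.Agent.SI Pool.Agent.DM

/-! ### inverse powers -/

/-- coefficients of the inverse powers -/
theorem sr1_inv_pow (c : ℝ) (hc : c ≠ 0) (r m : ℕ) :
    PowerSeries.coeff m (((PowerSeries.C c - PowerSeries.X : PowerSeries ℝ)⁻¹) ^ (r + 1)) =
      ((m + r).choose r : ℝ) * (c ^ (m + r + 1))⁻¹ := by
  have h0 : PowerSeries.constantCoeff (PowerSeries.C c - PowerSeries.X : PowerSeries ℝ) ≠ 0 := by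
    simpa using hc
  have hinv : (PowerSeries.C c - PowerSeries.X : PowerSeries ℝ) *
      (PowerSeries.C c - PowerSeries.X)⁻¹ = 1 := PowerSeries.mul_inv_cancel _ h0
  suffices h : ((PowerSeries.C c - PowerSeries.X : PowerSeries ℝ)⁻¹) ^ (r + 1) =
      PowerSeries.mk fun m => ((m + r).choose r : ℝ) * (c ^ (m + r + 1))⁻¹ by
    rw [h, PowerSeries.coeff_mk]
  have hmul : ∀ P Q : PowerSeries ℝ, (PowerSeries.C c - PowerSeries.X) * P = Q →
      P = (PowerSeries.C c - PowerSeries.X)⁻¹ * Q := by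
    intro P Q h
    rw [← h, ← mul_assoc, mul_comm _ (PowerSeries.C c - PowerSeries.X), hinv, one_mul]
  induction r with
  | zero =>
    rw [zero_add, pow_one]
    symm
    rw [← mul_one ((PowerSeries.C c - PowerSeries.X : PowerSeries ℝ)⁻¹)]
    apply hmul
    ext m
    rw [sub_mul, map_sub, PowerSeries.coeff_C_mul, PowerSeries.coeff_mk]
    rcases m with _ | m
    · simp [hc]
    · rw [mul_comm PowerSeries.X, PowerSeries.coeff_succ_mul_X, PowerSeries.coeff_mk,
        PowerSeries.coeff_one, if_neg (Nat.succ_ne_zero m)]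
      simp only [Nat.choose_zero_right, Nat.cast_one, one_mul, add_zero]
      rw [pow_succ' c (m + 1), mul_inv, ← mul_assoc, mul_inv_cancel₀ hc, one_mul, sub_self]
  | succ r ih =>
    rw [pow_succ', ih]
    symm
    apply hmul
    ext m
    rw [sub_mul, map_sub, PowerSeries.coeff_C_mul, PowerSeries.coeff_mk, PowerSeries.coeff_mk]
    have hc1 : c * (((m + (r + 1)).choose (r + 1) : ℝ) * (c ^ (m + (r + 1) + 1))⁻¹) =
        ((m + (r + 1)).choose (r + 1) : ℝ) * (c ^ (m + r + 1))⁻¹ := by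
      have : c ^ (m + (r + 1) + 1) = c * c ^ (m + r + 1) := by rw [← pow_succ']; congr 1
      rw [this, mul_inv]
      field_simp
    rw [hc1]
    rcases m with _ | m
    · simp
    · rw [mul_comm PowerSeries.X, PowerSeries.coeff_succ_mul_X, PowerSeries.coeff_mk]
      have e1 : m + 1 + (r + 1) = m + 1 + r + 1 := by ring
      have e2 : m + (r + 1) = m + 1 + r := by ring
      rw [e1, e2, Nat.choose_succ_succ]
      push_cast
      ring

/-! ### the positions -/

/-- index of the pole `l` among the positions -/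
def aW (p β l : ℕ) : ℕ := (2 * β + 1) * (p - 1 - l) + β

private theorem aW_cast (p β l : ℕ) (hl : l < p) :
    (aW p β l : ℝ) = ((2 * (β : ℝ) + 1) * (2 * (p : ℝ) - 1 - 2 * l) - 1) / 2 := by
  unfold aW
  have h : ((p - 1 - l : ℕ) : ℝ) = (p : ℝ) - 1 - l := by
    rw [Nat.cast_sub (by omega), Nat.cast_sub (by omega)]
    simp
  push_cast
  rw [h]
  ring

theorem tpt_add (p β l k : ℕ) (hl : l < p) :
    tpt ℝ p β k + l = ((k : ℝ) - aW p β l) / (2 * β + 1) := by
  have hb : (2 * (β : ℝ) + 1) ≠ 0 := by positivity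
  rw [aW_cast p β l hl]
  unfold tpt
  field_simp
  ring

theorem tpt_mir (p β l k : ℕ) (hl : l < p) :
    -(2 * (p : ℝ) - 1) - tpt ℝ p β k + l = -(((aW p β l : ℝ) + 1 + k) / (2 * β + 1)) := by
  have hb : (2 * (β : ℝ) + 1) ≠ 0 := by positivity
  rw [aW_cast p β l hl]
  unfold tpt
  field_simp
  ring

/-- signed function -/
noncomputable def sgF (l : ℕ) (F : ℝ → ℝ) (t : ℝ) : ℝ :=
  if t + l = 0 then 0 else (if 0 < t + l then 1 else -1) * F t

theorem kcW_eq (l m r : ℕ) (t : ℝ) :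
    kcW l m r t = sgF l (fun t => ((m + r).choose r : ℝ) * ((t + l) ^ (m + r + 1))⁻¹) t := by
  unfold kcW sgF
  simp only [mul_assoc]

/-- the sum over the positions, unsigned form -/
private theorem cnt (a M : ℕ) (u v : ℕ → ℝ) (h : a + 1 ≤ M) :
    ∑ k ∈ range M, ((if k < a then -v (a - k) else if k = a then 0 else u (k - a)) -
      v (a + 1 + k)) = ∑ i ∈ range (M - 1 - a), u (i + 1) - ∑ i ∈ range (M + a), v (i + 1) := by
  induction M, h using Nat.le_induction with
  | base =>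
    have e1 : a + 1 - 1 - a = 0 := by omega
    rw [e1, sum_range_zero, zero_sub, sum_sub_distrib, sum_range_succ, if_neg (lt_irrefl a),
      if_pos rfl, add_zero, add_comm (a + 1) a, sum_range_add (fun i => v (i + 1)) a (a + 1)]
    have h1 : ∑ x ∈ range a, (if x < a then -v (a - x) else if x = a then 0 else u (x - a)) =
        -∑ i ∈ range a, v (i + 1) := by
      rw [← sum_neg_distrib, ← sum_range_reflect (fun i => -v (i + 1)) a]
      refine sum_congr rfl fun k hk => ?_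
      rw [mem_range] at hk
      rw [if_pos hk]
      congr 2
      omega
    have h2 : ∑ x ∈ range (a + 1), v (a + 1 + x) = ∑ x ∈ range (a + 1), v (a + x + 1) :=
      sum_congr rfl fun k _ => by congr 1; ring
    rw [h1, h2]
    ring
  | succ M hM ih =>
    rw [sum_range_succ, ih]
    have e1 : M + 1 - 1 - a = (M - 1 - a) + 1 := by omega
    have e2 : M + 1 + a = (M + a) + 1 := by ring
    rw [e1, e2, sum_range_succ, sum_range_succ, if_neg (by omega), if_neg (by omega)]
    have e3 : M - 1 - a + 1 = M - a := by omega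
    have e4 : M + a + 1 = a + 1 + M := by ring
    rw [e3, e4]
    ring

theorem cnt_S (p β l M : ℕ) (hl : l < p) (F : ℝ → ℝ) (h : aW p β l + 1 ≤ M) :
    ∑ k ∈ range M, (sgF l F (tpt ℝ p β k) + sgF l F (-(2 * (p : ℝ) - 1) - tpt ℝ p β k)) =
      ∑ i ∈ range (M - 1 - aW p β l), F (((i + 1 : ℕ) : ℝ) / (2 * (β : ℝ) + 1) - l) -
        ∑ i ∈ range (M + aW p β l), F (-((i + 1 : ℕ) : ℝ) / (2 * (β : ℝ) + 1) - l) := by
  have hb : 0 < (2 * (β : ℝ) + 1) := by positivity
  rw [← cnt (aW p β l) M (fun i => F (((i : ℕ) : ℝ) / (2 * (β : ℝ) + 1) - l))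
    (fun i => F (-((i : ℕ) : ℝ) / (2 * (β : ℝ) + 1) - l)) h]
  refine sum_congr rfl fun k _ => ?_
  have h1 := tpt_add p β l k hl
  have h2 := tpt_mir p β l k hl
  have h2n : -(2 * (p : ℝ) - 1) - tpt ℝ p β k + l < 0 := by
    rw [h2, neg_lt_zero]; positivity
  have h3 : sgF l F (-(2 * (p : ℝ) - 1) - tpt ℝ p β k) =
      -F (-((aW p β l + 1 + k : ℕ) : ℝ) / (2 * (β : ℝ) + 1) - l) := by
    unfold sgF
    rw [if_neg h2n.ne, if_neg h2n.le.not_gt, neg_one_mul]
    congr 2
    push_cast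
    have := h2
    rw [← eq_sub_iff_add_eq] at this
    rw [this]
    ring
  rw [h3, sub_eq_add_neg]
  congr 1
  have h4 : tpt ℝ p β k = ((k : ℝ) - aW p β l) / (2 * β + 1) - l := eq_sub_iff_add_eq.2 h1
  unfold sgF
  rcases lt_trichotomy k (aW p β l) with hk | hk | hk
  · have hneg : tpt ℝ p β k + l < 0 := by
      rw [h1]
      exact div_neg_of_neg_of_pos (sub_neg.2 (by exact_mod_cast hk)) hb
    rw [if_neg hneg.ne, if_neg hneg.le.not_gt, if_pos hk, neg_one_mul]
    congr 2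
    rw [h4, Nat.cast_sub hk.le]
    ring
  · have hz : tpt ℝ p β k + l = 0 := by
      rw [h1, hk, sub_self, zero_div]
    rw [if_pos hz, if_neg (by omega), if_pos hk]
  · have hpos : 0 < tpt ℝ p β k + l := by
      rw [h1]
      exact div_pos (sub_pos.2 (by exact_mod_cast hk)) hb
    rw [if_neg hpos.ne', if_pos hpos, if_neg (by omega), if_neg (by omega), one_mul]
    congr 1
    rw [h4, Nat.cast_sub hk.le]

/-! ### the zeta part -/

/-- coefficients of `zs` -/
private theorem zs_coeff (β T r : ℕ) :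
    PowerSeries.coeff r (zs ℝ (2 * β + 1) (oddS T) zr) =
      if r + 1 ∈ oddS T then 2 * (2 * (β : ℝ) + 1) ^ (r + 1) * zr (r + 1) else 0 := by
  unfold zs
  rw [map_sum]
  have h : ∀ i ∈ oddS T, PowerSeries.coeff r (PowerSeries.C (2 * ((2 * β + 1 : ℕ) : ℝ) ^ i * zr i) *
      PowerSeries.X ^ (i - 1)) = if i = r + 1 then 2 * (2 * (β : ℝ) + 1) ^ (r + 1) * zr (r + 1)
      else 0 := by
    intro i hi
    have hi3 : 3 ≤ i := by
      unfold oddS at hi
      rw [Finset.mem_filter, Finset.mem_Icc] at hi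
      exact hi.1.1
    rw [PowerSeries.coeff_C_mul, PowerSeries.coeff_X_pow]
    by_cases h : i = r + 1
    · subst h
      simp
    · rw [if_neg (by omega), if_neg h, mul_zero]
  rw [Finset.sum_congr rfl h, Finset.sum_ite_eq']

/-- one half of the kernels -/
noncomputable def uW (β κ m k : ℕ) : ℝ :=
  ((m + κ).choose κ : ℝ) * ((2 * (β : ℝ) + 1) / (k + 1)) ^ (m + κ + 1)

theorem uW_hasSum (β κ m : ℕ) (hκ : 1 ≤ κ) :
    HasSum (uW β κ m) (((m + κ).choose κ : ℝ) * ((2 * (β : ℝ) + 1) ^ (m + κ + 1) *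
      zr (m + κ + 1))) := by
  have h1 : Summable fun n : ℕ => 1 / ((n : ℝ) + 1) ^ (m + κ + 1) := by
    have h2 := (summable_nat_add_iff 1).2 (Real.summable_one_div_nat_pow.2
      (show 1 < m + κ + 1 by omega))
    refine h2.congr fun n => ?_
    push_cast
    rfl
  have h3 := ((h1.hasSum.mul_left ((2 * (β : ℝ) + 1) ^ (m + κ + 1))).mul_left
    ((m + κ).choose κ : ℝ))
  have h4 : uW β κ m = fun k : ℕ => ((m + κ).choose κ : ℝ) *
      ((2 * (β : ℝ) + 1) ^ (m + κ + 1) * (1 / ((k : ℝ) + 1) ^ (m + κ + 1))) := by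
    funext k
    unfold uW
    rw [div_pow, mul_one_div]
  rw [h4]
  exact h3

theorem zs_half (β κ T m : ℕ) (hκ : 1 ≤ κ) (hm : m + κ < T) :
    PowerSeries.coeff m (hs ℝ κ (zs ℝ (2 * β + 1) (oddS T) zr)) =
      (1 + (-1) ^ (κ + m)) * (((m + κ).choose κ : ℝ) * ((2 * (β : ℝ) + 1) ^ (m + κ + 1) *
      zr (m + κ + 1))) := by
  rw [coeff_hs, zs_coeff]
  rcases Nat.even_or_odd (m + κ) with h | h
  · rw [if_pos, add_comm κ m, h.neg_one_pow]
    · ring
    · unfold oddS
      rw [mem_filter, mem_Icc]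
      refine ⟨⟨?_, by omega⟩, h.add_one⟩
      obtain ⟨r, hr⟩ := h
      omega
  · rw [if_neg, add_comm κ m, h.neg_one_pow]
    · ring
    · unfold oddS
      rw [mem_filter]
      rintro ⟨_, h2⟩
      exact (Nat.not_odd_iff_even.2 h.add_one) h2

private theorem kcW_pos (p β l κ i k : ℕ) (hl : l < p) (hk : aW p β l < k) :
    kcW l i κ (tpt ℝ p β k) = uW β κ i (k - aW p β l - 1) := by
  have hb : 0 < (2 * (β : ℝ) + 1) := by positivity
  have h1 := tpt_add p β l k hl
  have hpos : 0 < tpt ℝ p β k + l := by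
    rw [h1]
    exact div_pos (sub_pos.2 (by exact_mod_cast hk)) hb
  unfold kcW
  rw [if_neg hpos.ne', if_pos hpos, one_mul]
  unfold uW
  rw [h1, ← inv_pow, inv_div]
  congr 3
  rw [Nat.sub_sub, Nat.cast_sub (by omega)]
  push_cast
  ring

private theorem kcW_neg (p β l κ i k : ℕ) (hl : l < p) :
    kcW l i κ (-(2 * (p : ℝ) - 1) - tpt ℝ p β k) =
      (-1) ^ (κ + i) * uW β κ i (k + aW p β l) := by
  have hb : 0 < (2 * (β : ℝ) + 1) := by positivity
  have h2 := tpt_mir p β l k hl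
  have h2n : -(2 * (p : ℝ) - 1) - tpt ℝ p β k + l < 0 := by
    rw [h2, neg_lt_zero]; positivity
  unfold kcW
  rw [if_neg h2n.ne, if_neg h2n.le.not_gt]
  unfold uW
  rw [h2, ← inv_pow, inv_neg, inv_div, neg_pow]
  have e1 : ((aW p β l : ℝ) + 1 + k) = (((k + aW p β l : ℕ) : ℝ) + 1) := by push_cast; ring
  rw [e1]
  have e2 : (-1 : ℝ) ^ (i + κ + 1) = -(-1) ^ (κ + i) := by rw [pow_succ, add_comm κ i]; ring
  rw [e2]
  ring

/-- far kernels in terms of the positions -/
private theorem far_term (p β l κ i k : ℕ) (hl : l < p) :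
    2 ^ (κ + 1) * ((i + κ).choose κ : ℝ) * 2 ^ i *
      (((w0F p β k - (2 * (p : ℝ) - 1 - 2 * l)) ^ (i + κ + 1))⁻¹ +
      (-1) ^ (κ + i) * ((w0F p β k + (2 * (p : ℝ) - 1 - 2 * l)) ^ (i + κ + 1))⁻¹) =
    kcW l i κ (tpt ℝ p β (k + 2 * (2 * β + 1) * p)) +
      kcW l i κ (-(2 * (p : ℝ) - 1) - tpt ℝ p β (k + 2 * (2 * β + 1) * p)) := by
  have hb : 0 < (2 * (β : ℝ) + 1) := by positivity
  have hk : aW p β l < k + 2 * (2 * β + 1) * p := by
    unfold aW
    have : (2 * β + 1) * (p - 1 - l) ≤ (2 * β + 1) * (p - 1) := Nat.mul_le_mul_left _ (by omega)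
    have h3 : (2 * β + 1) * (p - 1) + (2 * β + 1) = (2 * β + 1) * p := by
      rw [← Nat.mul_succ]; congr 1; omega
    have h4 : 2 * (2 * β + 1) * p = (2 * β + 1) * p + (2 * β + 1) * p := by ring
    omega
  rw [kcW_pos p β l κ i _ hl hk, kcW_neg p β l κ i _ hl]
  have hc := aW_cast p β l hl
  set N := k + 2 * (2 * β + 1) * p with hN
  have hNc : (N : ℝ) = (k : ℝ) + 2 * (2 * β + 1) * p := by rw [hN]; push_cast; ring
  have e1 : w0F p β k - (2 * (p : ℝ) - 1 - 2 * l) = 2 * (((N : ℝ) - aW p β l) / (2 * β + 1)) := by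
    rw [hc, hNc]
    unfold w0F
    field_simp
    ring
  have e2 : w0F p β k + (2 * (p : ℝ) - 1 - 2 * l) =
      2 * (((N : ℝ) + aW p β l + 1) / (2 * β + 1)) := by
    rw [hc, hNc]
    unfold w0F
    field_simp
    ring
  unfold uW
  have e3 : (((N - aW p β l - 1 : ℕ) : ℝ) + 1) = (N : ℝ) - aW p β l := by
    rw [Nat.sub_sub, Nat.cast_sub (by omega)]
    push_cast
    ring
  have e4 : (((N + aW p β l : ℕ) : ℝ) + 1) = (N : ℝ) + aW p β l + 1 := by push_cast; ring
  have e5 : ∀ x : ℝ, 2 ^ (κ + 1) * ((i + κ).choose κ : ℝ) * 2 ^ i *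
      ((2 * (x / (2 * (β : ℝ) + 1))) ^ (i + κ + 1))⁻¹ =
      ((i + κ).choose κ : ℝ) * ((2 * (β : ℝ) + 1) / x) ^ (i + κ + 1) := by
    intro x
    rw [mul_pow, mul_inv, ← inv_pow (x / _), inv_div]
    have h2 : (2 : ℝ) ^ (i + κ + 1) = 2 ^ (κ + 1) * 2 ^ i := by rw [← pow_add]; congr 1; ring
    rw [h2]
    have h3 : (2 : ℝ) ^ (κ + 1) * 2 ^ i ≠ 0 := by positivity
    field_simp
  rw [e1, e2, e3, e4, mul_add, e5, mul_left_comm _ ((-1 : ℝ) ^ (κ + i)), e5]

/-- the far kernels are summable -/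
theorem fkc_summable (p β κ l i : ℕ) (hl : l < p) (hκ : 1 ≤ κ) :
    Summable fun k : ℕ => 2 ^ (κ + 1) * ((i + κ).choose κ : ℝ) * 2 ^ i *
      (((w0F p β k - (2 * (p : ℝ) - 1 - 2 * l)) ^ (i + κ + 1))⁻¹ +
      (-1) ^ (κ + i) * ((w0F p β k + (2 * (p : ℝ) - 1 - 2 * l)) ^ (i + κ + 1))⁻¹) := by
  have hU := (uW_hasSum β κ i hκ).summable
  set N := 2 * (2 * β + 1) * p with hN
  have hk : aW p β l + 1 ≤ N := by
    rw [hN]
    unfold aW
    have : (2 * β + 1) * (p - 1 - l) ≤ (2 * β + 1) * (p - 1) := Nat.mul_le_mul_left _ (by omega)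
    have h3 : (2 * β + 1) * (p - 1) + (2 * β + 1) = (2 * β + 1) * p := by
      rw [← Nat.mul_succ]; congr 1; omega
    have h4 : 2 * (2 * β + 1) * p = (2 * β + 1) * p + (2 * β + 1) * p := by ring
    omega
  have h1 : Summable (fun k => uW β κ i (k + (N - aW p β l - 1))) := (summable_nat_add_iff _).2 hU
  have h2 : Summable (fun k => uW β κ i (k + (N + aW p β l))) := (summable_nat_add_iff _).2 hU
  refine (h1.add (h2.mul_left ((-1) ^ (κ + i)))).congr fun k => ?_
  rw [far_term p β l κ i k hl, kcW_neg p β l κ i _ hl, kcW_pos p β l κ i _ hl (by omega)]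
  congr 2
  · congr 1
    omega
  · congr 1
    omega

/-- **the zeta part is the sum over the positions** -/
theorem zs_split (p β l κ T i : ℕ) (hl : l < p) (hκ : 1 ≤ κ) (hi : i + κ < T) :
    PowerSeries.coeff i (hs ℝ κ (zs ℝ (2 * β + 1) (oddS T) zr)) =
      ∑ k ∈ range (2 * (2 * β + 1) * p), (kcW l i κ (tpt ℝ p β k) +
        kcW l i κ (-(2 * (p : ℝ) - 1) - tpt ℝ p β k)) + fkc p β κ l i := by
  have hp : 1 ≤ p := by omega
  set a := aW p β l with ha
  set N := 2 * (2 * β + 1) * p with hN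
  have hk : a + 1 ≤ N := by
    rw [ha, hN]
    unfold aW
    have : (2 * β + 1) * (p - 1 - l) ≤ (2 * β + 1) * (p - 1) := Nat.mul_le_mul_left _ (by omega)
    have h3 : (2 * β + 1) * (p - 1) + (2 * β + 1) = (2 * β + 1) * p := by
      rw [← Nat.mul_succ]; congr 1; omega
    have h4 : 2 * (2 * β + 1) * p = (2 * β + 1) * p + (2 * β + 1) * p := by ring
    omega
  have hU := uW_hasSum β κ i hκ
  set U := (((i + κ).choose κ : ℝ) * ((2 * (β : ℝ) + 1) ^ (i + κ + 1) * zr (i + κ + 1))) with hUd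
  -- the far part
  have hf1 : HasSum (fun k => uW β κ i (k + (N - a - 1))) (U - ∑ k ∈ range (N - a - 1), uW β κ i k) :=
    (hasSum_nat_add_iff' (N - a - 1)).2 hU
  have hf2 : HasSum (fun k => uW β κ i (k + (N + a))) (U - ∑ k ∈ range (N + a), uW β κ i k) :=
    (hasSum_nat_add_iff' (N + a)).2 hU
  have hf := hf1.add (hf2.mul_left ((-1) ^ (κ + i)))
  have hfkc : fkc p β κ l i = (U - ∑ k ∈ range (N - a - 1), uW β κ i k) +
      (-1) ^ (κ + i) * (U - ∑ k ∈ range (N + a), uW β κ i k) := by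
    rw [← hf.tsum_eq]
    unfold fkc
    refine tsum_congr fun k => ?_
    rw [far_term p β l κ i k hl, kcW_neg p β l κ i _ hl, kcW_pos p β l κ i _ hl (by omega)]
    congr 2
    · congr 1
      omega
    · congr 1
      omega
  -- the near part
  have hn : ∑ k ∈ range N, (kcW l i κ (tpt ℝ p β k) +
      kcW l i κ (-(2 * (p : ℝ) - 1) - tpt ℝ p β k)) =
      ∑ k ∈ range (N - a - 1), uW β κ i k + (-1) ^ (κ + i) * ∑ k ∈ range (N + a), uW β κ i k := by
    simp only [kcW_eq]
    rw [cnt_S p β l N hl _ hk, mul_sum, sub_eq_add_neg, ← sum_neg_distrib]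
    congr 1
    · have : N - 1 - aW p β l = N - a - 1 := by rw [ha]; omega
      rw [this]
      refine sum_congr rfl fun k _ => ?_
      unfold uW
      rw [sub_add_cancel, ← inv_pow, inv_div]
      push_cast
      rfl
    · refine sum_congr rfl fun k _ => ?_
      unfold uW
      rw [sub_add_cancel, ← inv_pow, neg_div, inv_neg, inv_div, neg_pow]
      have e2 : (-1 : ℝ) ^ (i + κ + 1) = -(-1) ^ (κ + i) := by rw [pow_succ, add_comm κ i]; ring
      rw [e2]
      push_cast
      ring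
  rw [hn, hfkc, zs_half β κ T i hκ hi, ← hUd]
  ring

/-! ### even polynomials -/

private theorem comp_neg_coeff (H : ℝ[X]) (j : ℕ) : (H.comp (-X)).coeff j = (-1) ^ j * H.coeff j := by
  have h : (-X : ℝ[X]) = C (-1) * X := by simp
  rw [h, comp_C_mul_X_coeff, mul_comm]

private theorem sum_even (n : ℕ) (f : ℕ → ℝ[X]) (h : ∀ j, Odd j → f j = 0) :
    ∑ j ∈ range (2 * n), f j = ∑ i ∈ range n, f (2 * i) := by
  induction n with
  | zero => simp
  | succ n ih =>
    have e : 2 * (n + 1) = 2 * n + 1 + 1 := by ring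
    rw [e, sum_range_succ, sum_range_succ, ih, sum_range_succ, h (2 * n + 1) ⟨n, rfl⟩, add_zero]

/-- a polynomial which is even in `w` -/
theorem even_tp (p n : ℕ) (G : ℝ[X]) (hG : G.comp (-X - C (2 * (p : ℝ) - 1)) = G)
    (hd : G.natDegree < 2 * n) :
    ∃ Q ∈ degreeLT ℝ n, Q.comp (tp ℝ p) = G := by
  set L : ℝ := 2 * (p : ℝ) - 1 with hL
  set H : ℝ[X] := G.comp (C (1 / 2) * X - C (L / 2)) with hH
  have hw : (C (1 / 2) * X - C (L / 2) : ℝ[X]).comp (wpol ℝ p) = X := by
    unfold wpol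
    simp only [sub_comp, mul_comp, C_comp, X_comp]
    rw [mul_add, ← mul_assoc, ← C_mul, ← C_mul, ← hL]
    have e1 : (1 / 2 * 2 : ℝ) = 1 := by norm_num
    have e2 : (1 / 2 * L : ℝ) = L / 2 := by ring
    rw [e1, e2, C_1, one_mul, add_sub_cancel_right]
  have hHw : H.comp (wpol ℝ p) = G := by
    rw [hH, comp_assoc, hw, comp_X]
  have hHe : H.comp (-X) = H := by
    have e : (C (1 / 2) * X - C (L / 2) : ℝ[X]).comp (-X) =
        (-X - C L : ℝ[X]).comp (C (1 / 2) * X - C (L / 2)) := by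
      simp only [sub_comp, mul_comp, C_comp, X_comp, neg_comp]
      have e3 : (C L : ℝ[X]) = C (L / 2) + C (L / 2) := by rw [← C_add]; congr 1; ring
      rw [e3]
      ring
    calc H.comp (-X) = G.comp ((C (1 / 2) * X - C (L / 2) : ℝ[X]).comp (-X)) := by
          rw [hH, comp_assoc]
      _ = (G.comp (-X - C L)).comp (C (1 / 2) * X - C (L / 2)) := by rw [e, comp_assoc]
      _ = H := by rw [hG]
  have hodd : ∀ j, Odd j → H.coeff j = 0 := by
    intro j hj
    have h1 := comp_neg_coeff H j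
    rw [hHe, hj.neg_one_pow] at h1
    linarith
  have hHd : H.natDegree < 2 * n := by
    refine lt_of_le_of_lt ?_ hd
    rw [hH]
    refine natDegree_comp_le.trans ?_
    have : (C (1 / 2) * X - C (L / 2) : ℝ[X]).natDegree ≤ 1 := by
      refine (natDegree_sub_le _ _).trans ?_
      rw [natDegree_C]
      exact max_le ((natDegree_C_mul_le _ _).trans natDegree_X_le) zero_le_one
    calc G.natDegree * _ ≤ G.natDegree * 1 := Nat.mul_le_mul_left _ this
      _ = _ := mul_one _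
  refine ⟨∑ i ∈ range n, C (H.coeff (2 * i)) * X ^ i, ?_, ?_⟩
  · refine Submodule.sum_mem _ fun i hi => ?_
    rw [mem_degreeLT]
    refine lt_of_le_of_lt (degree_C_mul_X_pow_le _ _) ?_
    exact_mod_cast mem_range.mp hi
  · have h1 : H = ∑ j ∈ range (2 * n), C (H.coeff j) * X ^ j := by
      rw [← as_sum_range_C_mul_X_pow' H hHd]
    have h2 : (∑ i ∈ range n, C (H.coeff (2 * i)) * X ^ i : ℝ[X]).comp (tp ℝ p) =
        (∑ i ∈ range n, C (H.coeff (2 * i)) * X ^ (2 * i) : ℝ[X]).comp (wpol ℝ p) := by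
      have hs : ∀ (g : ℕ → ℝ[X]) (q : ℝ[X]), (∑ i ∈ range n, g i).comp q =
          ∑ i ∈ range n, (g i).comp q := by
        intro g q
        have h := map_sum (compRingHom q) g (range n)
        simpa only [coe_compRingHom_apply] using h
      rw [hs, hs]
      refine sum_congr rfl fun i _ => ?_
      simp only [mul_comp, C_comp, pow_comp, X_comp]
      rw [pow_mul, wpol_sq]
    rw [h2, ← sum_even n (fun j => C (H.coeff j) * X ^ j) fun j hj => by
      rw [hodd j hj, C_0, zero_mul], ← h1, hHw]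

/-! ### one position -/

/-- the row polynomial -/
theorem wP_natDegree_le (M p n β κ j : ℕ) : (wP ℝ M p n β κ j).natDegree ≤ κ % 2 + 2 * j := by
  unfold wP
  refine (natDegree_C_mul_le _ _).trans ?_
  unfold pw
  refine natDegree_mul_le.trans ?_
  refine Nat.add_le_add ?_ ?_
  · refine natDegree_pow_le.trans ?_
    rw [natDegree_wpol, mul_one]
  · rw [natDegree_comp_tp]
    exact Nat.mul_le_mul_left _ (natDegree_le_of_degree_le (Cn_degree (K := ℝ) M j).le)

/-- product of a local polynomial with a kernel -/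
theorem ker_one (l κ m : ℕ) (F : ℝ[X]) (t : ℝ) :
    ∑ x ∈ antidiagonal m, PowerSeries.coeff x.1 (loc ℝ l F) * kcW l x.2 κ t =
      sgF l (fun t => (-1) ^ (κ + 1) * PowerSeries.coeff m (loc ℝ l (ddq κ t F))) t +
        ∑ r ∈ range (κ + 1), kcW l m r t * aco κ r t F := by
  by_cases ht : t + l = 0
  · have hk : ∀ i r, kcW l i r t = 0 := fun i r => by unfold kcW; rw [if_pos ht]
    have hs : sgF l (fun t => (-1) ^ (κ + 1) * PowerSeries.coeff m (loc ℝ l (ddq κ t F))) t = 0 := by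
      unfold sgF; rw [if_pos ht]
    simp [hk, hs]
  · have hk : ∀ i r, kcW l i r t = (if 0 < t + l then (1 : ℝ) else -1) *
        PowerSeries.coeff i (((PowerSeries.C (t + l) - PowerSeries.X : PowerSeries ℝ)⁻¹) ^ (r + 1)) := by
      intro i r
      rw [sr1_inv_pow _ ht]
      unfold kcW
      rw [if_neg ht, mul_assoc]
    have h1 : ∑ x ∈ antidiagonal m, PowerSeries.coeff x.1 (loc ℝ l F) * kcW l x.2 κ t =
        (if 0 < t + l then (1 : ℝ) else -1) * PowerSeries.coeff m (loc ℝ l F *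
          ((PowerSeries.C (t + l) - PowerSeries.X : PowerSeries ℝ)⁻¹) ^ (κ + 1)) := by
      rw [PowerSeries.coeff_mul, mul_sum]
      refine sum_congr rfl fun x _ => ?_
      rw [hk]
      ring
    rw [h1, ker_dec l κ t F ht, map_add, PowerSeries.coeff_C_mul, map_sum, mul_add, mul_sum]
    congr 1
    · unfold sgF
      rw [if_neg ht]
    · refine sum_congr rfl fun r _ => ?_
      rw [PowerSeries.coeff_C_mul, hk]
      ring

/-- the shear at one position -/
theorem shear_one (M p n S β κ j l m k : ℕ) (hκS : κ ≤ S) :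
    ∑ r ∈ range (S + 1), sgW p β k r l m * aco κ r (tpt ℝ p β k) (wP ℝ M p n β κ j) =
      -(∑ r ∈ range (κ + 1), kcW l m r (tpt ℝ p β k) *
          aco κ r (tpt ℝ p β k) (wP ℝ M p n β κ j) +
        ∑ r ∈ range (κ + 1), kcW l m r (-(2 * (p : ℝ) - 1) - tpt ℝ p β k) *
          aco κ r (-(2 * (p : ℝ) - 1) - tpt ℝ p β k) (wP ℝ M p n β κ j)) := by
  rw [← sum_add_distrib, ← sum_neg_distrib]
  symm
  refine sum_subset_zero_on_sdiff (range_subset_range.2 (by omega)) ?_ ?_
  · intro r hr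
    rw [mem_sdiff, mem_range, mem_range, not_lt] at hr
    have : aco κ r (tpt ℝ p β k) (wP ℝ M p n β κ j) = 0 := by
      unfold aco
      rw [if_neg (by omega)]
    rw [this, mul_zero]
  · intro r _
    rw [aco_symm κ r (tpt ℝ p β k) (2 * (p : ℝ) - 1) _ (wP_symm M p n β κ j)]
    unfold sgW
    ring

end Pool.Agent.DW
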