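import Pool.Agent.DW.FAR
import Pool.Agent.DW.TAY
import Pool.Agent.DW.SR1A

/-!
# DW: the real row, first part

(1) `coeff m (hs κ (zs b zr)) = ∑_{k ≥ 1} coeff m ((k/b - X)^(-κ-1) + (-1)^κ (k/b + X)^(-κ-1))` for
`m + κ < T`, `1 ≤ κ` (absolutely convergent); `k/b - X = t0 - t` with `t0 = k/b - l`,
`k/b + X = t - t0` with `t0 = -k/b - l`.
(2) `ker_dec` at every `t0`: in the segment `[-(2p-1), 0]` the regular parts cancel with `gW`, the
polar parts are the shear; outside of it and `|w0| < 4p` the regular parts of `t0` and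
`-(2p-1) - t0` add to an even polynomial of degree `< 2n` in `w` (`ddq_symm`, `wP_symm`), the polar
parts are the shear; the far ones are `farW`.
Checked numerically (34 digits) for small parameters.
-/

namespace Pool.Agent.DW

open Finset Polynomial Pool.Agent.ZC Pool.Agent.SI Pool.Agent.DM

/-- power series of the true zeta values -/
theorem zs_kernels (β κ T m : ℕ) (hκ : 1 ≤ κ) (hm : m + κ < T) :
    HasSum (fun k : ℕ => ((m + κ).choose κ : ℝ) *
        (1 + (-1) ^ (κ + m)) * ((2 * (β : ℝ) + 1) / (k + 1)) ^ (m + κ + 1))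
      (PowerSeries.coeff m (hs ℝ κ (zs ℝ (2 * β + 1) (oddS T) zr))) := by
  rw [zs_half β κ T m hκ hm]
  have h := (uW_hasSum β κ m hκ).mul_left (1 + (-1) ^ (κ + m))
  have e : (fun k : ℕ => ((m + κ).choose κ : ℝ) *
        (1 + (-1) ^ (κ + m)) * ((2 * (β : ℝ) + 1) / (k + 1)) ^ (m + κ + 1)) =
      fun k => (1 + (-1) ^ (κ + m)) * uW β κ m k := by
    funext k
    unfold uW
    ring
  rw [e]
  exact h

/-- the regular parts beyond the segment -/
private theorem sr_even (M p n β κ j k : ℕ) (hj : j < n) :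
    ∃ Q ∈ Polynomial.degreeLT ℝ n, Q.comp (tp ℝ p) =
      ddq κ (tpt ℝ p β k) (wP ℝ M p n β κ j) -
        ddq κ (-(2 * (p : ℝ) - 1) - tpt ℝ p β k) (wP ℝ M p n β κ j) := by
  apply even_tp
  · rw [sub_comp, ddq_symm κ (tpt ℝ p β k) (2 * (p : ℝ) - 1) _ (wP_symm M p n β κ j)]
    have h := ddq_symm κ (-(2 * (p : ℝ) - 1) - tpt ℝ p β k) (2 * (p : ℝ) - 1) _
      (wP_symm M p n β κ j)
    have e : -(2 * (p : ℝ) - 1) - (-(2 * (p : ℝ) - 1) - tpt ℝ p β k) = tpt ℝ p β k := by ring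
    rw [e] at h
    rw [h]
    ring
  · have hd := wP_natDegree_le M p n β κ j
    have h1 := ddq_natDegree_le κ (tpt ℝ p β k) (wP ℝ M p n β κ j)
    have h2 := ddq_natDegree_le κ (-(2 * (p : ℝ) - 1) - tpt ℝ p β k) (wP ℝ M p n β κ j)
    refine lt_of_le_of_lt (natDegree_sub_le _ _) ?_
    have := Nat.mod_le κ 2
    omega

/-- the near part: regular parts -/
private theorem sr_near (M p n β κ j : ℕ) (hp : 1 ≤ p) (hj : j < n) :
    ∃ Q ∈ Polynomial.degreeLT ℝ n, ∀ l < p, ∀ m,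
      ∑ k ∈ range (2 * (2 * β + 1) * p),
        (sgF l (fun t => (-1) ^ (κ + 1) *
            PowerSeries.coeff m (loc ℝ l (ddq κ t (wP ℝ M p n β κ j)))) (tpt ℝ p β k) +
          sgF l (fun t => (-1) ^ (κ + 1) *
            PowerSeries.coeff m (loc ℝ l (ddq κ t (wP ℝ M p n β κ j))))
            (-(2 * (p : ℝ) - 1) - tpt ℝ p β k)) =
      PowerSeries.coeff m (gW ℝ M p n β κ j l) + PowerSeries.coeff m (ev ℝ p l Q) := by
  choose Q hQ hQe using fun k => sr_even M p n β κ j k hj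
  have hN1 : (2 * β + 1) * (p - 1) + β + 1 ≤ 2 * (2 * β + 1) * p := by
    have h3 : (2 * β + 1) * (p - 1) + (2 * β + 1) = (2 * β + 1) * p := by
      rw [← Nat.mul_succ]; congr 1; omega
    have h4 : 2 * (2 * β + 1) * p = (2 * β + 1) * p + (2 * β + 1) * p := by ring
    omega
  set N1 := (2 * β + 1) * (p - 1) + β + 1 with hN1d
  refine ⟨∑ k ∈ Ico N1 (2 * (2 * β + 1) * p), C ((-1) ^ (κ + 1)) * Q k, ?_, ?_⟩
  · refine Submodule.sum_mem _ fun k _ => ?_
    rw [← smul_eq_C_mul]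
    exact Submodule.smul_mem _ _ (hQ k)
  · intro l hl m
    have hb : 0 < (2 * (β : ℝ) + 1) := by positivity
    rw [← sum_range_add_sum_Ico _ hN1]
    congr 1
    · -- the segment
      have ha : N1 = aW p β l + 1 + (2 * β + 1) * l := by
        rw [hN1d]
        unfold aW
        have : (2 * β + 1) * (p - 1) = (2 * β + 1) * (p - 1 - l) + (2 * β + 1) * l := by
          rw [← Nat.mul_add]; congr 1; omega
        rw [this]
        ring
      rw [cnt_S p β l N1 hl _ (by omega)]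
      have e1 : N1 - 1 - aW p β l = (2 * β + 1) * l := by omega
      have e2 : N1 + aW p β l = (2 * β + 1) * (2 * p - 1 - l) := by
        rw [ha]
        unfold aW
        obtain ⟨d, hd⟩ : ∃ d, p = d + 1 + l := ⟨p - 1 - l, by omega⟩
        have e3 : p - 1 - l = d := by omega
        have e4 : 2 * p - 1 - l = 2 * d + 1 + l := by omega
        rw [e3, e4]
        ring
      rw [e1, e2]
      unfold gW
      have hI : ∀ (A : ℕ) (g : ℕ → ℝ), ∑ k ∈ Icc 1 A, g k = ∑ i ∈ range A, g (i + 1) := by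
        intro A g
        rw [Finset.range_eq_Ico, Finset.sum_Ico_add' g 0 A 1, zero_add]
        rfl
      rw [PowerSeries.coeff_C_mul, map_sub, map_sum, map_sum, mul_sub, mul_sum, mul_sum, hI, hI]
    · -- beyond the segment
      simp only [ev, map_sum, map_mul]
      refine sum_congr rfl fun k hk => ?_
      rw [mem_Ico] at hk
      have hak : aW p β l < k := by
        refine lt_of_lt_of_le ?_ hk.1
        rw [hN1d]
        unfold aW
        have : (2 * β + 1) * (p - 1 - l) ≤ (2 * β + 1) * (p - 1) := Nat.mul_le_mul_left _ (by omega)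
        omega
      have h1 := tpt_add p β l k hl
      have hpos : 0 < tpt ℝ p β k + l := by
        rw [h1]
        exact div_pos (sub_pos.2 (by exact_mod_cast hak)) hb
      have h2 := tpt_mir p β l k hl
      have h2n : -(2 * (p : ℝ) - 1) - tpt ℝ p β k + l < 0 := by
        rw [h2, neg_lt_zero]; positivity
      unfold sgF
      rw [if_neg hpos.ne', if_pos hpos, if_neg h2n.ne, if_neg h2n.le.not_gt, one_mul]
      have h3 : Polynomial.aeval (yl ℝ p l) (Q k) = loc ℝ l ((Q k).comp (tp ℝ p)) := by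
        rw [← ev_eq_loc]
        rfl
      rw [h3, hQe k, map_sub, aeval_C]
      have h4 : (algebraMap ℝ (PowerSeries ℝ)) ((-1) ^ (κ + 1)) = PowerSeries.C ((-1) ^ (κ + 1)) := rfl
      rw [h4, PowerSeries.coeff_C_mul, map_sub]
      ring

theorem sr_one (M p n T S β κ j : ℕ) (hp : 1 ≤ p) (hκ : 1 ≤ κ) (hκS : κ ≤ S) (hj : j < n) :
    ∃ Q ∈ Polynomial.degreeLT ℝ n, ∀ l < p, ∀ m, m + κ < T →
      PowerSeries.coeff m (yW ℝ M p n T zr β κ j l) - PowerSeries.coeff m (gW ℝ M p n β κ j l) +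
        ∑ k ∈ range (2 * (2 * β + 1) * p), ∑ r ∈ range (S + 1),
          sgW p β k r l m * aco κ r (tpt ℝ p β k) (wP ℝ M p n β κ j) =
      PowerSeries.coeff m (ev ℝ p l Q) + PowerSeries.coeff m (farW M p n β κ j l) := by
  obtain ⟨Q, hQ, hQe⟩ := sr_near M p n β κ j hp hj
  refine ⟨Q, hQ, fun l hl m hm => ?_⟩
  have hy : PowerSeries.coeff m (yW ℝ M p n T zr β κ j l) =
      ∑ k ∈ range (2 * (2 * β + 1) * p),
        (∑ x ∈ antidiagonal m, PowerSeries.coeff x.1 (loc ℝ l (wP ℝ M p n β κ j)) *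
            kcW l x.2 κ (tpt ℝ p β k) +
          ∑ x ∈ antidiagonal m, PowerSeries.coeff x.1 (loc ℝ l (wP ℝ M p n β κ j)) *
            kcW l x.2 κ (-(2 * (p : ℝ) - 1) - tpt ℝ p β k)) +
      PowerSeries.coeff m (farW M p n β κ j l) := by
    unfold yW farW
    rw [PowerSeries.coeff_mul, PowerSeries.coeff_mul]
    have h1 : ∀ x ∈ antidiagonal m, PowerSeries.coeff x.1 (loc ℝ l (wP ℝ M p n β κ j)) *
        PowerSeries.coeff x.2 (hs ℝ κ (zs ℝ (2 * β + 1) (oddS T) zr)) =
        ∑ k ∈ range (2 * (2 * β + 1) * p),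
          (PowerSeries.coeff x.1 (loc ℝ l (wP ℝ M p n β κ j)) * kcW l x.2 κ (tpt ℝ p β k) +
            PowerSeries.coeff x.1 (loc ℝ l (wP ℝ M p n β κ j)) *
              kcW l x.2 κ (-(2 * (p : ℝ) - 1) - tpt ℝ p β k)) +
        PowerSeries.coeff x.1 (loc ℝ l (wP ℝ M p n β κ j)) *
          PowerSeries.coeff x.2 (PowerSeries.mk (fkc p β κ l)) := by
      intro x hx
      rw [HasAntidiagonal.mem_antidiagonal] at hx
      rw [zs_split p β l κ T x.2 hl hκ (by omega), mul_add, mul_sum, PowerSeries.coeff_mk]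
      congr 1
      refine sum_congr rfl fun k _ => ?_
      rw [mul_add]
    rw [sum_congr rfl h1, sum_add_distrib, sum_comm]
    congr 1
    refine sum_congr rfl fun k _ => ?_
    rw [sum_add_distrib]
  have h2 : ∑ k ∈ range (2 * (2 * β + 1) * p), ∑ r ∈ range (S + 1),
          sgW p β k r l m * aco κ r (tpt ℝ p β k) (wP ℝ M p n β κ j) =
      ∑ k ∈ range (2 * (2 * β + 1) * p),
        -(∑ r ∈ range (κ + 1), kcW l m r (tpt ℝ p β k) *
          aco κ r (tpt ℝ p β k) (wP ℝ M p n β κ j) +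
        ∑ r ∈ range (κ + 1), kcW l m r (-(2 * (p : ℝ) - 1) - tpt ℝ p β k) *
          aco κ r (-(2 * (p : ℝ) - 1) - tpt ℝ p β k) (wP ℝ M p n β κ j)) :=
    sum_congr rfl fun k _ => shear_one M p n S β κ j l m k hκS
  have h3 := hQe l hl m
  rw [hy, h2]
  simp only [ker_one]
  have h4 : ∀ (s : Finset ℕ) (A B C D : ℕ → ℝ),
      ∑ k ∈ s, ((A k + B k) + (C k + D k)) + ∑ k ∈ s, -(B k + D k) = ∑ k ∈ s, (A k + C k) := by
    intro s A B C D
    rw [← sum_add_distrib]
    exact sum_congr rfl fun k _ => by ring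
  have h5 := h4 (range (2 * (2 * β + 1) * p))
    (fun k => sgF l (fun t => (-1) ^ (κ + 1) *
            PowerSeries.coeff m (loc ℝ l (ddq κ t (wP ℝ M p n β κ j)))) (tpt ℝ p β k))
    (fun k => ∑ r ∈ range (κ + 1), kcW l m r (tpt ℝ p β k) *
          aco κ r (tpt ℝ p β k) (wP ℝ M p n β κ j))
    (fun k => sgF l (fun t => (-1) ^ (κ + 1) *
            PowerSeries.coeff m (loc ℝ l (ddq κ t (wP ℝ M p n β κ j))))
            (-(2 * (p : ℝ) - 1) - tpt ℝ p β k))
    (fun k => ∑ r ∈ range (κ + 1), kcW l m r (-(2 * (p : ℝ) - 1) - tpt ℝ p β k) *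
          aco κ r (-(2 * (p : ℝ) - 1) - tpt ℝ p β k) (wP ℝ M p n β κ j))
  rw [h3] at h5
  linear_combination h5

end Pool.Agent.DW
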